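import Pool.Agent.P.MP_08bb88_co.CaseB

set_option autoImplicit false

namespace Pool.Agent.P.MP_08bb88_co

open Classical

variable {V : Type} {G : SimpleGraph V}

section
variable (hcl : ClawFree G) {h v1 v2 v3 v4 v5 : V} (w : Wheel G h v1 v2 v3 v4 v5)
include hcl w

theorem Wheel.no3 {t2 t4 y : V} (h2 : Ty G h v2 v3 v4 v5 v1 t2) (h4 : Ty G h v4 v5 v1 v2 v3 t4)
    (hn : ¬ G.Adj t2 t4) (hy : N2 G h y) : ¬ (G.Adj y v5 ∧ G.Adj y v1 ∧ G.Adj y v2) := by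
  rintro ⟨a, b, c⟩
  have s1 := N2.share hcl hy h2.1 w.h2 c h2.2.1
  have s2 := N2.share hcl hy h4.1 w.h5 a h4.2.2.1
  have d := hcl.cl y v1 t2 t4
  have := h2.1.2.1
  have := h4.1.2.1
  have := w.h1
  unfold Ty at h2 h4
  grind (splits := 40) [asym]

theorem Wheel.ico1 {t1 t3 t4 y : V} (h1 : Ty G h v1 v2 v3 v4 v5 t1)
    (h3 : Ty G h v3 v4 v5 v1 v2 t3) (h4 : Ty G h v4 v5 v1 v2 v3 t4) (n3 : ¬ G.Adj t1 t3)
    (n4 : ¬ G.Adj t4 t1) (hy : G.Adj h y) (a : G.Adj y v4) (b : G.Adj y t1) : False := by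
  have c1 := hcl.cl y h t1 t3
  have c2 := hcl.cl y h t1 t4
  have c3 := hcl.cl v4 y t3 v5
  have c4 := hcl.cl v4 y t4 v3
  have c5 := hcl.cl y t1 v3 v5
  obtain ⟨⟨p0, p0', -⟩, p1, p2, p3, p4, p5⟩ := h1
  obtain ⟨⟨q0, q0', -⟩, q1, q2, q3, q4, q5⟩ := h3
  obtain ⟨⟨u0, u0', -⟩, u1, u2, u3, u4, u5⟩ := h4
  obtain ⟨h1, h2, h3, h4, h5, a12, a23, a34, a45, a51, n13, n24, n35, n41, n52⟩ := w
  have g1 : ¬ G.Adj y t3 := by grind (splits := 40) [asym]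
  have g2 : ¬ G.Adj y t4 := by grind (splits := 40) [asym]
  have g3 : G.Adj y v5 := by grind (splits := 40) [asym]
  have g4 : G.Adj y v3 := by grind (splits := 40) [asym]
  grind (splits := 40) [asym]

theorem Wheel.ico2 {t2 t4 y : V} (h2 : Ty G h v2 v3 v4 v5 v1 t2)
    (h4 : Ty G h v4 v5 v1 v2 v3 t4) (n4 : ¬ G.Adj t2 t4)
    (hy : G.Adj h y) (a : G.Adj y v4) (b : G.Adj y t2) : G.Adj y v2 := by
  by_contra hn
  have c1 := hcl.cl h y v2 v5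
  have c2 := hcl.cl y h t2 t4
  have c3 := hcl.cl v5 y t4 v1
  have c4 := hcl.cl y t2 v1 v4
  obtain ⟨⟨p0, p0', -⟩, p1, p2, p3, p4, p5⟩ := h2
  obtain ⟨⟨u0, u0', -⟩, u1, u2, u3, u4, u5⟩ := h4
  obtain ⟨h1, h2, h3, h4, h5, a12, a23, a34, a45, a51, n13, n24, n35, n41, n52⟩ := w
  have g1 : G.Adj y v5 := by grind (splits := 40) [asym]
  have g2 : ¬ G.Adj y t4 := by grind (splits := 40) [asym]
  have g3 : G.Adj y v1 := by grind (splits := 40) [asym]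
  grind (splits := 40) [asym]

theorem div_ico [Fintype V] (ih : ∀ O : Set V, (∃ w, w ∉ O) → Div G O) {t1 t2 t3 t4 t5 : V}
    (h1 : Ty G h v1 v2 v3 v4 v5 t1) (h2 : Ty G h v2 v3 v4 v5 v1 t2)
    (h3 : Ty G h v3 v4 v5 v1 v2 t3) (h4 : Ty G h v4 v5 v1 v2 v3 t4)
    (h5 : Ty G h v5 v1 v2 v3 v4 t5)
    (an1 : ∀ x y, Ty G h v1 v2 v3 v4 v5 x → Ty G h v3 v4 v5 v1 v2 y → ¬ G.Adj x y)
    (an2 : ∀ x y, Ty G h v2 v3 v4 v5 v1 x → Ty G h v4 v5 v1 v2 v3 y → ¬ G.Adj x y)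
    (an3 : ∀ x y, Ty G h v3 v4 v5 v1 v2 x → Ty G h v5 v1 v2 v3 v4 y → ¬ G.Adj x y)
    (an4 : ∀ x y, Ty G h v4 v5 v1 v2 v3 x → Ty G h v1 v2 v3 v4 v5 y → ¬ G.Adj x y)
    (an5 : ∀ x y, Ty G h v5 v1 v2 v3 v4 x → Ty G h v2 v3 v4 v5 v1 y → ¬ G.Adj x y) :
    Div G Set.univ := by
  have hq := w.far_clique hcl h1 h2 h3
  have hcomp : ∀ z ∈ {z | Far G h z ∧ ∃ x, N2 G h x ∧ G.Adj x z}, ∀ y, N2 G h y → G.Adj y z := by
    rintro z ⟨hz, x, hx, hxz⟩ y hy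
    exact w.far_complete hcl h1 h2 h3 hx hz hxz hy
  have allT : ∀ x, N2 G h x → ¬ G.Adj x v4 → Ty G h v1 v2 v3 v4 v5 x ∨ Ty G h v2 v3 v4 v5 v1 x ∨
      Ty G h v5 v1 v2 v3 v4 x := by
    intro x nx n4
    have p0 := w.some hcl nx
    have p1 := w.arc hcl nx
    have p2 := w.rot.arc hcl nx
    have p3 := w.rot.rot.arc hcl nx
    have p5 := w.rot.rot.rot.rot.arc hcl nx
    have q1 := w.no3 hcl h2 h4 (an2 _ _ h2 h4) nx
    have q2 := w.rot.no3 hcl h3 h5 (an3 _ _ h3 h5) nx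
    simp only [Ty, nx, true_and]
    clear an1 an2 an3 an4 an5 hcomp hq
    grind (splits := 60)
  have hO : ∀ o, Far G h o → (¬ ∃ x, N2 G h x ∧ G.Adj x o) → ∀ y, G.Adj y o →
      Far G h y ∧ ¬ ∃ x, N2 G h x ∧ G.Adj x y := by
    intro o ho hno y hyo
    rcases quad (G := G) h y with e | e | e | e
    · exact (ho.2.1 (e ▸ hyo)).elim
    · exact (ho.2.2 y e hyo.symm).elim
    · exact (hno ⟨y, e, hyo⟩).elim
    · refine ⟨e, fun f => ?_⟩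
      have a1 := hcomp y ⟨e, f⟩ t1 h1.1
      have a2 := hcomp y ⟨e, f⟩ t3 h3.1
      have b1 : ¬ G.Adj t1 o := fun e => hno ⟨t1, h1.1, e⟩
      have b2 : ¬ G.Adj t3 o := fun e => hno ⟨t3, h3.1, e⟩
      have b3 : t1 ≠ o := fun e => N2.not_far h1.1 (e ▸ ho)
      have b4 : t3 ≠ o := fun e => N2.not_far h3.1 (e ▸ ho)
      have b5 := an1 _ _ h1 h3
      have b6 : t1 ≠ t3 := by rintro rfl; exact h1.2.2.2.1 h3.2.1
      have := hcl.cl y t1 t3 o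
      clear an1 an2 an3 an4 an5 hcomp hq allT
      grind (splits := 40) [asym]
  let Q1 : Set V := {x | x = h ∨ (G.Adj h x ∧ x ≠ v4 ∧ ¬ G.Adj x v4)}
  let Q2 : Set V := {x | N2 G h x ∧ G.Adj x v4} ∪ {z | Far G h z ∧ ∃ x, N2 G h x ∧ G.Adj x z}
  refine div_two ih (Q1 ∪ Q2) {z | Far G h z ∧ ¬ ∃ x, N2 G h x ∧ G.Adj x z}
    ⟨h, fun e => e.1.1 rfl⟩ ⟨Q1, Q2, ?_, ?_, le_rfl⟩ ?_ ?_ ?_
  · rintro x (rfl | hx) y (rfl | hy) hne
    · exact (hne rfl).elim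
    · exact hy.1
    · exact hx.1.symm
    · have := hcl.cl h x y v4
      have := w.h4
      clear an1 an2 an3 an4 an5 hcomp hq allT hO
      grind (splits := 40) [asym]
  · rintro x (hx | hx) y (hy | hy) hne
    · exact N2.share hcl hx.1 hy.1 w.h4 hx.2 hy.2 hne
    · exact hcomp y hy x hx.1
    · exact (hcomp x hx y hy.1).symm
    · exact hq x hx y hy hne
  · rintro x ((rfl | hx) | hx | hx) e
    · exact e.1.1 rfl
    · exact e.1.2.1 hx.1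
    · exact N2.not_far hx.1 e.1
    · exact e.2 hx.2
  · intro x hx o ho hxo
    have e := hO o ho.1 ho.2 x hxo
    rcases hx with ((rfl | hx) | hx | hx)
    · exact e.1.1 rfl
    · exact e.1.2.1 hx.1
    · exact N2.not_far hx.1 e.1
    · exact e.2 hx.2
  intro K hK hmax hKW
  by_cases hKO : ∃ o ∈ K, Far G h o ∧ ¬ ∃ x, N2 G h x ∧ G.Adj x o
  · obtain ⟨o, ho, o1, o2⟩ := hKO
    intro y hy
    by_cases e : y = o
    · rw [e]; exact ⟨o1, o2⟩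
    · exact hO o o1 o2 y (hK y hy o ho e)
  exfalso
  have hh : h ∉ K := fun e => hKW h e (Or.inl (Or.inl rfl))
  have cls : ∀ x ∈ K, (G.Adj h x ∧ (x = v4 ∨ G.Adj x v4)) ∨ (N2 G h x ∧ ¬ G.Adj x v4) := by
    intro x hx
    rcases quad (G := G) h x with e | e | e | e
    · exact (hh (e ▸ hx)).elim
    · refine Or.inl ⟨e, ?_⟩
      by_contra f
      push Not at f
      exact hKW x hx (Or.inl (Or.inr ⟨e, f⟩))
    · exact Or.inr ⟨e, fun f => hKW x hx (Or.inr (Or.inl ⟨e, f⟩))⟩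
    · by_cases f : ∃ y, N2 G h y ∧ G.Adj y x
      · exact (hKW x hx (Or.inr (Or.inr ⟨e, f⟩))).elim
      · exact (hKO ⟨x, hx, e, f⟩).elim
  obtain ⟨t, ht, hht⟩ := hmax h hh
  have ht2 : N2 G h t ∧ ¬ G.Adj t v4 := (cls t ht).resolve_left (fun e => hht e.1)
  have h4K : v4 ∉ K := fun e =>
    ht2.2 (hK t ht v4 e (by rintro rfl; exact hht w.h4))
  have h1K : v1 ∉ K := fun e => hKW v1 e (Or.inl (Or.inr ⟨w.h1,
    by rintro rfl; exact w.n24 w.a12.symm, fun f => w.n41 f.symm⟩))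
  have h2K : v2 ∉ K := fun e => hKW v2 e (Or.inl (Or.inr ⟨w.h2,
    by rintro rfl; exact w.n41 w.a12.symm, w.n24⟩))
  obtain ⟨x1, hx1, n1⟩ := hmax v1 h1K
  obtain ⟨x2, hx2, n2⟩ := hmax v2 h2K
  have wf := w.flip
  have k1 : ∀ y ∈ K, G.Adj h y → ∀ s ∈ K, N2 G h s → G.Adj y v4 ∧ G.Adj y s := by
    intro y hy hhy s hs ns
    refine ⟨?_, hK y hy s hs (by rintro rfl; exact ns.2.1 hhy)⟩
    rcases cls y hy with e | e
    · exact e.2.resolve_left (by rintro rfl; exact h4K hy)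
    · exact (e.1.2.1 hhy).elim
  have k2 : ∀ y ∈ K, G.Adj h y → ∀ s ∈ K, ¬ Ty G h v1 v2 v3 v4 v5 s := fun y hy hhy s hs ts =>
    w.ico1 hcl ts h3 h4 (an1 _ _ ts h3) (an4 _ _ h4 ts) hhy (k1 y hy hhy s hs ts.1).1
      (k1 y hy hhy s hs ts.1).2
  have k3 : ∀ y ∈ K, G.Adj h y → ∀ s ∈ K, Ty G h v2 v3 v4 v5 v1 s → G.Adj y v2 :=
    fun y hy hhy s hs ts => w.ico2 hcl ts h4 (an2 _ _ ts h4) hhy (k1 y hy hhy s hs ts.1).1
      (k1 y hy hhy s hs ts.1).2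
  have k4 : ∀ y ∈ K, G.Adj h y → ∀ s ∈ K, Ty G h v5 v1 v2 v3 v4 s → G.Adj y v1 :=
    fun y hy hhy s hs ts => wf.ico2 hcl ts.flip h3.flip (fun e => an3 _ _ h3 ts e.symm) hhy
      (k1 y hy hhy s hs ts.1).1 (k1 y hy hhy s hs ts.1).2
  have k5 : ∀ s ∈ K, ∀ s' ∈ K, Ty G h v5 v1 v2 v3 v4 s → Ty G h v2 v3 v4 v5 v1 s' → False :=
    fun s hs s' hs' a b => an5 _ _ a b (hK s hs s' hs' (by rintro rfl; exact a.2.2.2.1 b.2.1))
  have m1 : G.Adj h x1 ∨ Ty G h v2 v3 v4 v5 v1 x1 := by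
    rcases cls x1 hx1 with e | e
    · exact Or.inl e.1
    · rcases allT x1 e.1 e.2 with f | f | f
      · exact (n1 f.2.1.symm).elim
      · exact Or.inr f
      · exact (n1 f.2.2.1.symm).elim
  have m2 : G.Adj h x2 ∨ Ty G h v5 v1 v2 v3 v4 x2 := by
    rcases cls x2 hx2 with e | e
    · exact Or.inl e.1
    · rcases allT x2 e.1 e.2 with f | f | f
      · exact (n2 f.2.2.1.symm).elim
      · exact (n2 f.2.1.symm).elim
      · exact Or.inr f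
  rcases m1 with m1 | m1 <;> rcases m2 with m2 | m2
  · rcases allT t ht2.1 ht2.2 with f | f | f
    · exact k2 x1 hx1 m1 t ht f
    · exact n2 (k3 x2 hx2 m2 t ht f).symm
    · exact n1 (k4 x1 hx1 m1 t ht f).symm
  · exact n1 (k4 x1 hx1 m1 x2 hx2 m2).symm
  · exact n2 (k3 x2 hx2 m2 x1 hx1 m1).symm
  · exact k5 x2 hx2 x1 hx1 m2 m1

end

end Pool.Agent.P.MP_08bb88_co
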