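import Pool.Agent.P.MP_08bb88_co.Hub

set_option autoImplicit false

namespace Pool.Agent.P.MP_08bb88_co

open Classical

variable {V : Type} {G : SimpleGraph V}

section
variable (hcl : ClawFree G) {h v1 v2 v3 v4 v5 : V} (w : Wheel G h v1 v2 v3 v4 v5)
include hcl w

theorem Wheel.far_complete {t1 t2 t3 x z y : V} (h1 : Ty G h v1 v2 v3 v4 v5 t1)
    (h2 : Ty G h v2 v3 v4 v5 v1 t2) (h3 : Ty G h v3 v4 v5 v1 v2 t3) (hx : N2 G h x)
    (hz : Far G h z) (hxz : G.Adj x z) (hy : N2 G h y) : G.Adj y z := by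
  have r12 := w.run hcl h1 h2 hz
  have r23 := w.rot.run hcl h2 h3 hz
  have e2 : G.Adj t2 z := by
    rcases w.types hcl hx hz hxz with e | e | e | e | e
    · exact (w.run hcl e h2 hz).1 hxz
    · exact r12.1 ((w.run hcl h1 e hz).2 hxz)
    · exact (w.rot.run hcl h2 e hz).2 hxz
    · exact r23.2 ((w.rot.rot.run hcl h3 e hz).2 hxz)
    · exact r12.1 ((w.rot.rot.rot.rot.run hcl e h1 hz).1 hxz)
  have e1 := r12.2 e2
  have e3 := r23.1 e2
  by_contra hn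
  have hyz : y ≠ z := fun e => hy.not_far (e ▸ hz)
  have s1 := N2.share hcl hy h1.1 w.h1
  have s2 := N2.share hcl hy h1.1 w.h2
  have s3 := N2.share hcl hy h2.1 w.h2
  have s4 := N2.share hcl hy h2.1 w.h3
  have s5 := N2.share hcl hy h3.1 w.h3
  have s6 := N2.share hcl hy h3.1 w.h4
  have z1 := hz.2.2 _ w.h1
  have z2 := hz.2.2 _ w.h2
  have z3 := hz.2.2 _ w.h3
  have z4 := hz.2.2 _ w.h4
  have z0 := hz.2.1
  have y0 := hy.2.1
  have c1 := hcl.cl t1 v1 y z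
  have c2 := hcl.cl t1 v2 y z
  have c3 := hcl.cl t2 v2 y z
  have c4 := hcl.cl t2 v3 y z
  have c5 := hcl.cl t3 v3 y z
  have c6 := hcl.cl t3 v4 y z
  have c7 := hcl.cl y v1 v4 t2
  have s := w.some hcl hy
  have a5 := w.rot.rot.rot.rot.arc hcl hy
  have t20 := h2.1.2.1
  obtain ⟨-, p1, p2, p3, p4, p5⟩ := h1
  obtain ⟨-, q1, q2, q3, q4, q5⟩ := h2
  obtain ⟨-, u1, u2, u3, u4, u5⟩ := h3
  obtain ⟨h1, h2, h3, h4, h5, a12, a23, a34, a45, a51, n13, n24, n35, n41, n52⟩ := w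
  have g1 : G.Adj y v1 → G.Adj y v2 := by grind (splits := 40) [asym]
  have g2 : G.Adj y v2 → G.Adj y v1 := by grind (splits := 40) [asym]
  have g3 : G.Adj y v2 → G.Adj y v3 := by grind (splits := 40) [asym]
  have g4 : G.Adj y v3 → G.Adj y v2 := by grind (splits := 40) [asym]
  have g5 : G.Adj y v3 → G.Adj y v4 := by grind (splits := 40) [asym]
  have g6 : G.Adj y v4 → G.Adj y v3 := by grind (splits := 40) [asym]
  grind (splits := 40) [asym]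

theorem Wheel.far_clique {t1 t2 t3 : V} (h1 : Ty G h v1 v2 v3 v4 v5 t1)
    (h2 : Ty G h v2 v3 v4 v5 v1 t2) (h3 : Ty G h v3 v4 v5 v1 v2 t3) :
    Clq G {z | Far G h z ∧ ∃ x, N2 G h x ∧ G.Adj x z} := by
  rintro z ⟨hz, x, hx, hxz⟩ z' ⟨hz', x', hx', hxz'⟩ hne
  have e1 := w.far_complete hcl h1 h2 h3 hx hz hxz h1.1
  have e2 := w.far_complete hcl h1 h2 h3 hx' hz' hxz' h1.1
  have c := hcl.cl t1 v1 z z'
  have := hz.2.2 _ w.h1
  have := hz'.2.2 _ w.h1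
  have := hz.2.1
  have := hz'.2.1
  have := w.h1
  have := h1.2.1
  grind (splits := 40) [asym]

theorem div_B2 [Fintype V] (ih : ∀ O : Set V, (∃ w, w ∉ O) → Div G O) {t1 t2 t3 : V}
    (h1 : Ty G h v1 v2 v3 v4 v5 t1) (h2 : Ty G h v2 v3 v4 v5 v1 t2)
    (h3 : Ty G h v3 v4 v5 v1 v2 t3) (hc : Cob G {x | N2 G h x}) : Div G Set.univ := by
  have hq := w.far_clique hcl h1 h2 h3
  have hcomp : ∀ z ∈ {z | Far G h z ∧ ∃ x, N2 G h x ∧ G.Adj x z}, ∀ y, N2 G h y → G.Adj y z := by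
    rintro z ⟨hz, x, hx, hxz⟩ y hy
    exact w.far_complete hcl h1 h2 h3 hx hz hxz hy
  have hadd : ∀ Q : Set V, Clq G Q → Clq G ((Q ∩ {x | N2 G h x}) ∪
      {z | Far G h z ∧ ∃ x, N2 G h x ∧ G.Adj x z}) := by
    rintro Q hQ x (hx | hx) y (hy | hy) hne
    · exact hQ x hx.1 y hy.1 hne
    · exact hcomp y hy x hx.2
    · exact (hcomp x hx y hy.2).symm
    · exact hq x hx y hy hne
  by_cases hN : Clq G {x | N2 G h x}
  · refine hub_red ih h {x | N2 G h x} {x | Far G h x} _ (fun x hx => Or.inl hx) (fun x hx => hx)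
      (fun x hx => hx) (fun x hx => Or.inr hx) hc (hadd _ hN) (fun x hx e => N2.not_far hx e) ?_
    intro x hx z hz hxz
    exact ⟨Or.inl ⟨hx, hx⟩, Or.inr ⟨hz, x, hx, hxz⟩⟩
  · obtain ⟨Q1, Q2, q1, q2, hQ⟩ := hc
    unfold Clq at hN
    push Not at hN
    obtain ⟨t, ht, t', ht', hne, hn⟩ := hN
    refine hub_red ih h ({x | N2 G h x} ∪ {z | Far G h z ∧ ∃ x, N2 G h x ∧ G.Adj x z})
      {z | Far G h z ∧ ¬ ∃ x, N2 G h x ∧ G.Adj x z} ∅ ?_ (fun x hx => hx.1)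
      (fun x hx => Or.inl hx) ?_ ⟨_, Q2, hadd _ q1, q2, ?_⟩ (fun x hx => hx.elim) ?_ ?_
    · rintro x (hx | hx)
      · exact Or.inl hx
      · exact Or.inr hx.1
    · intro x hx
      by_cases e : ∃ y, N2 G h y ∧ G.Adj y x
      · exact Or.inl (Or.inr ⟨hx, e⟩)
      · exact Or.inr ⟨hx, e⟩
    · rintro x (hx | hx)
      · rcases hQ hx with e | e
        · exact Or.inl (Or.inl ⟨e, hx⟩)
        · exact Or.inr e
      · exact Or.inl (Or.inr hx)
    · rintro x (hx | hx) e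
      · exact N2.not_far hx e.1
      · exact e.2 hx.2
    · rintro x (hx | hx) o ho hxo
      · exact (ho.2 ⟨x, hx, hxo⟩).elim
      · exfalso
        have a1 := hcomp x hx t ht
        have a2 := hcomp x hx t' ht'
        have b1 : ¬ G.Adj t o := fun e => ho.2 ⟨t, ht, e⟩
        have b2 : ¬ G.Adj t' o := fun e => ho.2 ⟨t', ht', e⟩
        have b3 : t ≠ o := fun e => N2.not_far ht (e ▸ ho.1)
        have b4 : t' ≠ o := fun e => N2.not_far ht' (e ▸ ho.1)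
        have := hcl.cl x t t' o
        grind (splits := 40) [asym]

theorem Wheel.cob_of_empty (hn : ∀ x, ¬ Ty G h v5 v1 v2 v3 v4 x) : Cob G {x | N2 G h x} := by
  refine ⟨{x | N2 G h x ∧ G.Adj x v2}, {x | N2 G h x ∧ G.Adj x v4}, ?_, ?_, ?_⟩
  · intro x hx y hy hne
    exact N2.share hcl hx.1 hy.1 w.h2 hx.2 hy.2 hne
  · intro x hx y hy hne
    exact N2.share hcl hx.1 hy.1 w.h4 hx.2 hy.2 hne
  · intro x hx
    rcases w.cover hcl hx (hn x) with e | e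
    · exact Or.inl ⟨hx, e⟩
    · exact Or.inr ⟨hx, e⟩

theorem Wheel.rho1 {t1 t3 t5 : V} (h1 : Ty G h v1 v2 v3 v4 v5 t1) (h3 : Ty G h v3 v4 v5 v1 v2 t3)
    (h5 : Ty G h v5 v1 v2 v3 v4 t5) (e : G.Adj t1 t3) : G.Adj t3 t5 := by
  have s := N2.share hcl h1.1 h5.1 w.h1 h1.2.1 h5.2.2.1
  have c := hcl.cl t1 t3 v2 t5
  have := h3.1.2.1
  have := h5.1.2.1
  have := w.h2
  unfold Ty at h1 h3 h5
  grind (splits := 40) [asym]

theorem Wheel.rho2 {t1 t3 t4 : V} (h1 : Ty G h v1 v2 v3 v4 v5 t1) (h3 : Ty G h v3 v4 v5 v1 v2 t3)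
    (h4 : Ty G h v4 v5 v1 v2 v3 t4) (e : G.Adj t1 t3) : G.Adj t1 t4 := by
  have s := N2.share hcl h3.1 h4.1 w.h4 h3.2.2.1 h4.2.1
  have c := hcl.cl t3 t1 v3 t4
  have := h1.1.2.1
  have := h4.1.2.1
  have := w.h3
  unfold Ty at h1 h3 h4
  grind (splits := 40) [asym]

theorem Wheel.full_step {t1 t3 : V} (h1 : Ty G h v1 v2 v3 v4 v5 t1)
    (h3 : Ty G h v3 v4 v5 v1 v2 t3) (e : G.Adj t1 t3) :
    ∀ t2 t4, Ty G h v2 v3 v4 v5 v1 t2 → Ty G h v4 v5 v1 v2 v3 t4 → G.Adj t2 t4 := by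
  intro t2 t4 h2 h4
  exact (w.rot.rot.rot.rho2 hcl h4 h1 h2 (w.rho2 hcl h1 h3 h4 e).symm).symm

theorem Wheel.cob_of_edge {t1 t2 t3 t4 t5 : V} (h1 : Ty G h v1 v2 v3 v4 v5 t1)
    (h2 : Ty G h v2 v3 v4 v5 v1 t2) (h3 : Ty G h v3 v4 v5 v1 v2 t3)
    (h4 : Ty G h v4 v5 v1 v2 v3 t4) (h5 : Ty G h v5 v1 v2 v3 v4 t5) (e : G.Adj t1 t3) :
    Cob G {x | N2 G h x} := by
  have f2 := w.full_step hcl h1 h3 e
  have f3 := w.rot.full_step hcl h2 h4 (f2 _ _ h2 h4)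
  have f4 := w.rot.rot.full_step hcl h3 h5 (f3 _ _ h3 h5)
  have f5 := w.rot.rot.rot.full_step hcl h4 h1 (f4 _ _ h4 h1)
  have f1 := w.rot.rot.rot.rot.full_step hcl h5 h2 (f5 _ _ h5 h2)
  let T : Set V := {x | Ty G h v1 v2 v3 v4 v5 x ∨ Ty G h v2 v3 v4 v5 v1 x ∨
    Ty G h v3 v4 v5 v1 v2 x ∨ Ty G h v4 v5 v1 v2 v3 x ∨ Ty G h v5 v1 v2 v3 v4 x}
  refine ⟨T, {x | N2 G h x ∧ x ∉ T}, ?_, ?_, ?_⟩
  · intro x hx y hy hne
    have nx : N2 G h x := by rcases hx with e | e | e | e | e <;> exact e.1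
    have ny : N2 G h y := by rcases hy with e | e | e | e | e <;> exact e.1
    have s1 := fun a b => N2.share hcl nx ny w.h1 a b hne
    have s2 := fun a b => N2.share hcl nx ny w.h2 a b hne
    have s3 := fun a b => N2.share hcl nx ny w.h3 a b hne
    have s4 := fun a b => N2.share hcl nx ny w.h4 a b hne
    have s5 := fun a b => N2.share hcl nx ny w.h5 a b hne
    rcases hx with e | e | e | e | e <;> rcases hy with e' | e' | e' | e' | e'
    all_goals first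
      | exact s1 e.2.1 e'.2.1 | exact s2 e.2.1 e'.2.1 | exact s3 e.2.1 e'.2.1
      | exact s4 e.2.1 e'.2.1 | exact s5 e.2.1 e'.2.1
      | exact s1 e.2.2.1 e'.2.1 | exact s2 e.2.2.1 e'.2.1 | exact s3 e.2.2.1 e'.2.1
      | exact s4 e.2.2.1 e'.2.1 | exact s5 e.2.2.1 e'.2.1
      | exact s1 e.2.1 e'.2.2.1 | exact s2 e.2.1 e'.2.2.1 | exact s3 e.2.1 e'.2.2.1
      | exact s4 e.2.1 e'.2.2.1 | exact s5 e.2.1 e'.2.2.1
      | exact f1 _ _ e e' | exact f2 _ _ e e' | exact f3 _ _ e e' | exact f4 _ _ e e'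
      | exact f5 _ _ e e'
      | exact (f1 _ _ e' e).symm | exact (f2 _ _ e' e).symm | exact (f3 _ _ e' e).symm
      | exact (f4 _ _ e' e).symm | exact (f5 _ _ e' e).symm
  · rintro x ⟨nx, hx⟩ y ⟨ny, hy⟩ hne
    have s1 := fun a b => N2.share hcl nx ny w.h1 a b hne
    have s2 := fun a b => N2.share hcl nx ny w.h2 a b hne
    have s3 := fun a b => N2.share hcl nx ny w.h3 a b hne
    have s4 := fun a b => N2.share hcl nx ny w.h4 a b hne
    have s5 := fun a b => N2.share hcl nx ny w.h5 a b hne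
    have p0 := w.some hcl nx
    have p1 := w.arc hcl nx
    have p2 := w.rot.arc hcl nx
    have p3 := w.rot.rot.arc hcl nx
    have p4 := w.rot.rot.rot.arc hcl nx
    have p5 := w.rot.rot.rot.rot.arc hcl nx
    have q0 := w.some hcl ny
    have q1 := w.arc hcl ny
    have q2 := w.rot.arc hcl ny
    have q3 := w.rot.rot.arc hcl ny
    have q4 := w.rot.rot.rot.arc hcl ny
    have q5 := w.rot.rot.rot.rot.arc hcl ny
    simp only [T, Ty, Set.mem_ofPred_eq, nx, ny, true_and] at hx hy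
    clear f1 f2 f3 f4 f5 h1 h2 h3 h4 h5 e
    grind (splits := 60)
  · intro x hx
    by_cases e : x ∈ T
    · exact Or.inl e
    · exact Or.inr ⟨hx, e⟩

end

end Pool.Agent.P.MP_08bb88_co
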