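import Pool.Agent.P.MP_08bb88_co.CaseA

set_option autoImplicit false

namespace Pool.Agent.P.MP_08bb88_co

open Classical

variable {V : Type} {G : SimpleGraph V}

def St (G : SimpleGraph V) (h x : V) : Prop := N2 G h x ∧ ∃ z, Far G h z ∧ G.Adj x z

theorem inner_far {h i z : V} (h1 : ¬ Far G h i) (h2 : ¬ St G h i) (hz : Far G h z) :
    ¬ G.Adj i z := by
  intro e
  rcases quad (G := G) h i with f | f | f | f
  · exact hz.2.1 (f ▸ e)
  · exact hz.2.2 i f e.symm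
  · exact h2 ⟨f, z, hz, e⟩
  · exact h1 f

theorem St.nb (hcl : ClawFree G) {h x i i' : V} (hx : St G h x) (a1 : ¬ Far G h i)
    (a2 : ¬ St G h i) (b1 : ¬ Far G h i') (b2 : ¬ St G h i') (e : G.Adj x i) (e' : G.Adj x i')
    (hne : i ≠ i') : G.Adj i i' := by
  obtain ⟨_, z, hz, hxz⟩ := hx
  have c := hcl.cl x i i' z
  have := inner_far a1 a2 hz
  have := inner_far b1 b2 hz
  have : i ≠ z := by rintro rfl; exact a1 hz
  have : i' ≠ z := by rintro rfl; exact b1 hz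
  grind (splits := 40) [asym]

theorem rim_inner {h v : V} (e : G.Adj h v) : ¬ Far G h v ∧ ¬ St G h v :=
  ⟨fun f => f.2.1 e, fun f => f.1.2.1 e⟩

section
variable (hcl : ClawFree G) {h v1 v2 v3 v4 v5 : V} (w : Wheel G h v1 v2 v3 v4 v5)
include hcl w

theorem Wheel.joinSt {x x' i : V} (hx : Ty G h v1 v2 v3 v4 v5 x) (hx' : Ty G h v1 v2 v3 v4 v5 x')
    (hs : St G h x) (hi : G.Adj x i) (a1 : ¬ Far G h i) (a2 : ¬ St G h i) (hne : i ≠ x') :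
    G.Adj i x' := by
  obtain ⟨_, z, hz, hxz⟩ := hs
  exact w.joinl hcl hx hx' hz hxz hi (inner_far a1 a2 hz) (by rintro rfl; exact a1 hz) hne

theorem Wheel.cobW (hT2 : ∀ x, ¬ Ty G h v2 v3 v4 v5 v1 x) :
    Cob G {x | x ≠ v1 ∧ ¬ G.Adj v1 x ∧ ¬ Far G h x} := by
  refine ⟨{x | G.Adj h x ∧ x ≠ v1 ∧ ¬ G.Adj v1 x}, {x | N2 G h x ∧ G.Adj x v4}, ?_, ?_, ?_⟩
  · intro x hx y hy hne
    have := hcl.cl h v1 x y
    have := w.h1
    have := hx.1; have := hx.2.1; have := hx.2.2; have := hy.1; have := hy.2.1; have := hy.2.2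
    grind (splits := 40) [asym]
  · intro x hx y hy hne
    exact N2.share hcl hx.1 hy.1 w.h4 hx.2 hy.2 hne
  · rintro x ⟨a, b, c⟩
    rcases quad (G := G) h x with f | f | f | f
    · exact (b (f ▸ w.h1.symm)).elim
    · exact Or.inl ⟨f, a, b⟩
    · exact Or.inr ⟨f, (w.rot.rot.cover hcl f (hT2 x)).resolve_right (fun e => b e.symm)⟩
    · exact (c f).elim

theorem Wheel.stT (hT5 : ∀ x, ¬ Ty G h v5 v1 v2 v3 v4 x) (hT2 : ∀ x, ¬ Ty G h v2 v3 v4 v5 v1 x)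
    {x : V} (hx : St G h x) : (G.Adj x v1 → Ty G h v1 v2 v3 v4 v5 x) ∧
      (¬ G.Adj x v1 → Ty G h v3 v4 v5 v1 v2 x ∨ Ty G h v4 v5 v1 v2 v3 x) := by
  obtain ⟨nx, z, hz, hxz⟩ := hx
  rcases w.types hcl nx hz hxz with e | e | e | e | e
  · exact ⟨fun _ => e, fun f => (f e.2.1).elim⟩
  · exact (hT2 x e).elim
  · exact ⟨fun f => (e.2.2.2.2.1 f).elim, fun _ => Or.inl e⟩
  · exact ⟨fun f => (e.2.2.2.1 f).elim, fun _ => Or.inr e⟩
  · exact (hT5 x e).elim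

theorem Wheel.step34 {x t o : V} (hx : Ty G h v1 v2 v3 v4 v5 x) (ht : Ty G h v2 v3 v4 v5 v1 t)
    (ho : ¬ G.Adj h o) (o1 : ¬ G.Adj o v1) (hot : o ≠ t) (e : G.Adj x o) : G.Adj o t := by
  have s := N2.share hcl hx.1 ht.1 w.h2 hx.2.2.1 ht.2.1
  have c := hcl.cl x v1 o t
  have := ht.1.2.1
  have := w.h1
  unfold Ty at hx ht
  grind (splits := 40) [asym]

theorem div_Aa [Fintype V] (ih : ∀ O : Set V, (∃ w, w ∉ O) → Div G O) {t3 t4 : V}
    (hT5 : ∀ x, ¬ Ty G h v5 v1 v2 v3 v4 x) (hT2 : ∀ x, ¬ Ty G h v2 v3 v4 v5 v1 x)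
    (h3 : Ty G h v3 v4 v5 v1 v2 t3) (h4 : Ty G h v4 v5 v1 v2 v3 t4) : Div G Set.univ := by
  let O : Set V := {x | Far G h x ∨ (St G h x ∧ G.Adj x v1)}
  let W : Set V := {x | x ≠ v1 ∧ ¬ G.Adj v1 x ∧ ¬ Far G h x}
  have o3 : ∀ o ∈ O, ¬ G.Adj h o ∧ ¬ G.Adj o v3 ∧ ¬ G.Adj o v4 ∧ ¬ G.Adj o v5 := by
    rintro o (ho | ho)
    · exact ⟨ho.2.1, ho.2.2 _ w.h3, ho.2.2 _ w.h4, ho.2.2 _ w.h5⟩
    · have := (w.stT hcl hT5 hT2 ho.1).1 ho.2
      exact ⟨this.1.2.1, this.2.2.2.1, this.2.2.2.2.1, this.2.2.2.2.2⟩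
  have hX : ∀ x ∈ W, ∀ o ∈ O, G.Adj x o → Ty G h v3 v4 v5 v1 v2 x ∨ Ty G h v4 v5 v1 v2 v3 x := by
    intro x hx o ho hxo
    have hs : St G h x := by
      by_contra hs
      rcases ho with ho | ho
      · exact inner_far hx.2.2 hs ho hxo
      · exact hx.2.1 (St.nb hcl ho.1 (rim_inner w.h1).1 (rim_inner w.h1).2 hx.2.2 hs ho.2 hxo.symm
          hx.1.symm)
    exact (w.stT hcl hT5 hT2 hs).2 (fun e => hx.2.1 e.symm)
  have w3 := w.rot.rot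
  have w4 := w.rot.rot.rot.flip
  have s34 : ∀ o ∈ O, ∀ x t, Ty G h v3 v4 v5 v1 v2 x → Ty G h v4 v5 v1 v2 v3 t → G.Adj x o →
      G.Adj o t := fun o ho x t hx ht e =>
    w3.step34 hcl hx ht (o3 o ho).1 (o3 o ho).2.1 (by rintro rfl; exact (o3 o ho).2.2.1 ht.2.1) e
  have s43 : ∀ o ∈ O, ∀ x t, Ty G h v4 v5 v1 v2 v3 x → Ty G h v3 v4 v5 v1 v2 t → G.Adj x o →
      G.Adj o t := fun o ho x t hx ht e =>
    w4.step34 hcl hx.flip ht.flip (o3 o ho).1 (o3 o ho).2.2.2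
      (by rintro rfl; exact (o3 o ho).2.2.1 ht.2.2.1) e
  have full : ∀ o ∈ O, (∃ x ∈ W, G.Adj x o) → ∀ t,
      (Ty G h v3 v4 v5 v1 v2 t ∨ Ty G h v4 v5 v1 v2 v3 t) → G.Adj o t := by
    rintro o ho ⟨x, hx, hxo⟩ t ht
    rcases hX x hx o ho hxo with e | e <;> rcases ht with f | f
    · exact s43 o ho t4 t h4 f (s34 o ho x t4 e h4 hxo).symm
    · exact s34 o ho x t e f hxo
    · exact s43 o ho x t e f hxo
    · exact s34 o ho t3 t h3 f (s43 o ho x t3 e h3 hxo).symm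
  refine div_red ih v1 W O ({x | Ty G h v3 v4 v5 v1 v2 x ∨ Ty G h v4 v5 v1 v2 v3 x} ∪
    {o | o ∈ O ∧ ∃ x ∈ W, G.Adj x o}) (fun e => (o3 _ e).1 w.h1) (fun e => e.1 rfl)
    (fun x hx => hx.2.1) (w.cobW hcl hT2) ?_ ?_ ?_ ?_ ?_
  · rintro x (hx | hx) y (hy | hy) a b hne
    · exact (hx.2.2 _ w.h1 a.symm).elim
    · exact (hx.2.2 _ w.h1 a.symm).elim
    · exact (hy.2.2 _ w.h1 b.symm).elim
    · exact N2.share hcl hx.1.1 hy.1.1 w.h1 hx.2 hy.2 hne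
  · rintro x (hx | hx) y (hy | hy) hne
    · exact N2.share hcl (hx.elim (·.1) (·.1)) (hy.elim (·.1) (·.1)) w.h4
        (hx.elim (·.2.2.1) (·.2.1)) (hy.elim (·.2.2.1) (·.2.1)) hne
    · exact (full y hy.1 hy.2 x hx).symm
    · exact full x hx.1 hx.2 y hy
    · have a := full x hx.1 hx.2 t3 (Or.inl h3)
      have b := full y hy.1 hy.2 t3 (Or.inl h3)
      have c := hcl.cl t3 v3 x y
      have := o3 x hx.1
      have := o3 y hy.1
      have := w.h3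
      have := h3.2.1
      clear full s34 s43 hX o3
      grind (splits := 40) [asym]
  · rintro x hx (e | e)
    · exact hx.2.2 e
    · exact hx.2.1 e.2.symm
  · intro x hx o ho hxo
    exact ⟨Or.inl (hX x hx o ho hxo), Or.inr ⟨ho, x, hx, hxo⟩⟩
  · intro K hK hmax hv hKW y hy
    have cl : ∀ x ∈ K, G.Adj v1 x ∨ Far G h x := by
      intro x hx
      by_contra e
      push Not at e
      exact hKW x hx ⟨by rintro rfl; exact hv hx, e.1, e.2⟩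
    obtain ⟨z, hz, hvz⟩ := hmax v1 hv
    have fz := (cl z hz).resolve_left hvz
    by_cases fy : Far G h y
    · exact Or.inl fy
    · refine Or.inr ⟨?_, ((cl y hy).resolve_right fy).symm⟩
      by_contra hs
      exact inner_far fy hs fz (hK y hy z hz (by rintro rfl; exact fy fz))

theorem div_Ac [Fintype V] (ih : ∀ O : Set V, (∃ w, w ∉ O) → Div G O)
    (hT5 : ∀ x, ¬ Ty G h v5 v1 v2 v3 v4 x) (hT2 : ∀ x, ¬ Ty G h v2 v3 v4 v5 v1 x)
    (h34 : (∀ x, ¬ Ty G h v3 v4 v5 v1 v2 x) ∨ (∀ x, ¬ Ty G h v4 v5 v1 v2 v3 x)) :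
    Div G Set.univ := by
  have j1 : ∀ x x' i, St G h x → G.Adj x v1 → St G h x' → G.Adj x' v1 → G.Adj x i →
      ¬ Far G h i → ¬ St G h i → G.Adj i x' := fun x x' i a b c d e f g =>
    w.joinSt hcl ((w.stT hcl hT5 hT2 a).1 b) ((w.stT hcl hT5 hT2 c).1 d) a e f g
      (by rintro rfl; exact g c)
  have jY : ∀ x x' i, St G h x → ¬ G.Adj x v1 → St G h x' → ¬ G.Adj x' v1 → G.Adj x i →
      ¬ Far G h i → ¬ St G h i → G.Adj i x' := by
    intro x x' i a b c d e f g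
    have hne : i ≠ x' := by rintro rfl; exact g c
    rcases h34 with q | q
    · exact w.rot.rot.rot.joinSt hcl (((w.stT hcl hT5 hT2 a).2 b).resolve_left (q x))
        (((w.stT hcl hT5 hT2 c).2 d).resolve_left (q x')) a e f g hne
    · exact w.rot.rot.joinSt hcl (((w.stT hcl hT5 hT2 a).2 b).resolve_right (q x))
        (((w.stT hcl hT5 hT2 c).2 d).resolve_right (q x')) a e f g hne
  have y4 : ∀ y, St G h y → ¬ G.Adj y v1 → G.Adj y v4 := fun y a b =>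
    ((w.stT hcl hT5 hT2 a).2 b).elim (·.2.2.1) (·.2.1)
  let X : Set V := {i | ¬ Far G h i ∧ ¬ St G h i ∧ (∃ x, St G h x ∧ G.Adj x v1 ∧ G.Adj x i) ∧
    ∃ y, St G h y ∧ ¬ G.Adj y v1 ∧ G.Adj y i}
  let O : Set V := {x | Far G h x ∨ St G h x ∨ x ∈ X}
  let W : Set V := {x | x ≠ v1 ∧ ¬ G.Adj v1 x ∧ ¬ Far G h x ∧ ¬ St G h x}
  let C : Set V := {y | St G h y ∧ ¬ G.Adj y v1} ∪
    {i | ¬ Far G h i ∧ ¬ St G h i ∧ ∃ y, St G h y ∧ ¬ G.Adj y v1 ∧ G.Adj y i}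
  have r1 := rim_inner w.h1
  have r4 := rim_inner w.h4
  have hXv : ∀ i ∈ X, G.Adj v1 i := by
    rintro i ⟨a, b, ⟨x, c, d, e⟩, y, f, g, k⟩
    exact St.nb hcl c r1.1 r1.2 a b d e (by rintro rfl; exact g k)
  have hC : Clq G C := by
    rintro x (hx | ⟨a, b, y, c, d, e⟩) x' (hx' | ⟨a', b', y', c', d', e'⟩) hne
    · exact N2.share hcl hx.1.1 hx'.1.1 w.h4 (y4 _ hx.1 hx.2) (y4 _ hx'.1 hx'.2) hne
    · exact (jY y' x x' c' d' hx.1 hx.2 e' a' b').symm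
    · exact jY y x' x c d hx'.1 hx'.2 e a b
    · exact St.nb hcl c a b a' b' e (jY y' y x' c' d' c d e' a' b').symm hne
  obtain ⟨Q1, Q2, q1, q2, hQ⟩ := w.cobW hcl hT2
  refine div_red ih v1 W O C ?_ (fun e => e.1 rfl) (fun x hx => hx.2.1)
    ⟨Q1, Q2, q1, q2, fun x hx => hQ ⟨hx.1, hx.2.1, hx.2.2.1⟩⟩ ?_ hC ?_ ?_ ?_
  · rintro (e | e | e)
    · exact r1.1 e
    · exact r1.2 e
    · exact G.irrefl (hXv _ e)
  · rintro x (hx | hx | hx) y (hy | hy | hy) a b hne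
    · exact (hx.2.2 _ w.h1 a.symm).elim
    · exact (hx.2.2 _ w.h1 a.symm).elim
    · exact (hx.2.2 _ w.h1 a.symm).elim
    · exact (hy.2.2 _ w.h1 b.symm).elim
    · exact N2.share hcl hx.1 hy.1 w.h1 a.symm b.symm hne
    · obtain ⟨a1, a2, ⟨u, a3, a4, a5⟩, -⟩ := hy
      exact (j1 u x y a3 a4 hx a.symm a5 a1 a2).symm
    · exact (hy.2.2 _ w.h1 b.symm).elim
    · obtain ⟨a1, a2, ⟨u, a3, a4, a5⟩, -⟩ := hx
      exact j1 u y x a3 a4 hy b.symm a5 a1 a2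
    · obtain ⟨a1, a2, ⟨u, a3, a4, a5⟩, -⟩ := hx
      obtain ⟨b1, b2, ⟨u', b3, b4, b5⟩, -⟩ := hy
      exact St.nb hcl a3 a1 a2 b1 b2 a5 (j1 u' u y b3 b4 a3 a4 b5 b1 b2).symm hne
  · rintro x hx (e | e | e)
    · exact hx.2.2.1 e
    · exact hx.2.2.2 e
    · exact hx.2.1 (hXv x e)
  · rintro x hx o (ho | ho | ho) hxo
    · exact (inner_far hx.2.2.1 hx.2.2.2 ho hxo).elim
    · by_cases e : G.Adj o v1
      · exact (hx.2.1 (St.nb hcl ho r1.1 r1.2 hx.2.2.1 hx.2.2.2 e hxo.symm hx.1.symm)).elim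
      · exact ⟨Or.inr ⟨hx.2.2.1, hx.2.2.2, o, ho, e, hxo.symm⟩, Or.inl ⟨ho, e⟩⟩
    · have a0 := hXv o ho
      obtain ⟨a1, a2, -, y, b1, b2, b3⟩ := ho
      refine ⟨Or.inr ⟨hx.2.2.1, hx.2.2.2, y, b1, b2, ?_⟩, Or.inr ⟨a1, a2, y, b1, b2, b3⟩⟩
      have c := hcl.cl o v1 x y
      have : x ≠ y := by rintro rfl; exact hx.2.2.2 b1
      have : v1 ≠ y := by rintro rfl; exact r1.2 b1
      have := hx.1
      have := hx.2.1
      clear j1 jY y4 hXv hC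
      grind (splits := 40) [asym]
  · intro K hK hmax hv hKW i hi
    by_contra hiO
    have i1 : ¬ Far G h i := fun e => hiO (Or.inl e)
    have i2 : ¬ St G h i := fun e => hiO (Or.inr (Or.inl e))
    have nF : ∀ x ∈ K, ¬ Far G h x := fun x hx e =>
      inner_far i1 i2 e (hK i hi x hx (by rintro rfl; exact i1 e))
    obtain ⟨o, ho, hvo⟩ := hmax v1 hv
    have so : St G h o := by
      by_contra e
      exact hKW o ho ⟨by rintro rfl; exact hv ho, hvo, nF o ho, e⟩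
    have hoi : G.Adj o i := hK o ho i hi (by rintro rfl; exact i2 so)
    have hKC : ∀ x ∈ K, x ∈ C := by
      intro x hx
      by_cases e : St G h x
      · refine Or.inl ⟨e, fun f => hiO (Or.inr (Or.inr ⟨i1, i2, ⟨x, e, f, ?_⟩,
          o, so, fun g => hvo g.symm, hoi⟩))⟩
        exact hK x hx i hi (by rintro rfl; exact i2 e)
      · exact Or.inr ⟨nF x hx, e, o, so, fun g => hvo g.symm,
          hK o ho x hx (by rintro rfl; exact e so)⟩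
    have h4W : v4 ∈ W := ⟨by rintro rfl; exact w.n24 w.a12.symm, fun e => w.n41 e.symm, r4.1, r4.2⟩
    have h4K : v4 ∉ K := fun e => hKW v4 e h4W
    obtain ⟨x, hx, n4⟩ := hmax v4 h4K
    exact n4 (hC v4 (Or.inr ⟨r4.1, r4.2, o, so, fun g => hvo g.symm,
      y4 o so (fun g => hvo g.symm)⟩) x (hKC x hx) (by rintro rfl; exact h4K hx))

theorem div_A [Fintype V] (ih : ∀ O : Set V, (∃ w, w ∉ O) → Div G O)
    (hT5 : ¬ ∃ x, Ty G h v5 v1 v2 v3 v4 x) (hT2 : ¬ ∃ x, Ty G h v2 v3 v4 v5 v1 x) :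
    Div G Set.univ := by
  push Not at hT5 hT2
  by_cases h3 : ∃ x, Ty G h v3 v4 v5 v1 v2 x
  · by_cases h4 : ∃ x, Ty G h v4 v5 v1 v2 v3 x
    · obtain ⟨t3, h3⟩ := h3
      obtain ⟨t4, h4⟩ := h4
      exact div_Aa hcl w ih hT5 hT2 h3 h4
    · push Not at h4
      exact div_Ac hcl w ih hT5 hT2 (Or.inr h4)
  · push Not at h3
    exact div_Ac hcl w ih hT5 hT2 (Or.inl h3)

theorem div_B [Fintype V] (ih : ∀ O : Set V, (∃ w, w ∉ O) → Div G O)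
    (h1 : ∃ x, Ty G h v1 v2 v3 v4 v5 x) (h2 : ∃ x, Ty G h v2 v3 v4 v5 v1 x)
    (h3 : ∃ x, Ty G h v3 v4 v5 v1 v2 x) : Div G Set.univ := by
  obtain ⟨t1, h1⟩ := h1
  obtain ⟨t2, h2⟩ := h2
  obtain ⟨t3, h3⟩ := h3
  by_cases hc : Cob G {x | N2 G h x}
  · exact div_B2 hcl w ih h1 h2 h3 hc
  have h5 : ∃ x, Ty G h v5 v1 v2 v3 v4 x := by
    by_contra e
    push Not at e
    exact hc (w.cob_of_empty hcl e)
  have h4 : ∃ x, Ty G h v4 v5 v1 v2 v3 x := by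
    by_contra e
    push Not at e
    exact hc (w.rot.rot.rot.rot.cob_of_empty hcl e)
  obtain ⟨t4, h4⟩ := h4
  obtain ⟨t5, h5⟩ := h5
  exact div_ico hcl w ih h1 h2 h3 h4 h5
    (fun x y a b e => hc (w.cob_of_edge hcl a h2 b h4 h5 e))
    (fun x y a b e => hc (w.rot.cob_of_edge hcl a h3 b h5 h1 e))
    (fun x y a b e => hc (w.rot.rot.cob_of_edge hcl a h4 b h1 h2 e))
    (fun x y a b e => hc (w.rot.rot.rot.cob_of_edge hcl a h5 b h2 h3 e))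
    (fun x y a b e => hc (w.rot.rot.rot.rot.cob_of_edge hcl a h1 b h3 h4 e))

theorem div_wheel [Fintype V] (ih : ∀ O : Set V, (∃ w, w ∉ O) → Div G O) : Div G Set.univ := by
  have A1 := div_A hcl w ih
  have A2 := div_A hcl w.rot ih
  have A3 := div_A hcl w.rot.rot ih
  have A4 := div_A hcl w.rot.rot.rot ih
  have A5 := div_A hcl w.rot.rot.rot.rot ih
  have B1 := div_B hcl w ih
  have B2 := div_B hcl w.rot ih
  have B3 := div_B hcl w.rot.rot ih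
  have B4 := div_B hcl w.rot.rot.rot ih
  have B5 := div_B hcl w.rot.rot.rot.rot ih
  by_cases e1 : ∃ x, Ty G h v1 v2 v3 v4 v5 x <;> by_cases e2 : ∃ x, Ty G h v2 v3 v4 v5 v1 x <;>
    by_cases e3 : ∃ x, Ty G h v3 v4 v5 v1 v2 x <;> by_cases e4 : ∃ x, Ty G h v4 v5 v1 v2 v3 x <;>
    by_cases e5 : ∃ x, Ty G h v5 v1 v2 v3 v4 x
  all_goals first
    | exact A1 e5 e2 | exact A2 e1 e3 | exact A3 e2 e4 | exact A4 e3 e5 | exact A5 e4 e1
    | exact B1 e1 e2 e3 | exact B2 e2 e3 e4 | exact B3 e3 e4 e5 | exact B4 e4 e5 e1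
    | exact B5 e5 e1 e2

end

theorem div_clawfree [Fintype V] (ih : ∀ O : Set V, (∃ w, w ∉ O) → Div G O) (hcl : ClawFree G) :
    Div G Set.univ := by
  by_cases hc : ∀ h, Cob G {y | G.Adj h y}
  · choose Q1 Q2 q1 q2 hQ using hc
    refine div_quasi (χ := fun v x => decide (x ∈ Q1 v)) ?_
    intro v x y hx hy hne e
    by_cases a : x ∈ Q1 v
    · have b : y ∈ Q1 v := by simpa [a] using e
      exact q1 v x a y b hne
    · have b : y ∉ Q1 v := by simpa [a] using e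
      exact q2 v x ((hQ v hx).resolve_left a) y ((hQ v hy).resolve_left b) hne
  · push Not at hc
    obtain ⟨h, hc⟩ := hc
    by_cases hw : ∀ v1 v2 v3 v4 v5, ¬ Wheel G h v1 v2 v3 v4 v5
    · exact div_noC5 ih hcl hw hc
    · push Not at hw
      obtain ⟨v1, v2, v3, v4, v5, w⟩ := hw
      exact div_wheel hcl w ih

end Pool.Agent.P.MP_08bb88_co
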