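import Pool.Agent.P.MP_08bb88_co.ClawFree

set_option autoImplicit false

namespace Pool.Agent.P.MP_08bb88_co

open Classical

variable {V : Type} {G : SimpleGraph V}

def FF (G : SimpleGraph V) : Prop :=
  ∀ c x y p q, ¬ G.Adj c x ∨ ¬ G.Adj c y ∨ ¬ G.Adj c p ∨ ¬ G.Adj p q ∨ G.Adj x y ∨ G.Adj x p ∨
    G.Adj y p ∨ G.Adj c q ∨ G.Adj x q ∨ G.Adj y q ∨ x = y ∨ x = p ∨ y = p ∨ q = c

def Conn (G : SimpleGraph V) (X : Set V) : Prop :=
  ∀ P : V → Prop, ∀ a ∈ X, ∀ b ∈ X, P a → ¬ P b → ∃ a ∈ X, ∃ b ∈ X, P a ∧ ¬ P b ∧ G.Adj a b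

def CoConn (G : SimpleGraph V) (X : Set V) : Prop :=
  ∀ P : V → Prop, ∀ a ∈ X, ∀ b ∈ X, P a → ¬ P b → ∃ a ∈ X, ∃ b ∈ X, P a ∧ ¬ P b ∧ ¬ G.Adj a b

theorem exists_maxset [Fintype V] (Φ : Set V → Prop) {X0 : Set V} (h : Φ X0) :
    ∃ X, Φ X ∧ ∀ w, w ∉ X → ¬ Φ (insert w X) := by
  have : Nonempty {X : Set V // Φ X} := ⟨⟨X0, h⟩⟩
  obtain ⟨X, hX⟩ := Finite.exists_max (fun X : {X : Set V // Φ X} => X.1.ncard)
  refine ⟨X.1, X.2, fun w hw e => ?_⟩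
  have := hX ⟨_, e⟩
  simp only [Set.ncard_insert_of_notMem hw (Set.toFinite _)] at this
  omega

theorem CoConn.insert {Z : Set V} (h : CoConn G Z) {w z : V} (hz : z ∈ Z) (hn : ¬ G.Adj w z) :
    CoConn G (insert w Z) := by
  intro P a ha b hb pa pb
  by_cases pz : P z
  · rcases hb with rfl | hb
    · exact ⟨z, Or.inr hz, b, Or.inl rfl, pz, pb, fun e => hn e.symm⟩
    · obtain ⟨x, hx, y, hy, e⟩ := h P z hz b hb pz pb
      exact ⟨x, Or.inr hx, y, Or.inr hy, e⟩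
  · rcases ha with rfl | ha
    · exact ⟨a, Or.inl rfl, z, Or.inr hz, pa, pz, hn⟩
    · obtain ⟨x, hx, y, hy, e⟩ := h P a ha z hz pa pz
      exact ⟨x, Or.inr hx, y, Or.inr hy, e⟩

theorem Conn.insert {Z : Set V} (h : Conn G Z) {w z : V} (hz : z ∈ Z) (hn : G.Adj w z) :
    Conn G (insert w Z) := by
  intro P a ha b hb pa pb
  by_cases pz : P z
  · rcases hb with rfl | hb
    · exact ⟨z, Or.inr hz, b, Or.inl rfl, pz, pb, hn.symm⟩
    · obtain ⟨x, hx, y, hy, e⟩ := h P z hz b hb pz pb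
      exact ⟨x, Or.inr hx, y, Or.inr hy, e⟩
  · rcases ha with rfl | ha
    · exact ⟨a, Or.inl rfl, z, Or.inr hz, pa, pz, hn⟩
    · obtain ⟨x, hx, y, hy, e⟩ := h P a ha z hz pa pz
      exact ⟨x, Or.inr hx, y, Or.inr hy, e⟩

theorem coconn_pair {p q : V} (hn : ¬ G.Adj p q) : CoConn G {p, q} := by
  have : CoConn G {q} := by
    intro P a ha b hb pa pb
    rw [Set.mem_singleton_iff.1 ha] at pa
    rw [Set.mem_singleton_iff.1 hb] at pb
    exact (pb pa).elim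
  exact this.insert rfl hn

theorem perf_cograph [Fintype V] {M : Set V}
    (h : ∀ X ⊆ M, Conn G X → CoConn G X → ∀ a ∈ X, ∀ b ∈ X, a = b) : Perf G M := by
  have key : ∀ n, ∀ T ⊆ M, T.ncard ≤ n → Perf G T := by
    intro n
    induction n with
    | zero =>
      intro T _ hT
      have : T = ∅ := (Set.ncard_eq_zero (Set.toFinite T)).1 (by omega)
      subst this
      exact Clq.perf (fun x hx => hx.elim)
    | succ n ih =>
      intro T hTM hT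
      have part : ∀ P : V → Prop, ∀ a ∈ T, ∀ b ∈ T, P a → ¬ P b →
          Perf G {x | x ∈ T ∧ P x} ∧ Perf G {x | x ∈ T ∧ ¬ P x} := by
        intro P a ha b hb pa pb
        have l1 : {x | x ∈ T ∧ P x}.ncard < T.ncard :=
          Set.ncard_lt_ncard ⟨fun x hx => hx.1, fun e => pb (e hb).2⟩ (Set.toFinite T)
        have l2 : {x | x ∈ T ∧ ¬ P x}.ncard < T.ncard :=
          Set.ncard_lt_ncard ⟨fun x hx => hx.1, fun e => (e ha).2 pa⟩ (Set.toFinite T)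
        exact ⟨ih _ (fun x hx => hTM hx.1) (by omega), ih _ (fun x hx => hTM hx.1) (by omega)⟩
      have cov : ∀ P : V → Prop, T ⊆ {x | x ∈ T ∧ P x} ∪ {x | x ∈ T ∧ ¬ P x} := by
        intro P x hx
        by_cases e : P x
        · exact Or.inl ⟨hx, e⟩
        · exact Or.inr ⟨hx, e⟩
      by_cases c1 : Conn G T
      · by_cases c2 : CoConn G T
        · exact Clq.perf (fun x hx y hy hne => (hne (h T hTM c1 c2 x hx y hy)).elim)
        · unfold CoConn at c2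
          push Not at c2
          obtain ⟨P, a, ha, b, hb, pa, pb, e⟩ := c2
          obtain ⟨p1, p2⟩ := part P a ha b hb pa pb
          exact (p1.join p2 (fun x hx y hy => e x hx.1 y hy.1 hx.2 hy.2)).mono (cov P)
      · unfold Conn at c1
        push Not at c1
        obtain ⟨P, a, ha, b, hb, pa, pb, e⟩ := c1
        obtain ⟨p1, p2⟩ := part P a ha b hb pa pb
        exact (p1.glue p2 (fun x hx => (hx.2.2 hx.1.2).elim)
          (fun x hx y hy f => (e x hx.1 y hy.1 hx.2 hy.2 f).elim)).mono (cov P)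
  exact key _ M le_rfl le_rfl

def Prm (G : SimpleGraph V) : Prop := ∀ Y : Set V, Modu G Y → (∃ w, w ∉ Y) → Clq G Y

theorem Prm.mixed (hP : Prm G) {Z : Set V} (hZ : CoConn G Z) {a b u : V} (ha : a ∈ Z) (hb : b ∈ Z)
    (hne : a ≠ b) (hn : ¬ G.Adj a b) (hu : u ∉ Z) :
    ∃ w, w ∉ Z ∧ ∃ p ∈ Z, ∃ q ∈ Z, G.Adj w p ∧ ¬ G.Adj w q ∧ ¬ G.Adj p q := by
  have : ¬ Modu G Z := fun e => hn (hP Z e ⟨u, hu⟩ a ha b hb hne)
  unfold Modu at this
  push Not at this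
  obtain ⟨w, hw, ⟨q, hq, e1⟩, p, hp, e2⟩ := this
  exact ⟨w, hw, hZ (fun x => G.Adj w x) p hp q hq e2 e1⟩

structure Node (G : SimpleGraph V) (v : V) (X : Set V) : Prop where
  nv : ∀ x ∈ X, x ≠ v ∧ ¬ G.Adj v x
  con : Conn G X
  coc : CoConn G X
  two : ∃ p ∈ X, ∃ q ∈ X, p ≠ q ∧ ¬ G.Adj p q
  md : ∀ w, w ∉ X → w ≠ v → ¬ G.Adj v w → (∀ x ∈ X, G.Adj w x) ∨ (∀ x ∈ X, ¬ G.Adj w x)

theorem exists_node [Fintype V] (v : V) :
    Perf G {x | x ≠ v ∧ ¬ G.Adj v x} ∨ ∃ X, Node G v X := by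
  by_cases h : ∀ X ⊆ {x | x ≠ v ∧ ¬ G.Adj v x}, Conn G X → CoConn G X → ∀ a ∈ X, ∀ b ∈ X, a = b
  · exact Or.inl (perf_cograph h)
  right
  push Not at h
  obtain ⟨X0, h1, h2, h3, a, ha, b, hb, hab⟩ := h
  obtain ⟨X, ⟨k0, k1, k2, k3⟩, hmax⟩ := exists_maxset
    (fun X => X0 ⊆ X ∧ X ⊆ {x | x ≠ v ∧ ¬ G.Adj v x} ∧ Conn G X ∧ CoConn G X) ⟨le_rfl, h1, h2, h3⟩
  refine ⟨X, fun x hx => k1 hx, k2, k3, ?_, ?_⟩
  · obtain ⟨p, hp, q, hq, e1, e2, e3⟩ := k3 (fun x => x = a) a (k0 ha) b (k0 hb) rfl hab.symm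
    exact ⟨p, hp, q, hq, by rw [e1]; exact Ne.symm e2, e3⟩
  · intro w hw hwv hvw
    by_contra hc
    push Not at hc
    obtain ⟨⟨q, hq, e1⟩, p, hp, e2⟩ := hc
    refine hmax w hw ⟨k0.trans (Set.subset_insert _ _), ?_, k2.insert hp e2, k3.insert hq e1⟩
    rintro x (rfl | hx)
    · exact ⟨hwv, hvw⟩
    · exact k1 hx

theorem Node.L1 [Fintype V] (hf : FF G) (hP : Prm G) {v : V} {X : Set V} (N : Node G v X)
    {m d p0 q0 : V} (hm : G.Adj v m) (hd : d ∈ X) (hmd : ¬ G.Adj m d) (hp0 : p0 ∈ X)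
    (hq0 : q0 ∈ X) (e1 : G.Adj m p0) (e2 : G.Adj m q0) (hne : p0 ≠ q0) : G.Adj p0 q0 := by
  by_contra hn
  obtain ⟨Z, ⟨k0, k1, k2⟩, hmax⟩ := exists_maxset
    (fun Z => {p0, q0} ⊆ Z ∧ (∀ x ∈ Z, x ∈ X ∧ G.Adj m x) ∧ CoConn G Z)
    (X0 := {p0, q0}) ⟨le_rfl, by rintro x (rfl | rfl); exacts [⟨hp0, e1⟩, ⟨hq0, e2⟩],
      coconn_pair hn⟩
  have p0Z : p0 ∈ Z := k0 (Or.inl rfl)
  have q0Z : q0 ∈ Z := k0 (Or.inr rfl)
  have hdZ : d ∉ Z := fun e => hmd (k1 d e).2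
  have md : ∀ w, w ∉ Z → ¬ G.Adj v w → (∀ x ∈ Z, G.Adj w x) ∨ (∀ x ∈ Z, ¬ G.Adj w x) := by
    intro w hw hvw
    by_cases e : w = v
    · exact Or.inr (fun x hx => e ▸ (N.nv x (k1 x hx).1).2)
    by_cases hX : w ∈ X
    · by_cases hmw : G.Adj m w
      · left
        intro z hz
        by_contra f
        refine hmax w hw ⟨k0.trans (Set.subset_insert _ _), ?_, k2.insert hz f⟩
        rintro x (rfl | hx)
        · exact ⟨hX, hmw⟩
        · exact k1 x hx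
      · by_contra hc
        push Not at hc
        obtain ⟨⟨q, hq, f1⟩, p, hp, f2⟩ := hc
        obtain ⟨p, hp, q, hq, g1, g2, g3⟩ := k2 (fun x => G.Adj w x) p hp q hq f2 f1
        have c := hf m v q p w
        have := k1 p hp; have := k1 q hq
        have := N.nv p (k1 p hp).1; have := N.nv q (k1 q hq).1
        grind (splits := 40) [asym]
    · exact (N.md w hX e hvw).imp (fun f x hx => f x (k1 x hx).1) (fun f x hx => f x (k1 x hx).1)
  obtain ⟨m', hm'Z, p, hp, q, hq, f1, f2, f3⟩ := hP.mixed k2 p0Z q0Z hne hn hdZ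
  have hm' : G.Adj v m' := by
    by_contra e
    rcases md m' hm'Z e with g | g
    · exact f2 (g q hq)
    · exact g p hp f1
  have mdX : ∀ w ∈ X, w ∉ Z → (G.Adj w p ∧ G.Adj w q) ∨ (∀ x ∈ Z, ¬ G.Adj w x) := fun w hw hwZ =>
    (md w hwZ (N.nv w hw).2).imp (fun f => ⟨f p hp, f q hq⟩) id
  have pX := (k1 p hp).1
  have qX := (k1 q hq).1
  have np := N.nv p pX
  have nq := N.nv q qX
  have hpq : p ≠ q := by rintro rfl; exact f2 f1
  -- T: neighbours of Z; S: non-neighbours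
  have s1 : ∀ s ∈ X, s ∉ Z → ¬ G.Adj s p → ∃ t ∈ X, t ∉ Z ∧ G.Adj t p ∧ G.Adj t s := by
    intro s hs hsZ hsp
    by_contra hc
    obtain ⟨a, ha, b, hb, ⟨a1, a2, a3⟩, pb, hab⟩ := N.con
      (fun x => x ∉ Z ∧ ¬ G.Adj x p ∧ ¬ ∃ t ∈ X, t ∉ Z ∧ G.Adj t p ∧ G.Adj t x) s hs p pX
      ⟨hsZ, hsp, hc⟩ (fun e => e.1 hp)
    have aZ : ∀ x ∈ Z, ¬ G.Adj a x := (mdX a ha a1).resolve_left (fun e => a2 e.1)
    have bZ : b ∉ Z := fun e => aZ b e hab
    have bp : ¬ G.Adj b p := fun e => a3 ⟨b, hb, bZ, e, hab.symm⟩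
    have : ∃ t ∈ X, t ∉ Z ∧ G.Adj t p ∧ G.Adj t b := by
      by_contra e; exact pb ⟨bZ, bp, e⟩
    obtain ⟨t, ht, tZ, tp, tb⟩ := this
    have tq : G.Adj t q := ((mdX t ht tZ).resolve_right (fun e => e p hp tp)).2
    have bq : ¬ G.Adj b q := (mdX b hb bZ).resolve_left (fun e => bp e.1) q hq
    have ta : ¬ G.Adj t a := fun e => a3 ⟨t, ht, tZ, tp, e⟩
    have aq := aZ q hq
    have c := hf t p q b a
    have : p ≠ b := by rintro rfl; exact bZ hp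
    have : q ≠ b := by rintro rfl; exact bZ hq
    clear md mdX hmax k0 k1 k2 aZ a3 pb hc
    grind (splits := 40) [asym]
  have s2 : ∀ s ∈ X, s ∉ Z → ¬ G.Adj s p → G.Adj m' s := by
    intro s hs sZ sp
    obtain ⟨t, ht, tZ, tp, ts⟩ := s1 s hs sZ sp
    have tq : G.Adj t q := ((mdX t ht tZ).resolve_right (fun e => e p hp tp)).2
    have sq : ¬ G.Adj s q := (mdX s hs sZ).resolve_left (fun e => sp e.1) q hq
    have c1 := hf t q s m' v
    have c2 := hf t q s p m'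
    have : p ≠ s := by rintro rfl; exact sZ hp
    have : q ≠ s := by rintro rfl; exact sZ hq
    have := N.nv s hs
    have := N.nv t ht
    clear md mdX hmax k0 k1 k2 s1
    grind (splits := 40) [asym]
  have s3 : ∀ t ∈ X, t ∉ Z → G.Adj t p → ∀ s ∈ X, s ∉ Z → ¬ G.Adj s p → G.Adj t s := by
    intro t ht tZ tp s hs sZ sp
    have tq : G.Adj t q := ((mdX t ht tZ).resolve_right (fun e => e p hp tp)).2
    have sq : ¬ G.Adj s q := (mdX s hs sZ).resolve_left (fun e => sp e.1) q hq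
    have ms := s2 s hs sZ sp
    have c1 := hf m' v s t q
    have c2 := hf m' v s p t
    have : p ≠ s := by rintro rfl; exact sZ hp
    have : q ≠ s := by rintro rfl; exact sZ hq
    have := N.nv s hs
    have := N.nv t ht
    clear md mdX hmax k0 k1 k2 s1 s2
    grind (splits := 40) [asym]
  obtain ⟨a, ha, b, hb, aZ, bZ, hab⟩ := N.con (fun x => x ∈ Z) p pX d hd hp hdZ
  have bp : G.Adj b p := ((mdX b hb bZ).resolve_right (fun e => e a aZ hab.symm)).1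
  obtain ⟨t, ht, s, hs, ⟨tZ, tp⟩, ps, hts⟩ := N.coc (fun x => x ∉ Z ∧ G.Adj x p) b hb p pX
    ⟨bZ, bp⟩ (fun e => e.1 hp)
  by_cases sZ : s ∈ Z
  · rcases md t tZ (N.nv t ht).2 with g | g
    · exact hts (g s sZ)
    · exact g p hp tp
  · exact hts (s3 t ht tZ tp s hs sZ (fun e => ps ⟨sZ, e⟩))

end Pool.Agent.P.MP_08bb88_co
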