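import Pool.Agent.P.MP_08bb88_co.Conn

set_option autoImplicit false

namespace Pool.Agent.P.MP_08bb88_co

open Classical

variable {V : Type} {G : SimpleGraph V}

theorem Node.exists_mixed (hP : Prm G) {v : V} {X : Set V} (N : Node G v X) :
    ∃ m, G.Adj v m ∧ (∃ q ∈ X, ∃ p ∈ X, G.Adj m q ∧ ¬ G.Adj m p ∧ ¬ G.Adj q p) := by
  obtain ⟨a, ha, b, hb, hab, hn⟩ := N.two
  obtain ⟨w, hw, p, hp, q, hq, e1, e2, e3⟩ := hP.mixed N.coc ha hb hab hn
    (u := v) (fun e => (N.nv v e).1 rfl)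
  refine ⟨w, ?_, p, hp, q, hq, e1, e2, e3⟩
  by_contra e
  rcases N.md w hw (by rintro rfl; exact (N.nv p hp).2 e1) e with f | f
  · exact e2 (f q hq)
  · exact f p hp e1

/-- the twin case of the first structure lemma -/
theorem Node.twins [Fintype V] (hf : FF G) (hP : Prm G) {v : V} {X : Set V} (N : Node G v X)
    (CL : ∀ m, G.Adj v m → ∀ p ∈ X, ∀ q ∈ X, G.Adj m p → G.Adj m q → p ≠ q → G.Adj p q)
    (S : V → Prop) {x y p1 p2 r1 r2 : V} (hx : G.Adj v x) (hy : G.Adj v y) (hxy : x ≠ y)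
    (nxy : ¬ G.Adj x y) (ex : ∀ p ∈ X, G.Adj x p ↔ S p) (ey : ∀ p ∈ X, G.Adj y p ↔ S p)
    (hp1 : p1 ∈ X) (hp2 : p2 ∈ X) (hr1 : r1 ∈ X) (hr2 : r2 ∈ X) (s1 : S p1) (s2 : S p2)
    (t1 : ¬ S r1) (t2 : ¬ S r2) (a1 : G.Adj p1 r1) (a2 : G.Adj p2 r2) (n : ¬ G.Adj r1 r2)
    (hne : r1 ≠ r2) : False := by
  obtain ⟨Z, ⟨k0, k1, k2⟩, hmax⟩ := exists_maxset
    (fun Z => {x, y} ⊆ Z ∧ (∀ u ∈ Z, G.Adj v u ∧ ∀ p ∈ X, G.Adj u p ↔ S p) ∧ CoConn G Z)
    (X0 := {x, y}) ⟨le_rfl, by rintro u (rfl | rfl); exacts [⟨hx, ex⟩, ⟨hy, ey⟩],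
      coconn_pair nxy⟩
  obtain ⟨w, hwZ, x', hx', y', hy', f1, f2, f3⟩ := hP.mixed k2 (k0 (Or.inl rfl)) (k0 (Or.inr rfl))
    hxy nxy (u := v) (fun e => G.irrefl (k1 v e).1)
  obtain ⟨vx, ex'⟩ := k1 x' hx'
  obtain ⟨vy, ey'⟩ := k1 y' hy'
  have notY : ¬ (G.Adj v w ∧ ∀ p ∈ X, G.Adj w p ↔ S p) := by
    intro e
    refine hmax w hwZ ⟨k0.trans (Set.subset_insert _ _), ?_, k2.insert hy' f2⟩
    rintro u (rfl | hu)
    · exact e
    · exact k1 u hu
  have wX : w ∉ X := fun e => f2 ((ey' w e).2 ((ex' w e).1 f1.symm)).symm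
  have wv : w ≠ v := by rintro rfl; exact f2 vy
  have x1 := (ex' p1 hp1).2 s1
  have x2 := (ex' p2 hp2).2 s2
  have y1 := (ey' p1 hp1).2 s1
  have y2 := (ey' p2 hp2).2 s2
  have x3 := fun e => t1 ((ex' r1 hr1).1 e)
  have x4 := fun e => t2 ((ex' r2 hr2).1 e)
  have y3 := fun e => t1 ((ey' r1 hr1).1 e)
  have y4 := fun e => t2 ((ey' r2 hr2).1 e)
  have np1 := N.nv p1 hp1
  have np2 := N.nv p2 hp2
  have nr1 := N.nv r1 hr1
  have nr2 := N.nv r2 hr2
  have wp1 : w ≠ p1 := by rintro rfl; exact wX hp1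
  have wp2 : w ≠ p2 := by rintro rfl; exact wX hp2
  have b1 : ¬ G.Adj p1 r2 := by
    have c := hf p1 r1 r2 x' v
    clear hmax k0 k1 k2 CL ex ey ex' ey' notY
    grind (splits := 40) [asym]
  have b2 : ¬ G.Adj p2 r1 := by
    have c := hf p2 r1 r2 x' v
    clear hmax k0 k1 k2 CL ex ey ex' ey' notY
    grind (splits := 40) [asym]
  have g1 : G.Adj w p1 ∨ G.Adj w r1 := by
    have c := hf p1 y' r1 x' w
    clear hmax k0 k1 k2 CL ex ey ex' ey' notY
    grind (splits := 40) [asym]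
  have g2 : G.Adj w p2 ∨ G.Adj w r2 := by
    have c := hf p2 y' r2 x' w
    clear hmax k0 k1 k2 CL ex ey ex' ey' notY
    grind (splits := 40) [asym]
  by_cases hvw : G.Adj v w
  · have d1 := CL w hvw r1 hr1 r2 hr2
    have d2 := CL w hvw r1 hr1 p2 hp2
    have d3 := CL w hvw p1 hp1 r2 hr2
    have w1 : G.Adj w p1 ∧ G.Adj w p2 := by
      clear hmax k0 k1 k2 CL ex ey ex' ey' notY
      grind (splits := 40) [asym]
    apply notY
    refine ⟨hvw, fun p hp => ⟨fun e => ?_, fun e => ?_⟩⟩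
    · by_contra sp
      have d4 := CL w hvw p hp p1 hp1
      have d5 := CL w hvw p hp p2 hp2
      have xp := fun e => sp ((ex' p hp).1 e)
      have yp := fun e => sp ((ey' p hp).1 e)
      have np := N.nv p hp
      have c1 := hf p1 p r1 x' v
      have c2 := hf p2 x' y' p r1
      clear hmax k0 k1 k2 CL ex ey ex' ey' notY
      grind (splits := 40) [asym]
    · by_contra wp
      have xp := (ex' p hp).2 e
      have d4 := CL x' vx p hp p1 hp1
      have d5 := CL x' vx p hp p2 hp2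
      have np := N.nv p hp
      have c1 := hf p1 p r1 w v
      have c2 := hf p2 p r2 w v
      have c3 := hf p r1 r2 x' v
      clear hmax k0 k1 k2 CL ex ey ex' ey' notY
      grind (splits := 40) [asym]
  · rcases N.md w wX wv hvw with e | e
    · have e1 := e r1 hr1
      have e2 := e r2 hr2
      have c := hf w r1 r2 x' v
      clear hmax k0 k1 k2 CL ex ey ex' ey' notY e
      grind (splits := 40) [asym]
    · exact g1.elim (e p1 hp1) (e r1 hr1)

theorem Node.F1 [Fintype V] (hf : FF G) (hP : Prm G) {v : V} {X : Set V} (N : Node G v X)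
    {x y z : V} (hx : G.Adj v x) (hy : G.Adj v y) (hz : G.Adj v z) (nxy : ¬ G.Adj x y)
    (nxz : ¬ G.Adj x z) (nyz : ¬ G.Adj y z) (dxy : x ≠ y) (dxz : x ≠ z) (dyz : y ≠ z) :
    ∃ u, G.Adj v u ∧ ∀ p ∈ X, G.Adj u p := by
  by_contra hU
  push Not at hU
  have CL : ∀ m, G.Adj v m → ∀ p ∈ X, ∀ q ∈ X, G.Adj m p → G.Adj m q → p ≠ q → G.Adj p q := by
    intro m hm p hp q hq e1 e2 hne
    obtain ⟨d, hd, hmd⟩ := hU m hm
    exact N.L1 hf hP hm hd hmd hp hq e1 e2 hne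
  let S : V → Prop := fun p => G.Adj x p ∨ G.Adj y p ∨ G.Adj z p
  have two : ∀ p ∈ X, S p → (G.Adj x p ∧ G.Adj y p) ∨ (G.Adj x p ∧ G.Adj z p) ∨
      (G.Adj y p ∧ G.Adj z p) := by
    intro p hp sp
    have c1 := hf v y z x p
    have c2 := hf v x z y p
    have c3 := hf v x y z p
    have np := N.nv p hp
    simp only [S] at sp
    clear CL hU
    grind (splits := 40) [asym]
  by_cases hS : ∃ p ∈ X, S p
  swap
  · push Not at hS
    obtain ⟨m, hm, q, hq, p, hp, e1, e2, -⟩ := N.exists_mixed hP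
    obtain ⟨q, hq, q', hq', e1, e2, e3⟩ := N.con (fun a => G.Adj m a) q hq p hp e1 e2
    have s1 := hS q hq
    have s2 := hS q' hq'
    have c1 := hf v x y m q
    have c2 := hf v x z m q
    have c3 := hf v y z m q
    have c4 := hf m x y q q'
    have c5 := hf m x z q q'
    have c6 := hf m y z q q'
    have n1 := N.nv q hq
    have n2 := N.nv q' hq'
    simp only [S] at s1 s2
    clear CL hU two hS
    grind (splits := 60) [asym]
  obtain ⟨p0, hp0, sp0⟩ := hS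
  have Sq : ∀ p ∈ X, ∀ q ∈ X, S p → S q → p ≠ q → G.Adj p q := by
    intro p hp q hq sp sq hne
    have a := two p hp sp
    have b := two q hq sq
    have c1 := CL x hx p hp q hq
    have c2 := CL y hy p hp q hq
    have c3 := CL z hz p hp q hq
    clear CL hU two
    grind (splits := 40)
  have prop : ∀ p ∈ X, S p → ∀ r ∈ X, ¬ S r → ∀ r' ∈ X, ¬ S r' → G.Adj p r → G.Adj r r' →
      G.Adj p r' := by
    intro p hp sp r hr sr r' hr' sr' e1 e2
    have a := two p hp sp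
    have c1 := hf p x y r r'
    have c2 := hf p x z r r'
    have c3 := hf p y z r r'
    have n1 := N.nv r hr
    simp only [S] at sp sr sr'
    clear CL hU two Sq
    grind (splits := 60) [asym]
  have nbr : ∀ r ∈ X, ¬ S r → ∃ p ∈ X, S p ∧ G.Adj p r := by
    intro r hr sr
    by_contra hc
    obtain ⟨a, ha, b, hb, ⟨a1, a2⟩, pb, hab⟩ := N.con
      (fun a => ¬ S a ∧ ¬ ∃ p ∈ X, S p ∧ G.Adj p a) r hr p0 hp0 ⟨sr, hc⟩ (fun e => e.1 sp0)
    by_cases sb : S b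
    · exact a2 ⟨b, hb, sb, hab.symm⟩
    · have : ∃ p ∈ X, S p ∧ G.Adj p b := by
        by_contra e; exact pb ⟨sb, e⟩
      obtain ⟨p, hp, sp, e⟩ := this
      exact a2 ⟨p, hp, sp, prop p hp sp b hb sb a ha a1 e hab.symm⟩
  have exr : ∃ r1 ∈ X, ∃ r2 ∈ X, ¬ S r1 ∧ ¬ S r2 ∧ r1 ≠ r2 ∧ ¬ G.Adj r1 r2 := by
    by_contra hc
    push Not at hc
    obtain ⟨a, ha, b, hb, hab, nab⟩ := N.two
    have : ∃ r ∈ X, ¬ S r := by
      by_contra e
      push Not at e
      exact nab (Sq a ha b hb (e a ha) (e b hb) hab)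
    obtain ⟨r, hr, sr⟩ := this
    obtain ⟨p, hp, sp, e⟩ := nbr r hr sr
    obtain ⟨c, hc', d, hd, rfl, e2, e3⟩ := N.coc (fun a => a = p) p hp r hr rfl
      (by rintro rfl; exact sr sp)
    by_cases sd : S d
    · exact e3 (Sq c hp d hd sp sd (Ne.symm e2))
    · by_cases f : r = d
      · exact e3 (f ▸ e)
      · exact e3 (prop c hp sp r hr sr d hd sd e (hc r hr d hd sr sd f))
  obtain ⟨r1, hr1, r2, hr2, t1, t2, hne, n⟩ := exr
  obtain ⟨p1, hp1, s1, a1⟩ := nbr r1 hr1 t1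
  obtain ⟨p2, hp2, s2, a2⟩ := nbr r2 hr2 t2
  have cq : ∀ p ∈ X, S p → ¬ (G.Adj p r1 ∧ G.Adj p r2) := by
    intro p hp sp
    have c1 := hf p r1 r2 x v
    have c2 := hf p r1 r2 y v
    have c3 := hf p r1 r2 z v
    have n0 := N.nv p hp
    have n1 := N.nv r1 hr1
    have n2 := N.nv r2 hr2
    simp only [S] at sp t1 t2
    clear CL hU two Sq prop nbr
    grind (splits := 60) [asym]
  have lf : ∀ l, G.Adj v l → (∀ p, G.Adj l p → S p) → G.Adj l p1 → ∀ p ∈ X, G.Adj l p ↔ S p := by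
    intro l hl hS e
    have l1 := fun f => t1 (hS r1 f)
    have l2 := fun f => t2 (hS r2 f)
    have n1 := N.nv r1 hr1
    have n2 := N.nv r2 hr2
    have n3 := N.nv p1 hp1
    have n4 := N.nv p2 hp2
    have q1 := cq p1 hp1 s1
    have q2 := cq p2 hp2 s2
    have q3 := Sq p1 hp1 p2 hp2 s1 s2
    have e2 : G.Adj l p2 := by
      have c := hf p1 p2 r1 l v
      clear CL hU two Sq prop nbr cq hS
      grind (splits := 60) [asym]
    intro p hp
    refine ⟨hS p, fun sp => ?_⟩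
    have n5 := N.nv p hp
    have q4 := cq p hp sp
    have q5 := Sq p1 hp1 p hp s1 sp
    have q6 := Sq p2 hp2 p hp s2 sp
    have d1 : p ≠ r1 := by rintro rfl; exact t1 sp
    have d2 : p ≠ r2 := by rintro rfl; exact t2 sp
    have c1 := hf p1 p r1 l v
    have c2 := hf p2 p r2 l v
    clear CL hU two Sq prop nbr cq hS
    grind (splits := 60) [asym]
  have lx := lf x hx (fun p e => Or.inl e)
  have ly := lf y hy (fun p e => Or.inr (Or.inl e))
  have lz := lf z hz (fun p e => Or.inr (Or.inr e))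
  rcases two p1 hp1 s1 with e | e | e
  · exact N.twins hf hP CL S hx hy dxy nxy (lx e.1) (ly e.2) hp1 hp2 hr1 hr2 s1 s2 t1 t2 a1 a2 n hne
  · exact N.twins hf hP CL S hx hz dxz nxz (lx e.1) (lz e.2) hp1 hp2 hr1 hr2 s1 s2 t1 t2 a1 a2 n hne
  · exact N.twins hf hP CL S hy hz dyz nyz (ly e.1) (lz e.2) hp1 hp2 hr1 hr2 s1 s2 t1 t2 a1 a2 n hne

end Pool.Agent.P.MP_08bb88_co
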