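import Pool.Agent.P.MP_08bb88_co.F1

set_option autoImplicit false

namespace Pool.Agent.P.MP_08bb88_co

open Classical

variable {V : Type} {G : SimpleGraph V}

def cU (G : SimpleGraph V) (v : V) (X : Set V) (w : V) : Prop := G.Adj v w ∧ ∀ p ∈ X, G.Adj w p
def cT (G : SimpleGraph V) (v : V) (X : Set V) (w : V) : Prop :=
  w ≠ v ∧ ¬ G.Adj v w ∧ ∀ p ∈ X, G.Adj w p
def cA1 (G : SimpleGraph V) (v : V) (X : Set V) (w : V) : Prop :=
  G.Adj v w ∧ ∀ p ∈ X, ¬ G.Adj w p
def cA0 (G : SimpleGraph V) (v : V) (X : Set V) (w : V) : Prop :=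
  w ∉ X ∧ w ≠ v ∧ ¬ G.Adj v w ∧ ∀ p ∈ X, ¬ G.Adj w p
def cM (G : SimpleGraph V) (v : V) (X : Set V) (w : V) : Prop :=
  G.Adj v w ∧ (∃ q ∈ X, G.Adj w q) ∧ ∃ p ∈ X, ¬ G.Adj w p
def cD (G : SimpleGraph V) (X : Set V) (w : V) : Prop :=
  ∀ p ∈ X, ∀ p' ∈ X, ¬ G.Adj w p → ¬ G.Adj w p' → p ≠ p' → G.Adj p p'

section
variable (hf : FF G) {v : V} {X : Set V} (N : Node G v X)
include N

theorem Node.classify (w : V) : w = v ∨ w ∈ X ∨ cU G v X w ∨ cT G v X w ∨ cA1 G v X w ∨
    cA0 G v X w ∨ cM G v X w := by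
  have := N.md w
  unfold cU cT cA1 cA0 cM
  grind

theorem Node.edge {m : V} (hm : cM G v X m) :
    ∃ q ∈ X, ∃ p ∈ X, G.Adj m q ∧ ¬ G.Adj m p ∧ G.Adj q p := by
  obtain ⟨_, ⟨q, hq, e1⟩, p, hp, e2⟩ := hm
  exact N.con (fun a => G.Adj m a) q hq p hp e1 e2

theorem Node.nonedge {m : V} (hm : cM G v X m) :
    ∃ q ∈ X, ∃ p ∈ X, G.Adj m q ∧ ¬ G.Adj m p ∧ ¬ G.Adj q p := by
  obtain ⟨_, ⟨q, hq, e1⟩, p, hp, e2⟩ := hm
  exact N.coc (fun a => G.Adj m a) q hq p hp e1 e2

include hf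

theorem Node.f2 {u w : V} (hu : cU G v X u) (hw : G.Adj v w) (n : ¬ G.Adj u w) (hne : w ≠ u) :
    cD G X w := by
  intro p hp p' hp' e1 e2 e3
  have c := hf u p p' v w
  have := hu.1; have := hu.2 p hp; have := hu.2 p' hp'
  have := N.nv p hp; have := N.nv p' hp'
  grind (splits := 40) [asym]

theorem Node.f3 {t m : V} (ht : cT G v X t) (hm : G.Adj v m) (e : G.Adj t m) : cD G X m := by
  intro p hp p' hp' e1 e2 e3
  have c := hf t p p' m v
  have := ht.1; have := ht.2.1; have := ht.2.2 p hp; have := ht.2.2 p' hp'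
  have := N.nv p hp; have := N.nv p' hp'
  grind (splits := 40) [asym]

theorem Node.notD {a : V} (ha : ∀ p ∈ X, ¬ G.Adj a p) : ¬ cD G X a := by
  intro e
  obtain ⟨p, hp, q, hq, e1, e2⟩ := N.two
  exact e2 (e p hp q hq (ha p hp) (ha q hq) e1)

theorem Node.f2' {u a : V} (hu : cU G v X u) (ha : cA1 G v X a) : G.Adj u a := by
  by_contra n
  obtain ⟨p, hp, -⟩ := N.two
  exact N.notD hf ha.2 (N.f2 hf hu ha.1 n (by rintro rfl; exact ha.2 p hp (hu.2 p hp)))

theorem Node.f4 {w m : V} (hw : cA0 G v X w) (hm : cM G v X m) : ¬ G.Adj m w := by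
  obtain ⟨q, hq, p, hp, e1, e2, e3⟩ := N.edge hm
  have c := hf m v w q p
  have := hm.1; have := hw.2.1; have := hw.2.2.1; have := hw.2.2.2 p hp; have := hw.2.2.2 q hq
  have := N.nv p hp; have := N.nv q hq
  have : w ≠ q := by rintro rfl; exact hw.1 hq
  grind (splits := 40) [asym]

theorem Node.f5a {t a : V} (ht : cT G v X t) (ha : cA1 G v X a) : ¬ G.Adj t a :=
  fun e => N.notD hf ha.2 (N.f3 hf ht ha.1 e)

theorem Node.f5b {t w m : V} (ht : cT G v X t) (hw : cA0 G v X w) (hm : cM G v X m) :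
    ¬ G.Adj t w := by
  obtain ⟨q, hq, p, hp, e1, e2, e3⟩ := N.nonedge hm
  have c1 := hf t w p m v
  have c2 := hf t w p q m
  have := N.f4 hf hw hm
  have := hm.1; have := hw.2.1; have := hw.2.2.1; have := hw.2.2.2 p hp; have := hw.2.2.2 q hq
  have := ht.1; have := ht.2.1; have := ht.2.2 p hp; have := ht.2.2 q hq
  have := N.nv p hp; have := N.nv q hq
  have : w ≠ q := by rintro rfl; exact hw.1 hq
  have : w ≠ p := by rintro rfl; exact hw.1 hp
  grind (splits := 40) [asym]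

theorem Node.f6 {u w w' : V} (hu : cU G v X u) (hw : ∀ p ∈ X, ¬ G.Adj w p) (hwX : w ∉ X)
    (hw' : cA0 G v X w') (e1 : G.Adj w w') (e2 : G.Adj u w) : G.Adj u w' := by
  obtain ⟨p, hp, q, hq, d1, d2⟩ := N.two
  have c := hf u p q w w'
  have := hu.1; have := hu.2 p hp; have := hu.2 q hq
  have := hw p hp; have := hw q hq; have := hw'.2.2.2 p hp; have := hw'.2.2.2 q hq
  have := hw'.2.2.1
  have : w ≠ q := by rintro rfl; exact hwX hq
  have : w ≠ p := by rintro rfl; exact hwX hp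
  grind (splits := 40) [asym]

theorem Node.f6b {u a w : V} (hu : cU G v X u) (ha : cA1 G v X a) (hw : cA0 G v X w)
    (e : G.Adj a w) : G.Adj u w :=
  N.f6 hf hu ha.2 (fun f => (N.nv a f).2 ha.1) hw e (N.f2' hf hu ha)

theorem Node.f7 (hP : Prm G) {u0 m : V} (hu0 : cU G v X u0) (hm : cM G v X m) :
    ∃ u n, cU G v X u ∧ ¬ G.Adj u n ∧ (cT G v X n ∨ cM G v X n) := by
  by_contra hc
  push Not at hc
  obtain ⟨p, hp, q, hq, d1, d2⟩ := N.two
  have inW : ∀ x ∈ X, x ∈ {w | ¬ cU G v X w ∧ ¬ (cA0 G v X w ∧ ∃ u, cU G v X u ∧ ¬ G.Adj u w)} :=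
    fun x hx => ⟨fun e => (N.nv x hx).2 e.1, fun e => e.1.1 hx⟩
  refine d2 (hP {w | ¬ cU G v X w ∧ ¬ (cA0 G v X w ∧ ∃ u, cU G v X u ∧ ¬ G.Adj u w)} ?_
    ⟨u0, fun e => e.1 hu0⟩ p (inW p hp) q (inW q hq) d1)
  intro w hw
  by_cases hU : cU G v X w
  · left
    intro y hy
    by_contra n
    rcases N.classify y with e | e | e | e | e | e | e
    · exact n (e ▸ hU.1.symm)
    · exact n (hU.2 y e)
    · exact hy.1 e
    · exact (hc w y hU n).1 e
    · exact n (N.f2' hf hU e)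
    · exact hy.2 ⟨e, w, hU, n⟩
    · exact (hc w y hU n).2 e
  · right
    have : cA0 G v X w ∧ ∃ u, cU G v X u ∧ ¬ G.Adj u w := by
      by_contra e; exact hw ⟨hU, e⟩
    obtain ⟨a0, u, hu, n⟩ := this
    intro y hy a
    rcases N.classify y with e | e | e | e | e | e | e
    · exact a0.2.2.1 (e ▸ a.symm)
    · exact a0.2.2.2 y e a
    · exact hy.1 e
    · exact N.f5b hf e a0 hm a.symm
    · exact n (N.f6b hf hu e a0 a.symm)
    · have : G.Adj u y := by
        by_contra f; exact hy.2 ⟨e, u, hu, f⟩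
      exact n (N.f6 hf hu e.2.2.2 e.1 a0 a.symm this)
    · exact N.f4 hf a0 e a.symm

theorem Node.f8a {u n w m : V} (hu : cU G v X u) (hn : ¬ G.Adj u n)
    (hc : cT G v X n ∨ cM G v X n) (hw : cA0 G v X w) (hm : cM G v X m) : ¬ G.Adj u w := by
  rcases hc with ht | hc
  · obtain ⟨p, hp, -⟩ := N.two
    have c := hf u w v p n
    have := N.f5b hf ht hw hm
    have := hu.1; have := hu.2 p hp
    have := hw.2.1; have := hw.2.2.1; have := hw.2.2.2 p hp
    have := ht.1; have := ht.2.1; have := ht.2.2 p hp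
    have := N.nv p hp
    have : w ≠ p := by rintro rfl; exact hw.1 hp
    grind (splits := 40) [asym]
  · have := N.f4 hf hw hc
    obtain ⟨a, -, p, hp, e⟩ := hc
    have c := hf u w p v n
    have := hu.1; have := hu.2 p hp
    have := hw.2.1; have := hw.2.2.1; have := hw.2.2.2 p hp
    have := N.nv p hp
    have : w ≠ p := by rintro rfl; exact hw.1 hp
    grind (splits := 40) [asym]

theorem Node.f8b {u n a a' : V} (hu : cU G v X u) (hn : ¬ G.Adj u n)
    (hc : cT G v X n ∨ cM G v X n) (ha : cA1 G v X a) (ha' : cA1 G v X a') (hne : a ≠ a') :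
    G.Adj a a' := by
  have u1 := N.f2' hf hu ha
  have u2 := N.f2' hf hu ha'
  have a1 := ha.1
  have a2 := ha'.1
  have a3 := hu.1
  rcases hc with ht | hc
  · obtain ⟨p, hp, -⟩ := N.two
    have c := hf u a a' p n
    have := N.f5a hf ht ha
    have := N.f5a hf ht ha'
    have := hu.2 p hp; have := ha.2 p hp; have := ha'.2 p hp
    have := ht.1; have := ht.2.1; have := ht.2.2 p hp
    have := N.nv p hp
    grind (splits := 40) [asym]
  · obtain ⟨q, hq, p, hp, e1, e2, e3⟩ := N.nonedge hc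
    obtain ⟨r, hr, s, hs, e4, e5, e6⟩ := N.edge hc
    have c1 := hf u a p q n
    have c2 := hf u a' p q n
    have c3 := hf n a a' r s
    have := hu.2 p hp; have := ha.2 p hp; have := ha'.2 p hp
    have := hu.2 q hq; have := ha.2 q hq; have := ha'.2 q hq
    have := ha.2 r hr; have := ha'.2 r hr; have := ha.2 s hs; have := ha'.2 s hs
    have := N.nv p hp; have := N.nv q hq; have := N.nv r hr; have := N.nv s hs
    have := hc.1
    have g1 : G.Adj a n := by grind (splits := 40) [asym]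
    have g2 : G.Adj a' n := by grind (splits := 40) [asym]
    grind (splits := 40) [asym]

theorem Node.f9 [Fintype V] (hP : Prm G) {u0 m w : V} (hu0 : cU G v X u0) (hm : cM G v X m) :
    ¬ cA0 G v X w := by
  intro hw
  obtain ⟨u, n, hu, hn, hc⟩ := N.f7 hf hP hu0 hm
  let Y0 : Set V := {y | ¬ cU G v X y ∧ ¬ cA0 G v X y}
  have y0 : ∀ y ∈ Y0, ∀ a, cA0 G v X a → ¬ G.Adj y a := by
    intro y hy a ha f
    rcases N.classify y with e | e | e | e | e | e | e
    · exact ha.2.2.1 (e ▸ f)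
    · exact ha.2.2.2 y e f.symm
    · exact hy.1 e
    · exact N.f5b hf e ha hm f
    · exact N.f8a hf hu hn hc ha hm (N.f6b hf hu e ha f)
    · exact hy.2 e
    · exact N.f4 hf ha e f
  have y1 : ∀ y ∈ Y0, ∀ u1 a, cU G v X u1 → cA0 G v X a → G.Adj u1 a → G.Adj u1 y := by
    intro y hy u1 a h1 ha f
    by_contra g
    rcases N.classify y with e | e | e | e | e | e | e
    · exact g (e ▸ h1.1.symm)
    · exact g (h1.2 y e)
    · exact hy.1 e
    · exact N.f8a hf h1 g (Or.inl e) ha hm f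
    · exact g (N.f2' hf h1 e)
    · exact hy.2 e
    · exact N.f8a hf h1 g (Or.inr e) ha hm f
  have XY : ∀ x ∈ X, x ∈ Y0 := fun x hx => ⟨fun e => (N.nv x hx).2 e.1, fun e => e.1 hx⟩
  have vY : v ∈ Y0 := ⟨fun e => G.irrefl e.1, fun e => e.2.1 rfl⟩
  obtain ⟨p, hp, q, hq, d1, d2⟩ := N.two
  have cc : CoConn G Y0 := by
    have half : ∀ P : V → Prop, (∀ x ∈ X, P x) → ∀ b ∈ Y0, ¬ P b →
        ∃ a ∈ Y0, ∃ b ∈ Y0, P a ∧ ¬ P b ∧ ¬ G.Adj a b := by
      intro P hX b hb pb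
      by_cases pv : P v
      · rcases N.classify b with e | e | e | e | e | e | e
        · exact (pb (e ▸ pv)).elim
        · exact (pb (hX b e)).elim
        · exact (hb.1 e).elim
        · exact ⟨v, vY, b, hb, pv, pb, e.2.1⟩
        · exact ⟨p, XY p hp, b, hb, hX p hp, pb, fun f => e.2 p hp f.symm⟩
        · exact (hb.2 e).elim
        · obtain ⟨-, -, r, hr, f⟩ := e
          exact ⟨r, XY r hr, b, hb, hX r hr, pb, fun g => f g.symm⟩
      · exact ⟨p, XY p hp, v, vY, hX p hp, pv, fun f => (N.nv p hp).2 f.symm⟩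
    intro P a ha b hb pa pb
    by_cases e1 : ∀ x ∈ X, P x
    · exact half P e1 b hb pb
    by_cases e2 : ∀ x ∈ X, ¬ P x
    · obtain ⟨c, hc, d, hd, f1, f2, f3⟩ := half (fun x => ¬ P x) e2 a ha (not_not.2 pa)
      exact ⟨d, hd, c, hc, not_not.1 f2, f1, fun g => f3 g.symm⟩
    push Not at e1 e2
    obtain ⟨c, hc, f1⟩ := e1
    obtain ⟨d, hd, f2⟩ := e2
    obtain ⟨c, hc, d, hd, f⟩ := N.coc P d hd c hc f2 f1
    exact ⟨c, XY c hc, d, XY d hd, f⟩
  obtain ⟨Y, ⟨k0, k1, k2, k3, k4⟩, hmax⟩ := exists_maxset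
    (fun Y => Y0 ⊆ Y ∧ (∀ y ∈ Y, ¬ cA0 G v X y) ∧ (∀ y ∈ Y, ∀ a, cA0 G v X a → ¬ G.Adj y a) ∧
      (∀ y ∈ Y, ∀ u1 a, cU G v X u1 → cA0 G v X a → G.Adj u1 a → G.Adj u1 y) ∧ CoConn G Y)
    (X0 := Y0) ⟨le_rfl, fun y hy => hy.2, y0, y1, cc⟩
  obtain ⟨z, hz, y1, hy1, y2, hy2, f1, f2, f3⟩ := hP.mixed k4 (k0 (XY p hp)) (k0 (XY q hq)) d1 d2
    (u := w) (fun e => k1 w e hw)
  have zA : ¬ cA0 G v X z := fun e => k2 y1 hy1 z e f1.symm
  have zU : cU G v X z := by
    by_contra e; exact hz (k0 ⟨e, zA⟩)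
  have zn : ∀ a, cA0 G v X a → ¬ G.Adj z a := fun a ha e => f2 (k3 y2 hy2 z a zU ha e)
  refine hmax z hz ⟨k0.trans (Set.subset_insert _ _), ?_, ?_, ?_, k4.insert hy2 f2⟩
  · rintro y (rfl | hy)
    · exact zA
    · exact k1 y hy
  · rintro y (rfl | hy)
    · exact zn
    · exact k2 y hy
  · rintro y (rfl | hy)
    · intro u1 a h1 ha e
      have c := hf u1 a y2 y1 y
      have := k3 y1 hy1 u1 a h1 ha e
      have := k3 y2 hy2 u1 a h1 ha e
      have := k2 y1 hy1 a ha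
      have := k2 y2 hy2 a ha
      have := zn a ha
      have : a ≠ y1 := by rintro rfl; exact k1 _ hy1 ha
      have : a ≠ y2 := by rintro rfl; exact k1 _ hy2 ha
      clear hmax k0 k1 k2 k3 k4 y0 XY cc zn
      grind (splits := 40) [asym]
    · exact k3 y hy

theorem Node.F2 [Fintype V] (hP : Prm G) {u0 : V} (hu0 : cU G v X u0) :
    ∃ p, Cob G {x | x ≠ p ∧ ¬ G.Adj p x} := by
  obtain ⟨m, hvm, q0, hq0, p0, hp0, m1, m2, -⟩ := N.exists_mixed hP
  have hm : cM G v X m := ⟨hvm, ⟨q0, hq0, m1⟩, p0, hp0, m2⟩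
  obtain ⟨u, n, hu, hn, hc⟩ := N.f7 hf hP hu0 hm
  have nA0 : ∀ w, ¬ cA0 G v X w := fun w => N.f9 hf hP hu0 hm
  have CL : ∀ m, cM G v X m → ∀ p ∈ X, ∀ q ∈ X, G.Adj m p → G.Adj m q → p ≠ q → G.Adj p q := by
    rintro m ⟨a, -, d, hd, e⟩ p hp q hq e1 e2 e3
    exact N.L1 hf hP a hd e hp hq e1 e2 e3
  have Tq : ∀ m, cM G v X m → ¬ cD G X m → ∀ t t', cT G v X t → cT G v X t' → t ≠ t' →
      G.Adj t t' := by
    intro m hm hD t t' ht ht' hne
    have e1 := fun e => hD (N.f3 hf ht hm.1 e)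
    have e2 := fun e => hD (N.f3 hf ht' hm.1 e)
    obtain ⟨a, ⟨q, hq, e⟩, -⟩ := hm
    have c := hf q t t' m v
    have := ht.1; have := ht.2.1; have := ht.2.2 q hq
    have := ht'.1; have := ht'.2.1; have := ht'.2.2 q hq
    have := N.nv q hq
    clear CL nA0
    grind (splits := 40) [asym]
  by_cases hMc : ∃ m0, cM G v X m0 ∧ cD G X m0
  · obtain ⟨m0, h0, hD0⟩ := hMc
    by_cases hMo : ∃ m1, cM G v X m1 ∧ ¬ cD G X m1
    · obtain ⟨m1, h1, hD1⟩ := hMo
      refine ⟨v, {x | (x ∈ X ∧ G.Adj m0 x) ∨ cT G v X x}, {x | x ∈ X ∧ ¬ G.Adj m0 x}, ?_, ?_, ?_⟩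
      · rintro x (hx | hx) y (hy | hy) hne
        · exact CL m0 h0 x hx.1 y hy.1 hx.2 hy.2 hne
        · exact (hy.2.2 x hx.1).symm
        · exact hx.2.2 y hy.1
        · exact Tq m1 h1 hD1 x y hx hy hne
      · intro x hx y hy hne
        exact hD0 x hx.1 y hy.1 hx.2 hy.2 hne
      · rintro x ⟨a, b⟩
        rcases N.classify x with e | e | e | e | e | e | e
        · exact (a e).elim
        · by_cases f : G.Adj m0 x
          · exact Or.inl (Or.inl ⟨e, f⟩)
          · exact Or.inr ⟨e, f⟩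
        · exact (b e.1).elim
        · exact Or.inl (Or.inr e)
        · exact (b e.1).elim
        · exact (nA0 x e).elim
        · exact (b e.1).elim
    · push Not at hMo
      obtain ⟨p, hp, d0, hd0, pm, dm, -⟩ := N.edge h0
      have opp : ∀ m1, cM G v X m1 → ¬ G.Adj m1 p → ∀ x ∈ X, (G.Adj m1 x ↔ ¬ G.Adj m0 x) := by
        intro m1 h1 e x hx
        by_contra f
        obtain ⟨a, ha, b, hb, f1, f2, f3⟩ := N.coc (fun y => G.Adj m1 y ↔ ¬ G.Adj m0 y) p hp x hx
          (by simp [e, pm]) f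
        have c1 := CL m0 h0 a ha b hb
        have c2 := CL m1 h1 a ha b hb
        have c3 := hD0 a ha b hb
        have c4 := hMo m1 h1 a ha b hb
        have : a ≠ b := by rintro rfl; exact f2 f1
        clear CL nA0 Tq hMo
        grind (splits := 40)
      have mix : ∃ q ∈ X, ∃ q' ∈ X, ∃ q'' ∈ X, ¬ G.Adj m0 q ∧ G.Adj m0 q' ∧ G.Adj m0 q'' ∧
          G.Adj q q' ∧ ¬ G.Adj q q'' := by
        by_contra hcon
        push Not at hcon
        obtain ⟨q', hq', q, hq, e1, e2, e3⟩ := N.edge h0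
        obtain ⟨a, ha, b, hb, rfl, f2, f3⟩ := N.coc (fun y => y = q) q hq q' hq' rfl
          (by rintro rfl; exact e2 e1)
        by_cases g : G.Adj m0 b
        · exact f3 (hcon a hq q' hq' b hb e2 e1 g e3.symm)
        · exact f3 (hD0 a hq b hb e2 g (Ne.symm f2))
      obtain ⟨q, hq, q', hq', q'', hq'', x1, x2, x3, x4, x5⟩ := mix
      refine ⟨p, {x | (x ∈ X ∧ ¬ G.Adj m0 x) ∨ (cM G v X x ∧ ¬ G.Adj x p)},
        {x | x = v ∨ cA1 G v X x}, ?_, ?_, ?_⟩
      · rintro x (hx | hx) y (hy | hy) hne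
        · exact hD0 x hx.1 y hy.1 hx.2 hy.2 hne
        · exact ((opp y hy.1 hy.2 x hx.1).2 hx.2).symm
        · exact (opp x hx.1 hx.2 y hy.1).2 hy.2
        · have c := hf q x y q' q''
          have := opp x hx.1 hx.2 q hq; have := opp x hx.1 hx.2 q' hq'
          have := opp x hx.1 hx.2 q'' hq''
          have := opp y hy.1 hy.2 q hq; have := opp y hy.1 hy.2 q' hq'
          have := opp y hy.1 hy.2 q'' hq''
          have := CL m0 h0 q' hq' q'' hq''
          have := hx.1.1; have := hy.1.1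
          have := N.nv q' hq'
          clear CL nA0 Tq hMo opp
          grind (splits := 40) [asym]
      · rintro x (rfl | hx) y (rfl | hy) hne
        · exact (hne rfl).elim
        · exact hy.1
        · exact hx.1.symm
        · exact N.f8b hf hu hn hc hx hy hne
      · rintro x ⟨a, b⟩
        rcases N.classify x with e | e | e | e | e | e | e
        · exact Or.inr (Or.inl e)
        · exact Or.inl (Or.inl ⟨e, fun f => b (CL m0 h0 p hp x e pm f (Ne.symm a))⟩)
        · exact (b (e.2 p hp).symm).elim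
        · exact (b (e.2.2 p hp).symm).elim
        · exact Or.inr (Or.inr e)
        · exact (nA0 x e).elim
        · exact Or.inl (Or.inr ⟨e, fun f => b f.symm⟩)
  · push Not at hMc
    have UM : ∀ m1, cM G v X m1 → G.Adj u m1 := by
      intro m1 h1
      by_contra e
      refine hMc m1 h1 (N.f2 hf hu h1.1 e ?_)
      rintro rfl
      obtain ⟨-, -, r, hr, f⟩ := h1
      exact f (hu.2 r hr)
    have ht : cT G v X n := hc.resolve_right (fun e => hn (UM n e))
    have TM : ∀ m1, cM G v X m1 → ¬ G.Adj n m1 := fun m1 h1 e => hMc m1 h1 (N.f3 hf ht h1.1 e)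
    refine ⟨q0, {x | x ∈ X ∧ x ≠ q0 ∧ ¬ G.Adj q0 x},
      {x | x = v ∨ ((cA1 G v X x ∨ cM G v X x) ∧ ¬ G.Adj q0 x)}, ?_, ?_, ?_⟩
    · intro x hx y hy hne
      have c := hf n x y q0 m
      have := TM m hm
      have := CL m hm q0 hq0 x hx.1
      have := CL m hm q0 hq0 y hy.1
      have := ht.2.2 x hx.1; have := ht.2.2 y hy.1; have := ht.2.2 q0 hq0
      have := ht.2.1
      have := hx.2; have := hy.2
      clear CL nA0 Tq hMc UM TM
      grind (splits := 40) [asym]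
    · rintro x (rfl | hx) y (rfl | hy) hne
      · exact (hne rfl).elim
      · exact hy.1.elim (·.1) (·.1)
      · exact (hx.1.elim (·.1) (·.1)).symm
      · have c := hf u x y q0 n
        have a1 : G.Adj u x := hx.1.elim (N.f2' hf hu) (UM x)
        have a2 : G.Adj u y := hy.1.elim (N.f2' hf hu) (UM y)
        have a3 : ¬ G.Adj n x := hx.1.elim (N.f5a hf ht) (TM x)
        have a4 : ¬ G.Adj n y := hy.1.elim (N.f5a hf ht) (TM y)
        have a5 : G.Adj v x := hx.1.elim (·.1) (·.1)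
        have a6 : G.Adj v y := hy.1.elim (·.1) (·.1)
        have := hu.2 q0 hq0; have := ht.2.2 q0 hq0; have := N.nv q0 hq0
        have := hx.2; have := hy.2; have := hu.1; have := ht.2.1
        clear CL nA0 Tq hMc UM TM
        grind (splits := 40) [asym]
    · rintro x ⟨a, b⟩
      rcases N.classify x with e | e | e | e | e | e | e
      · exact Or.inr (Or.inl e)
      · exact Or.inl ⟨e, a, b⟩
      · exact (b (e.2 q0 hq0).symm).elim
      · exact (b (e.2.2 q0 hq0).symm).elim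
      · exact Or.inr (Or.inr ⟨Or.inl e, b⟩)
      · exact (nA0 x e).elim
      · exact Or.inr (Or.inr ⟨Or.inr e, b⟩)

end

theorem div_forkfree : ∀ (n : ℕ) (V : Type) [Fintype V] (G : SimpleGraph V),
    Fintype.card V ≤ n → FF G → Div G Set.univ := by
  intro n
  induction n using Nat.strong_induction_on with
  | _ n ihn =>
  intro V _ G hn hf
  have ih : ∀ O : Set V, (∃ w, w ∉ O) → Div G O := by
    rintro O ⟨w, hw⟩
    apply div_transfer
    have hlt : Fintype.card O < Fintype.card V := Fintype.card_subtype_lt (x := w) hw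
    refine ihn (Fintype.card O) (by omega) O (G.induce O) le_rfl ?_
    intro c x y p q
    have := hf c.1 x.1 y.1 p.1 q.1
    simpa only [SimpleGraph.comap_adj, Function.Embedding.subtype_apply, Subtype.ext_iff,
      SimpleGraph.induce_adj] using this
  by_cases hP : Prm G
  · by_cases hcl : ClawFree G
    · exact div_clawfree ih hcl
    · unfold ClawFree at hcl
      push Not at hcl
      obtain ⟨c, x, y, z, h1, h2, h3, d1, d2, d3, n1, n2, n3⟩ := hcl
      rcases exists_node (G := G) c with e | ⟨X, N⟩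
      · exact div_of_M e
      · obtain ⟨u, hu⟩ := N.F1 hf hP h1 h2 h3 n1 n2 n3 d1 d2 d3
        obtain ⟨p, hp⟩ := N.F2 hf hP hu
        exact div_of_M hp.perf
  · unfold Prm Clq at hP
    push Not at hP
    obtain ⟨Y, hY, hw, a, ha, b, hb, hab, hn⟩ := hP
    exact div_module ih hY hw ha hb hab hn

end Pool.Agent.P.MP_08bb88_co
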