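import Pool.Agent.P.MP_08bb88_co.FcNode

/-! Few claw centres are of the third kind with a large clique in the node. -/

set_option autoImplicit false
set_option linter.unusedSectionVars false

namespace Pool.Agent.P.MP_08bb88_co

open Classical

variable {V : Type} [Fintype V] {G : SimpleGraph V}

/-- claw centres of the third kind whose node has a clique with more than `L` vertices -/
def Bad (G : SimpleGraph V) (L : ℕ) (v : V) : Prop := ∃ X, C3 G v X ∧ ¬ Bd G X L

theorem bad_card (hf : FF G) (hP : Prm G) {k L b : ℕ} (hL : 0 < L) (hb0 : 0 < b)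
    (hk : Bd G Set.univ k) (hb : 8 * b * 4096 ^ b ≤ (k : ℝ)) :
    ∀ (n : ℕ) (W : Set V), (∀ u ∈ W, ∀ Y, C3 G u Y → ∀ w, cR G u Y w → w ∈ W) → Bd G W n →
      (({v | v ∈ W ∧ Bad G L v} : Set V).ncard : ℝ) ≤ n * (2 * k / L + 8 * k / b) := by
  intro n
  induction n using Nat.strong_induction_on with
  | _ n ih =>
  intro W hW hn
  rcases ({v | v ∈ W ∧ Bad G L v} : Set V).eq_empty_or_nonempty with e | ⟨v, hv, X, h, hX⟩
  · rw [e, Set.ncard_empty, Nat.cast_zero]
    positivity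
  obtain ⟨K, k1, k2, k3⟩ := exists_omega (G := G) {w | cR G v X w}
  have jL : L < K.card := by
    by_contra e
    exact hX ((k3.mono fun w hw => Or.inr (Or.inl hw)).le (by omega))
  have KW : ∀ x ∈ K, x ∈ W := fun x hx => hW v hv X h x (k1 x hx)
  have jn := hn K KW k2
  have jk := hk K (fun _ _ => trivial) k2
  have h1 := ih (n - K.card) (by omega) {w | w ∈ W ∧ cU G v X w}
    (fun u hu Y hY w hw => ⟨hW u hu.1 Y hY w hw, h.nest hf hP hu.2 hY hw⟩)
    (hn.split KW k2 (fun w hw => hw.1) fun x hx y hy => h.ur hf hP hx.2 (k1 y hy))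
  have h2 := ramsey (h.notX hf hP) (k3.mono fun w hw => Or.inr (Or.inl hw)) jk hb
  have h3 := ramsey (h.notA hf hP) (k3.mono fun w hw => Or.inr (Or.inr hw)) jk hb
  have h4 := (h.tclq hf hP).ncard_le (hk.mono (Set.subset_univ _))
  have h5 : ({v | v ∈ W ∧ Bad G L v} : Set V).ncard ≤
      ((((({v} : Set V) ∪ X) ∪ {w | cA1 G v X w ∨ cM G v X w}) ∪ {t | cT G v X t}) ∪
        {u | u ∈ {w | w ∈ W ∧ cU G v X w} ∧ Bad G L u}).ncard :=
    Set.ncard_le_ncard (fun w hw => by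
      rcases h.cover hf hP w with (e | e | e) | e | e
      · exact Or.inl (Or.inl (Or.inl (Or.inl e)))
      · exact Or.inl (Or.inl (Or.inl (Or.inr e)))
      · exact Or.inl (Or.inl (Or.inr e))
      · exact Or.inr ⟨⟨hw.1, e⟩, hw.2⟩
      · exact Or.inl (Or.inr e)) (Set.toFinite _)
  have u1 := Set.ncard_union_le ((((({v} : Set V) ∪ X) ∪ {w | cA1 G v X w ∨ cM G v X w}) ∪
    {t | cT G v X t})) {u | u ∈ {w | w ∈ W ∧ cU G v X w} ∧ Bad G L u}
  have u2 := Set.ncard_union_le ((({v} : Set V) ∪ X) ∪ {w | cA1 G v X w ∨ cM G v X w})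
    {t | cT G v X t}
  have u3 := Set.ncard_union_le (({v} : Set V) ∪ X) {w | cA1 G v X w ∨ cM G v X w}
  have u4 := Set.ncard_union_le ({v} : Set V) X
  rw [Set.ncard_singleton] at u4
  have h6 : ({v | v ∈ W ∧ Bad G L v} : Set V).ncard ≤ 2 * k + X.ncard +
      ({w | cA1 G v X w ∨ cM G v X w} : Set V).ncard +
      ({u | u ∈ {w | w ∈ W ∧ cU G v X w} ∧ Bad G L u} : Set V).ncard := by omega
  have h7 := (Nat.cast_le (α := ℝ)).2 h6
  push_cast at h7
  rw [Nat.cast_sub jn] at h1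
  have bp : (0 : ℝ) < b := by exact_mod_cast hb0
  have Lp : (0 : ℝ) < L := by exact_mod_cast hL
  have a1 : (X.ncard : ℝ) ≤ K.card * (4 * k / b) := by
    rw [← mul_div_assoc, le_div_iff₀ bp]
    linarith
  have a2 : (({w | cA1 G v X w ∨ cM G v X w} : Set V).ncard : ℝ) ≤ K.card * (4 * k / b) := by
    rw [← mul_div_assoc, le_div_iff₀ bp]
    linarith
  have a3 : 2 * (k : ℝ) ≤ K.card * (2 * k / L) := by
    rw [← mul_div_assoc, le_div_iff₀ Lp]
    have : (L : ℝ) ≤ K.card := by exact_mod_cast jL.le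
    nlinarith [Nat.cast_nonneg (α := ℝ) k]
  have a4 : 8 * (k : ℝ) / b = 2 * (4 * k / b) := by ring
  rw [a4] at h1 ⊢
  nlinarith

theorem good_bad (hf : FF G) (hP : Prm G) {k L b : ℕ} (hL : 0 < L) (hb0 : 0 < b)
    (hk : Bd G Set.univ k) (hb : 8 * b * 4096 ^ b ≤ (k : ℝ)) :
    Good G {v | Bad G L v} (k * (2 * k / L + 8 * k / b)) :=
  ((good_card _).le (bad_card hf hP hL hb0 hk hb k Set.univ (fun _ _ _ _ _ _ => trivial) hk)).mono
    fun _ hv => ⟨trivial, hv⟩

theorem good_nctr {k b : ℕ} (hb0 : 0 < b) (hk : Bd G Set.univ k)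
    (hb : 8 * b * 4096 ^ b ≤ (k : ℝ)) : Good G {v | ¬ Ctr G v} (4 * k * k / b + 1) := by
  refine good_deg (by positivity) _ _ le_rfl fun v hv => ?_
  rw [le_div_iff₀ (by exact_mod_cast hb0), mul_comm]
  refine ramsey (fun x hx y hy z hz d1 d2 d3 => ?_) (hk.mono (Set.subset_univ _)) le_rfl hb
  by_contra e
  push Not at e
  exact hv ⟨x, y, z, hx, hy, hz, d1, d2, d3, e⟩

/-- the non-neighbourhood of a claw centre which is not bad -/
theorem good_mn (hf : FF G) (hP : Prm G) {k L : ℕ} (hk : Bd G Set.univ k) {v : V} (hv : Ctr G v)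
    (hB : ¬ Bad G L v) : Good G (Mn G v) (k + (L : ℝ) ^ 2) := by
  by_cases e : ∃ X, C3 G v X
  · obtain ⟨X, h⟩ := e
    have hX : Bd G X L := by
      by_contra f
      exact hB ⟨X, h, f⟩
    exact ((h.tclq hf hP).perf.good (hk.mono (Set.subset_univ _))).cover (good_sq hf _ _ hX)
      fun w hw => (h.nd.mn hf hP hv hw).symm
  · refine ((perf_mn fun X N => ?_).good (hk.mono (Set.subset_univ _))).le
      (le_add_of_nonneg_right (sq_nonneg _))
    by_contra f
    exact e ⟨X, N, hv, fun m hm hD => f (N.cob hf hP hm hD)⟩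

end Pool.Agent.P.MP_08bb88_co
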