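import Pool.Agent.P.MP_08bb88_co.FcBad

/-! Fat non-adjacent pairs among the non-neighbours of a claw centre form a bipartite graph. -/

set_option autoImplicit false
set_option linter.unusedSectionVars false

namespace Pool.Agent.P.MP_08bb88_co

open Classical

variable {V : Type} [Fintype V] {G : SimpleGraph V}

/-- the component of `y` in `S` -/
def Cp (G : SimpleGraph V) (S : Set V) (y : V) : Set V :=
  {a | Relation.ReflTransGen (fun a b => G.Adj a b ∧ b ∈ S) y a}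

theorem cp_self {S : Set V} {y : V} : y ∈ Cp G S y := Relation.ReflTransGen.refl

theorem cp_step {S : Set V} {y a b : V} (ha : a ∈ Cp G S y) (e : G.Adj a b) (hb : b ∈ S) :
    b ∈ Cp G S y := Relation.ReflTransGen.tail ha ⟨e, hb⟩

theorem cp_ind {S : Set V} {y : V} (P : V → Prop) (h0 : P y)
    (h : ∀ a ∈ Cp G S y, ∀ b ∈ S, G.Adj a b → P a → P b) : ∀ a ∈ Cp G S y, P a := by
  intro a ha
  induction ha with
  | refl => exact h0
  | tail h1 h2 ih => exact h _ h1 _ h2.2 h2.1 ih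

theorem cp_sub {S : Set V} {y : V} (hy : y ∈ S) : Cp G S y ⊆ S :=
  cp_ind (· ∈ S) hy fun _ _ _ hb _ _ => hb

theorem cp_conn {S : Set V} {y : V} : Conn G (Cp G S y) := by
  intro P a ha b hb pa pb
  by_contra hc
  push Not at hc
  by_cases e : P y
  · refine pb (cp_ind P e (fun s hs t ht f ps => ?_) b hb)
    by_contra g
    exact hc s hs t (cp_step hs f ht) ps g f
  · exact cp_ind (fun s => ¬ P s) e
      (fun s hs t ht f ps g => hc t (cp_step hs f ht) s hs g ps f.symm) a ha pa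

theorem two_col (F : V → V → Prop) (hs : ∀ a b, F a b → F b a)
    (h : ∀ y, ∃ D : Set V, y ∈ D ∧ (∀ a ∈ D, ∀ b, F a b → b ∈ D) ∧
      ∃ col : V → Bool, ∀ a ∈ D, ∀ b, F a b → col a ≠ col b) :
    ∃ col : V → Bool, ∀ a b, F a b → col a ≠ col b := by
  have k : ∀ E : Set V, ∃ col : V → Bool, (∃ c : V → Bool, ∀ a ∈ E, ∀ b, F a b → c a ≠ c b) →
      ∀ a ∈ E, ∀ b, F a b → col a ≠ col b := fun E => by
    by_cases e : ∃ c : V → Bool, ∀ a ∈ E, ∀ b, F a b → c a ≠ c b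
    · obtain ⟨c, hc⟩ := e
      exact ⟨c, fun _ => hc⟩
    · exact ⟨fun _ => true, fun f => (e f).elim⟩
  choose cf hcf using k
  refine ⟨fun y => cf {a | Relation.ReflTransGen F y a} y, fun a b e => ?_⟩
  have e1 : {t | Relation.ReflTransGen F b t} = {t | Relation.ReflTransGen F a t} :=
    Set.ext fun t => ⟨fun f => Relation.ReflTransGen.head e f,
      fun f => Relation.ReflTransGen.head (hs a b e) f⟩
  simp only [e1]
  obtain ⟨D, d1, d2, c, d3⟩ := h a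
  refine hcf _ ⟨c, fun t ht => d3 t ?_⟩ a Relation.ReflTransGen.refl b e
  induction ht with
  | refl => exact d1
  | tail _ h2 ih => exact d2 _ ih _ h2

/-- `y` lies in a clique with more than `L` vertices inside `S` -/
def Big (G : SimpleGraph V) (S : Set V) (L : ℕ) (y : V) : Prop :=
  ∃ K : Finset V, y ∈ K ∧ (∀ a ∈ K, a ∈ S) ∧ FClq G K ∧ L < K.card

/-- fat pairs -/
structure Fat (G : SimpleGraph V) (C : Set V) (L : ℕ) (x y z : V) : Prop where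
  ym : y ∈ Mn G x
  zm : z ∈ Mn G x
  yz : y ∈ Mn G z
  yb : Big G ((C ∩ Mn G x) ∩ Mn G z) L y
  zb : Big G ((C ∩ Mn G x) ∩ Mn G y) L z

theorem Fat.symm {C : Set V} {L : ℕ} {x y z : V} (h : Fat G C L x y z) : Fat G C L x z y :=
  ⟨h.zm, h.ym, mn_symm h.yz, h.zb, h.yb⟩

/-- `z` lies in no node of `x` -/
def Out (G : SimpleGraph V) (x z : V) : Prop := ∀ X, Node G x X → z ∉ X

theorem cp_mod {x y z w : V} (hy : y ∈ Mn G x ∩ Mn G z) (hz : z ∈ Mn G x) (ho : Out G x z)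
    (hw : w ∈ Mn G x) (hn : w ∉ Cp G (Mn G x ∩ Mn G z) y) :
    (∀ a ∈ Cp G (Mn G x ∩ Mn G z) y, G.Adj w a) ∨
      ∀ a ∈ Cp G (Mn G x ∩ Mn G z) y, ¬ G.Adj w a := by
  by_contra hc
  push Not at hc
  obtain ⟨⟨a, ha, e1⟩, b, hb, e2⟩ := hc
  obtain ⟨b, hb, a, ha, e2, e1, e3⟩ := cp_conn (fun t => G.Adj w t) b hb a ha e2 e1
  have am := cp_sub hy ha
  have bm := cp_sub hy hb
  have wz : G.Adj z w := by
    by_contra f
    refine hn (cp_step hb e2.symm ⟨hw, ?_, f⟩)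
    rintro rfl
    exact bm.2.2 e2
  obtain ⟨X, N, hX⟩ := p4_node am.1 bm.1 hw hz e3.symm e2.symm wz.symm (fun f => e1 f.symm)
    (fun f => am.2.2 f.symm) fun f => bm.2.2 f.symm
  exact ho X N hX

section
variable {C : Set V} {L : ℕ} {x : V}

theorem Fat.brk (hP : Prm G) (hC : ∀ v ∈ C, (tw G v).card ≤ L) {y z : V} (h : Fat G C L x y z)
    (ho : Out G x z) : ∃ a ∈ Cp G (Mn G x ∩ Mn G z) y, ∃ b ∈ Cp G (Mn G x ∩ Mn G z) y, ∃ c,
      Brk G x a b c := by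
  have hy : y ∈ Mn G x ∩ Mn G z := ⟨h.ym, h.yz⟩
  obtain ⟨K, k1, k2, k3, k4⟩ := h.yb
  have xY : x ∉ Cp G (Mn G x ∩ Mn G z) y := fun e => (cp_sub hy e).1.1 rfl
  have nm : ¬ Modu G (Cp G (Mn G x ∩ Mn G z) y) := fun e => by
    have := light_module (hC y (k2 y k1).1.1) e (hP _ e ⟨x, xY⟩) cp_self K (fun a ha => by
      by_cases f : y = a
      · exact f ▸ cp_self
      · exact cp_step cp_self (k3 y k1 a ha f) ⟨(k2 a ha).1.2, (k2 a ha).2⟩) k3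
    omega
  unfold Modu at nm
  push Not at nm
  obtain ⟨c, hc, ⟨a, ha, e1⟩, b, hb, e2⟩ := nm
  have xc : G.Adj x c := by
    by_contra f
    rcases cp_mod hy h.zm ho (w := c) ⟨by rintro rfl; exact (cp_sub hy hb).1.2 e2, f⟩ hc with g | g
    · exact e1 (g a ha)
    · exact g b hb e2
  obtain ⟨b, hb, a, ha, e2, e1, e3⟩ := cp_conn (fun t => G.Adj c t) b hb a ha e2 e1
  exact ⟨a, ha, b, hb, c, (cp_sub hy ha).1, (cp_sub hy hb).1, e3.symm, xc, e2, e1⟩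

/-- a component seen from a vertex `y'` of the module `Y` which starts outside stays outside -/
theorem cp_out {Y : Set V} (hY : ∀ w ∈ Mn G x, w ∉ Y → (∀ a ∈ Y, G.Adj w a) ∨ ∀ a ∈ Y, ¬ G.Adj w a)
    {y' z' : V} (hy : y' ∈ Y) (hz : z' ∈ Mn G x ∩ Mn G y') (hn : z' ∉ Y) {s : V}
    (hs : s ∈ Cp G (Mn G x ∩ Mn G y') z') : s ∉ Y ∧ ∀ a ∈ Y, ¬ G.Adj s a := by
  have k : ∀ s ∈ Mn G x ∩ Mn G y', s ∉ Y → ∀ a ∈ Y, ¬ G.Adj s a := fun s hs e =>
    (hY s hs.1 e).resolve_left fun f => hs.2.2 (f y' hy).symm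
  have e : s ∉ Y := cp_ind (· ∉ Y) hn (fun a ha b _ f g hb => k a (cp_sub hz ha) g b hb f) s hs
  exact ⟨e, k s (cp_sub hz hs) e⟩

/-- a component seen from a vertex of the module `Y` which starts inside stays inside -/
theorem cp_in {Y : Set V} (hY : ∀ w ∈ Mn G x, w ∉ Y → (∀ a ∈ Y, G.Adj w a) ∨ ∀ a ∈ Y, ¬ G.Adj w a)
    {y' z' : V} (hy : y' ∈ Y) (hz : z' ∈ Y) : Cp G (Mn G x ∩ Mn G y') z' ⊆ Y := by
  refine cp_ind (· ∈ Y) hz fun a _ b hb f g => ?_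
  by_contra e
  rcases hY b hb.1 e with k | k
  · exact hb.2.2 (k y' hy).symm
  · exact k a g f.symm

theorem Fat.partner (hf : FF G) (hP : Prm G) (hx : Ctr G x) (hC : ∀ v ∈ C, (tw G v).card ≤ L)
    {y z y' z' : V} (h : Fat G C L x y z) (oy : Out G x y) (oz : Out G x z)
    (hy' : y' ∈ Cp G (Mn G x ∩ Mn G z) y) (h' : Fat G C L x y' z') :
    z' ∈ Cp G (Mn G x ∩ Mn G y) z := by
  by_contra hn
  have hy : y ∈ Mn G x ∩ Mn G z := ⟨h.ym, h.yz⟩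
  have hz : z ∈ Mn G x ∩ Mn G y := ⟨h.zm, mn_symm h.yz⟩
  have hz' : z' ∈ Mn G x ∩ Mn G y' := ⟨h'.zm, mn_symm h'.yz⟩
  have mY := fun w hw => cp_mod (w := w) hy h.zm oz hw
  have zY : z ∉ Cp G (Mn G x ∩ Mn G z) y := fun e => (cp_sub hy e).2.1 rfl
  have oy' : Out G x y' := fun X N e =>
    oz X N (N.closed hf hP hx e h.zm fun f => (cp_sub hy hy').2.2 f.symm)
  have oz' : Out G x z' := fun X N e => oy' X N (N.closed hf hP hx e h'.ym h'.yz.2)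
  have ZY := fun s hs => (cp_out mY cp_self hz zY (s := s) hs).2
  obtain ⟨a1, ha1, b1, hb1, c1, k1⟩ := h.symm.brk hP hC oy
  obtain ⟨a2, ha2, b2, hb2, c2, k2⟩ := h'.symm.brk hP hC oy'
  by_cases e : z' ∈ Cp G (Mn G x ∩ Mn G z) y
  · obtain ⟨a0, ha0, b0, hb0, c0, k0⟩ := h'.brk hP hC oz'
    have i0 := cp_in mY e hy'
    have i2 := cp_in mY hy' e
    have hy0 : y' ∈ Mn G x ∩ Mn G z' := ⟨h'.ym, h'.yz⟩
    have A := fun s hs => (cp_out (fun w hw => cp_mod (w := w) hy0 h'.zm oz' hw) cp_self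
      hz' (fun f => (cp_sub hy0 f).2.1 rfl) (s := s) hs).2
    exact Tri.false hf ⟨k1, k2, k0,
      ⟨ZY _ ha1 _ (i2 ha2), ZY _ ha1 _ (i2 hb2), ZY _ hb1 _ (i2 ha2), ZY _ hb1 _ (i2 hb2)⟩,
      ⟨ZY _ ha1 _ (i0 ha0), ZY _ ha1 _ (i0 hb0), ZY _ hb1 _ (i0 ha0), ZY _ hb1 _ (i0 hb0)⟩,
      ⟨A _ ha2 _ ha0, A _ ha2 _ hb0, A _ hb2 _ ha0, A _ hb2 _ hb0⟩⟩ hP hx
  · obtain ⟨a0, ha0, b0, hb0, c0, k0⟩ := h.brk hP hC oz
    have A := fun s hs => cp_out mY hy' hz' e (s := s) hs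
    have sm : ∀ s ∈ Cp G (Mn G x ∩ Mn G y') z', s ∈ Mn G x ∩ Mn G y := fun s hs =>
      ⟨(cp_sub hz' hs).1, fun f => (A s hs).1 (f ▸ cp_self),
        fun f => (A s hs).2 y cp_self f.symm⟩
    have nZ : ∀ s ∈ Cp G (Mn G x ∩ Mn G y') z', s ∉ Cp G (Mn G x ∩ Mn G y) z :=
      cp_ind (· ∉ Cp G (Mn G x ∩ Mn G y) z) hn
        fun a ha b _ f g hb => g (cp_step hb f.symm (sm a ha))
    have B : ∀ t ∈ Cp G (Mn G x ∩ Mn G y) z, ∀ s ∈ Cp G (Mn G x ∩ Mn G y') z', ¬ G.Adj t s :=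
      fun t ht s hs f => nZ s hs (cp_step ht f (sm s hs))
    exact Tri.false hf ⟨k1, k2, k0,
      ⟨B _ ha1 _ ha2, B _ ha1 _ hb2, B _ hb1 _ ha2, B _ hb1 _ hb2⟩,
      ⟨ZY _ ha1 _ ha0, ZY _ ha1 _ hb0, ZY _ hb1 _ ha0, ZY _ hb1 _ hb0⟩,
      ⟨(A _ ha2).2 _ ha0, (A _ ha2).2 _ hb0, (A _ hb2).2 _ ha0, (A _ hb2).2 _ hb0⟩⟩ hP hx

theorem fat_col (hf : FF G) (hP : Prm G) (hx : Ctr G x) (hB : ¬ Bad G L x)
    (hC : ∀ v ∈ C, (tw G v).card ≤ L) :
    ∃ col : V → Bool, ∀ a b, Fat G C L x a b → col a ≠ col b := by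
  refine two_col _ (fun _ _ => Fat.symm) fun y => ?_
  by_cases ez : ∃ z, Fat G C L x y z
  swap
  · refine ⟨{y}, rfl, ?_, fun _ => true, ?_⟩ <;> rintro _ rfl b e <;> exact (ez ⟨b, e⟩).elim
  obtain ⟨z, h⟩ := ez
  by_cases oy : Out G x y
  · have oz : Out G x z := fun X N e => oy X N (N.closed hf hP hx e h.ym h.yz.2)
    have p1 := fun a ha b => h.partner hf hP hx hC oy oz (y' := a) (z' := b) ha
    have p2 := fun a ha b => h.symm.partner hf hP hx hC oz oy (y' := a) (z' := b) ha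
    have hy0 : y ∈ Mn G x ∩ Mn G z := ⟨h.ym, h.yz⟩
    have dj := fun s hs => (cp_out (fun w hw => cp_mod (w := w) hy0 h.zm oz hw) cp_self
      ⟨h.zm, mn_symm h.yz⟩ (fun f => (cp_sub hy0 f).2.1 rfl) (s := s) hs).1
    refine ⟨Cp G (Mn G x ∩ Mn G z) y ∪ Cp G (Mn G x ∩ Mn G y) z, Or.inl cp_self, ?_,
      fun a => decide (a ∈ Cp G (Mn G x ∩ Mn G z) y), ?_⟩
    · rintro a (ha | ha) b e
      · exact Or.inr (p1 a ha b e)
      · exact Or.inl (p2 a ha b e)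
    · rintro a (ha | ha) b e
      · simp [ha, dj b (p1 a ha b e)]
      · simp [dj a ha, p2 a ha b e]
  · unfold Out at oy
    push Not at oy
    obtain ⟨X, N, hX⟩ := oy
    have cl : ∀ a ∈ X, ∀ b, Fat G C L x a b → b ∈ X := fun a ha b e =>
      N.closed hf hP hx ha e.zm fun f => e.yz.2 f.symm
    have cb : Cob G X := by
      by_contra f
      refine hB ⟨X, ⟨N, hx, fun m hm hD => f (N.cob hf hP hm hD)⟩, fun g => ?_⟩
      obtain ⟨K, -, k2, k3, k4⟩ := h.yb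
      have := g K (fun a ha => N.closed hf hP hx (cl y hX z h) (k2 a ha).1.2 (k2 a ha).2.2) k3
      omega
    obtain ⟨Q1, Q2, q1, q2, q3⟩ := cb
    refine ⟨X, hX, cl, fun a => decide (a ∈ Q1), fun a ha b e f => e.yz.2 ?_⟩
    have g : a ∈ Q1 ↔ b ∈ Q1 := by simpa using f
    by_cases i : a ∈ Q1
    · exact q1 b (g.1 i) a i e.yz.1.symm
    · exact q2 b ((q3 (cl a ha b e)).resolve_left fun j => i (g.2 j)) a
        ((q3 ha).resolve_left i) e.yz.1.symm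

end

end Pool.Agent.P.MP_08bb88_co
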