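import Pool.Agent.P.MP_08bb88_co.F2

/-! Weighted stable sets: `Good G S c` says that the fractional chromatic number of `G[S]` is at
most `c`. -/

set_option autoImplicit false
set_option linter.unusedSectionVars false

namespace Pool.Agent.P.MP_08bb88_co

open Classical

variable {V : Type} [Fintype V] {G : SimpleGraph V}

/-- total weight of a set -/
noncomputable def wt (w : V → ℝ) (S : Set V) : ℝ := ∑ v, if v ∈ S then w v else 0

/-- if all stable subsets of `S` weigh at most `a` then `S` weighs at most `c * a` -/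
def Good (G : SimpleGraph V) (S : Set V) (c : ℝ) : Prop :=
  ∀ w : V → ℝ, (∀ v, 0 ≤ w v) → ∀ a : ℝ, (∀ I, I ⊆ S → Stab G I → wt w I ≤ a) → wt w S ≤ c * a

section
variable {w : V → ℝ} {S T : Set V} {c c' : ℝ}

theorem wt_empty : wt w ∅ = 0 := by simp [wt]

theorem wt_single (v : V) : wt w {v} = w v := by simp [wt]

theorem wt_mono (hw : ∀ v, 0 ≤ w v) (h : S ⊆ T) : wt w S ≤ wt w T := by
  refine Finset.sum_le_sum fun v _ => ?_
  by_cases h1 : v ∈ S
  · simp [h1, h h1]
  · by_cases h2 : v ∈ T <;> simp [h1, h2, hw v]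

theorem wt_nonneg (hw : ∀ v, 0 ≤ w v) : 0 ≤ wt w S := by
  rw [← wt_empty (w := w)]
  exact wt_mono hw (Set.empty_subset _)

theorem wt_union_le (hw : ∀ v, 0 ≤ w v) : wt w (S ∪ T) ≤ wt w S + wt w T := by
  unfold wt
  rw [← Finset.sum_add_distrib]
  refine Finset.sum_le_sum fun v _ => ?_
  by_cases h1 : v ∈ S <;> by_cases h2 : v ∈ T <;> simp [h1, h2, hw v]

theorem wt_union (h : ∀ v ∈ S, v ∉ T) : wt w (S ∪ T) = wt w S + wt w T := by
  unfold wt
  rw [← Finset.sum_add_distrib]
  refine Finset.sum_congr rfl fun v _ => ?_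
  by_cases h1 : v ∈ S
  · simp [h1, h v h1]
  · by_cases h2 : v ∈ T <;> simp [h1, h2]

theorem wt_one (S : Set V) : wt (fun _ => (1 : ℝ)) S = S.ncard := by
  unfold wt
  rw [Finset.sum_boole, Set.ncard_eq_toFinset_card' S]
  congr 2
  ext v
  simp

theorem wt_le_card {a : ℝ} (h : ∀ v ∈ S, w v ≤ a) : wt w S ≤ S.ncard * a := by
  rw [← wt_one]
  unfold wt
  rw [Finset.sum_mul]
  refine Finset.sum_le_sum fun v _ => ?_
  by_cases h1 : v ∈ S <;> simp [h1, h v]

theorem stab_empty : Stab G ∅ := fun _ hx => hx.elim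

theorem stab_single (v : V) : Stab G {v} := by
  rintro x rfl y rfl
  exact G.irrefl

theorem Good.mono (h : Good G S c) (hT : T ⊆ S) : Good G T c := by
  intro w hw a ha
  have e : ∀ I, wt (fun v => if v ∈ T then w v else 0) I = wt w (I ∩ T) := fun I =>
    Finset.sum_congr rfl fun v _ => by
      by_cases h1 : v ∈ I <;> by_cases h2 : v ∈ T <;> simp [h1, h2]
  have := h (fun v => if v ∈ T then w v else 0) (fun v => by
    split_ifs
    · exact hw v
    · exact le_rfl) a (fun I _ hI => by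
      rw [e]
      exact ha _ Set.inter_subset_right fun x hx y hy => hI x hx.1 y hy.1)
  rwa [e, Set.inter_eq_right.2 hT] at this

theorem Good.le (h : Good G S c) (hc : c ≤ c') : Good G S c' := by
  intro w hw a ha
  have h0 : 0 ≤ a := by
    rw [← wt_empty (w := w)]
    exact ha _ (Set.empty_subset _) stab_empty
  exact (h w hw a ha).trans (mul_le_mul_of_nonneg_right hc h0)

theorem Good.union (h : Good G S c) (h' : Good G T c') : Good G (S ∪ T) (c + c') := by
  intro w hw a ha
  have h1 := h w hw a fun I hI => ha I (hI.trans Set.subset_union_left)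
  have h2 := h' w hw a fun I hI => ha I (hI.trans Set.subset_union_right)
  have := wt_union_le (S := S) (T := T) hw
  linarith

theorem Good.cover {R : Set V} (h : Good G S c) (h' : Good G T c')
    (hR : ∀ v ∈ R, v ∈ S ∨ v ∈ T) : Good G R (c + c') :=
  (h.union h').mono hR

theorem good_empty : Good G ∅ 0 := fun w _ a _ => by rw [wt_empty, zero_mul]

theorem good_stab (h : Stab G S) : Good G S 1 := fun w _ a ha => by
  rw [one_mul]
  exact ha S le_rfl h

theorem good_card (S : Set V) : Good G S S.ncard := fun w _ a ha =>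
  wt_le_card fun v hv => by
    rw [← wt_single (w := w) v]
    exact ha _ (Set.singleton_subset_iff.2 hv) (stab_single v)

theorem Good.exists (h : Good G S c) (hw : ∀ v, 0 ≤ w v) :
    ∃ I, I ⊆ S ∧ Stab G I ∧ wt w S ≤ c * wt w I := by
  have : Nonempty {I : Set V // I ⊆ S ∧ Stab G I} := ⟨⟨∅, Set.empty_subset _, stab_empty⟩⟩
  obtain ⟨I, hI⟩ := Finite.exists_max (fun I : {I : Set V // I ⊆ S ∧ Stab G I} => wt w I.1)
  exact ⟨I.1, I.2.1, I.2.2, h w hw _ fun J h1 h2 => hI ⟨J, h1, h2⟩⟩

theorem good_of_exists (hc : 0 ≤ c) (h : ∀ w : V → ℝ, (∀ v, 0 ≤ w v) →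
    ∃ I, I ⊆ S ∧ Stab G I ∧ wt w S ≤ c * wt w I) : Good G S c := by
  intro w hw a ha
  obtain ⟨I, h1, h2, h3⟩ := h w hw
  exact h3.trans (mul_le_mul_of_nonneg_left (ha I h1 h2) hc)

/-- it is enough to treat weights normalised by `a = 1` -/
theorem good_of_one (h : ∀ w : V → ℝ, (∀ v, 0 ≤ w v) →
    (∀ I, I ⊆ S → Stab G I → wt w I ≤ 1) → wt w S ≤ c) : Good G S c := by
  intro w hw a ha
  have h0 : 0 ≤ a := by
    rw [← wt_empty (w := w)]
    exact ha _ (Set.empty_subset _) stab_empty
  rcases h0.eq_or_lt with h1 | h1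
  · have := good_card (G := G) S w hw a ha
    rw [← h1, mul_zero] at this ⊢
    exact this
  · have e : ∀ I, wt (fun v => w v / a) I = wt w I / a := fun I => by
      unfold wt
      rw [Finset.sum_div]
      exact Finset.sum_congr rfl fun v _ => by split_ifs <;> simp
    have := h (fun v => w v / a) (fun v => div_nonneg (hw v) h0) fun I h2 h3 => by
      rw [e, div_le_one h1]
      exact ha I h2 h3
    rwa [e, div_le_iff₀ h1] at this

theorem good_col (f : V → ℕ) : ∀ (k : ℕ) (T : Set V), (∀ x ∈ T, f x < k) →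
    (∀ x ∈ T, ∀ y ∈ T, G.Adj x y → f x ≠ f y) → Good G T k := by
  intro k
  induction k with
  | zero =>
    intro T h _
    have : T = ∅ := Set.eq_empty_of_forall_notMem fun x hx => by simpa using h x hx
    rw [this, Nat.cast_zero]
    exact good_empty
  | succ k ih =>
    intro T h h'
    have h1 := ih {x | x ∈ T ∧ f x < k} (fun x hx => hx.2) fun x hx y hy => h' x hx.1 y hy.1
    have h2 : Good G {x | x ∈ T ∧ f x = k} 1 :=
      good_stab fun x hx y hy e => h' x hx.1 y hy.1 e (hx.2.trans hy.2.symm)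
    rw [Nat.cast_succ]
    refine h1.cover h2 fun v hv => ?_
    have := h v hv
    by_cases e : f v = k
    · exact Or.inr ⟨hv, e⟩
    · exact Or.inl ⟨hv, by omega⟩

theorem Perf.good {A : Set V} {k : ℕ} (h : Perf G A) (hb : Bd G A k) : Good G A k := by
  obtain ⟨f, h1, h2⟩ := h k A le_rfl hb
  exact good_col f k A h1 h2

theorem FF.induce (hf : FF G) (O : Set V) : FF (G.induce O) := by
  intro c x y p q
  have := hf c.1 x.1 y.1 p.1 q.1
  simpa only [SimpleGraph.comap_adj, Function.Embedding.subtype_apply, Subtype.ext_iff,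
    SimpleGraph.induce_adj] using this

theorem Bd.zero (h : Bd G T 0) : T = ∅ :=
  Set.eq_empty_of_forall_notMem fun x hx => by
    have := h {x} (by simpa using hx) (by intro a ha b hb hab; simp_all)
    simp at this

theorem good_sq (hf : FF G) : ∀ (j : ℕ) (T : Set V), Bd G T j → Good G T ((j : ℝ) ^ 2) := by
  intro j
  induction j with
  | zero =>
    intro T h
    rw [h.zero]
    simpa using good_empty
  | succ j ih =>
    intro T h
    obtain ⟨A, h1, h2, h3⟩ := div_transfer (div_forkfree _ T (G.induce T) le_rfl (hf.induce T))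
      (j + 1) (by omega) h
    have h4 : Bd G (T \ A) j := by
      intro K hK hc
      have := h K (fun x hx => (hK x hx).1) hc
      by_contra e
      obtain ⟨x, hx, hxA⟩ := h3 K (fun x hx => (hK x hx).1) hc (by omega)
      exact (hK x hx).2 hxA
    refine (((h2.good (h.mono h1)).cover (ih _ h4)) fun v hv => ?_).le ?_
    · by_cases e : v ∈ A
      · exact Or.inl e
      · exact Or.inr ⟨hv, e⟩
    · push_cast
      nlinarith [Nat.cast_nonneg (α := ℝ) j]

/-- pairwise anticomplete pieces -/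
theorem good_pieces (hc : 0 ≤ c) : ∀ (n : ℕ) (S : Set V), S.ncard ≤ n →
    (∀ v ∈ S, ∃ P : Set V, v ∈ P ∧ Good G (P ∩ S) c ∧
      ∀ a ∈ P ∩ S, ∀ b ∈ S, b ∉ P → ¬ G.Adj a b) → Good G S c := by
  intro n
  induction n with
  | zero =>
    intro S h _
    rw [(Set.ncard_eq_zero (Set.toFinite S)).1 (by omega)]
    exact good_empty.le hc
  | succ n ih =>
    intro S h hS
    rcases S.eq_empty_or_nonempty with rfl | ⟨v, hv⟩
    · exact good_empty.le hc
    obtain ⟨P, hvP, h1, h2⟩ := hS v hv
    have lt : (S \ P).ncard < S.ncard :=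
      Set.ncard_lt_ncard ⟨Set.sdiff_subset, fun e => (e hv).2 hvP⟩ (Set.toFinite S)
    have h3 := ih (S \ P) (by omega) fun u hu => by
      obtain ⟨Q, k1, k2, k3⟩ := hS u hu.1
      exact ⟨Q, k1, k2.mono fun x hx => ⟨hx.1, hx.2.1⟩,
        fun a ha b hb e => k3 a ⟨ha.1, ha.2.1⟩ b hb.1 e⟩
    refine good_of_exists hc fun w hw => ?_
    obtain ⟨I, i1, i2, i3⟩ := h1.exists hw
    obtain ⟨J, j1, j2, j3⟩ := h3.exists hw
    refine ⟨I ∪ J, Set.union_subset (fun x hx => (i1 hx).2) fun x hx => (j1 hx).1, ?_, ?_⟩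
    · rintro x (hx | hx) y (hy | hy)
      · exact i2 x hx y hy
      · exact h2 x (i1 hx) y (j1 hy).1 (j1 hy).2
      · exact fun e => h2 y (i1 hy) x (j1 hx).1 (j1 hx).2 e.symm
      · exact j2 x hx y hy
    · rw [wt_union fun x hx hx' => (j1 hx').2 (i1 hx).1]
      have e1 : wt w S ≤ wt w ((P ∩ S) ∪ (S \ P)) := wt_mono hw fun x hx => by
        by_cases e : x ∈ P
        · exact Or.inl ⟨e, hx⟩
        · exact Or.inr ⟨hx, e⟩
      have e2 := wt_union_le (S := P ∩ S) (T := S \ P) hw
      linarith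

/-- greedy bound by the maximum degree -/
theorem good_deg {D : ℝ} (hD : 0 ≤ D) : ∀ (n : ℕ) (S : Set V), S.ncard ≤ n →
    (∀ v ∈ S, (({u | G.Adj v u} : Set V).ncard : ℝ) ≤ D) → Good G S (D + 1) := by
  intro n
  induction n with
  | zero =>
    intro S h _
    rw [(Set.ncard_eq_zero (Set.toFinite S)).1 (by omega)]
    exact good_empty.le (by linarith)
  | succ n ih =>
    intro S h hS
    rcases S.eq_empty_or_nonempty with rfl | hne
    · exact good_empty.le (by linarith)
    refine good_of_exists (by linarith) fun w hw => ?_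
    obtain ⟨v, hv, hm⟩ := Set.exists_max_image S w (Set.toFinite S) hne
    have lt : ({u | u ∈ S ∧ u ≠ v ∧ ¬ G.Adj v u} : Set V).ncard < S.ncard :=
      Set.ncard_lt_ncard ⟨fun x hx => hx.1, fun e => (e hv).2.1 rfl⟩ (Set.toFinite S)
    obtain ⟨J, j1, j2, j3⟩ := (ih {u | u ∈ S ∧ u ≠ v ∧ ¬ G.Adj v u} (by omega)
      fun u hu => hS u hu.1).exists hw
    refine ⟨{v} ∪ J, Set.union_subset (Set.singleton_subset_iff.2 hv) fun x hx => (j1 hx).1,
      ?_, ?_⟩
    · rintro x (rfl | hx) y (rfl | hy)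
      · exact G.irrefl
      · exact (j1 hy).2.2
      · exact fun e => (j1 hx).2.2 e.symm
      · exact j2 x hx y hy
    · rw [wt_union (by rintro x rfl hx; exact (j1 hx).2.1 rfl), wt_single]
      have e1 : wt w S ≤ wt w (({v} ∪ {u | u ∈ S ∧ G.Adj v u}) ∪
          {u | u ∈ S ∧ u ≠ v ∧ ¬ G.Adj v u}) := wt_mono hw fun x hx => by
        by_cases e : x = v
        · exact Or.inl (Or.inl e)
        · by_cases e' : G.Adj v x
          · exact Or.inl (Or.inr ⟨hx, e'⟩)
          · exact Or.inr ⟨hx, e, e'⟩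
      have e2 := wt_union_le (S := {v} ∪ {u | u ∈ S ∧ G.Adj v u})
        (T := {u | u ∈ S ∧ u ≠ v ∧ ¬ G.Adj v u}) hw
      have e3 := wt_union_le (S := {v}) (T := {u | u ∈ S ∧ G.Adj v u}) hw
      have e4 : wt w {u | u ∈ S ∧ G.Adj v u} ≤ _ := wt_le_card (a := w v) fun u hu => hm u hu.1
      have e5 : (({u | u ∈ S ∧ G.Adj v u} : Set V).ncard : ℝ) ≤ D :=
        le_trans (Nat.cast_le.2 (Set.ncard_le_ncard (fun x hx => hx.2) (Set.toFinite _)))
          (hS v hv)
      have e6 := mul_le_mul_of_nonneg_right e5 (hw v)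
      rw [wt_single] at e3
      nlinarith [hw v]

theorem good_image {O : Set V} {T : Set O} (h : Good (G.induce O) T c) :
    Good G (Subtype.val '' T) c := by
  intro w hw a ha
  have e : ∀ I : Set O, wt (fun v : O => w v.1) I = wt w (Subtype.val '' I) := by
    intro I
    unfold wt
    rw [← Finset.sum_filter, ← Finset.sum_filter]
    refine Finset.sum_bij (fun v _ => v.1) ?_ (fun _ _ _ _ e => Subtype.ext e) ?_ fun _ _ => rfl
    · intro v hv
      simp only [Finset.mem_filter, Finset.mem_univ, true_and] at hv ⊢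
      exact ⟨v, hv, rfl⟩
    · intro v hv
      simp only [Finset.mem_filter, Finset.mem_univ, true_and] at hv
      obtain ⟨u, hu, rfl⟩ := hv
      exact ⟨u, by simpa using hu, rfl⟩
  have := h (fun v => w v.1) (fun v => hw v.1) a fun I hI0 hI => by
    rw [e]
    refine ha _ (Set.image_mono hI0) ?_
    rintro x ⟨x', hx, rfl⟩ y ⟨y', hy, rfl⟩
    exact hI x' hx y' hy
  rwa [e] at this

theorem good_induce {O : Set V} (h : Good (G.induce O) Set.univ c) : Good G O c := by
  have := good_image h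
  rwa [Set.image_univ, Subtype.range_coe] at this

theorem Bd.induce {O : Set V} {k : ℕ} (hb : Bd G O k) : Bd (G.induce O) Set.univ k := by
  intro K' _ hc'
  have := hb (K'.map (Function.Embedding.subtype _)) (by
    intro x hx
    obtain ⟨y, _, rfl⟩ := Finset.mem_map.1 hx
    exact y.2) (by
    intro a ha b hb' hab
    obtain ⟨x, hx, rfl⟩ := Finset.mem_map.1 ha
    obtain ⟨y, hy, rfl⟩ := Finset.mem_map.1 hb'
    exact hc' x hx y hy (fun e => hab (by rw [e])))
  simpa using this

theorem Bd.le {k k' : ℕ} (hb : Bd G T k) (h : k ≤ k') : Bd G T k' :=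
  fun K h1 h2 => (hb K h1 h2).trans h

/-- a set complete to a clique -/
theorem Bd.split {W W' : Set V} {n : ℕ} (hb : Bd G W n) {K : Finset V} (hK : ∀ x ∈ K, x ∈ W)
    (hc : FClq G K) (hW : W' ⊆ W) (he : ∀ x ∈ W', ∀ y ∈ K, G.Adj x y) :
    Bd G W' (n - K.card) := by
  intro L hL hcL
  have hd : Disjoint L K := Finset.disjoint_left.2 fun x hx hx' => G.irrefl (he x (hL x hx) x hx')
  have := hb (L ∪ K) (fun x hx => (Finset.mem_union.1 hx).elim (fun e => hW (hL x e)) (hK x)) (by
    intro x hx y hy hne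
    rcases Finset.mem_union.1 hx with hx | hx <;> rcases Finset.mem_union.1 hy with hy | hy
    · exact hcL x hx y hy hne
    · exact he x (hL x hx) y hy
    · exact (he y (hL y hy) x hx).symm
    · exact hc x hx y hy hne)
  rw [Finset.card_union_of_disjoint hd] at this
  omega

theorem Clq.ncard_le {Q : Set V} {k : ℕ} (h : Clq G Q) (hb : Bd G Q k) : Q.ncard ≤ k := by
  rw [Set.ncard_eq_toFinset_card' Q]
  exact hb _ (fun x hx => by simpa using hx) fun x hx y hy =>
    h x (by simpa using hx) y (by simpa using hy)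

end

end Pool.Agent.P.MP_08bb88_co
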