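import Pool.Agent.P.MP_08bb88_co.FcLoc

/-! A weighted hard-core (Shearer / Alon type) bound for cliques. -/

set_option autoImplicit false
set_option linter.unusedSectionVars false

namespace Pool.Agent.P.MP_08bb88_co

open Classical Finset

variable {V : Type} [Fintype V] {G : SimpleGraph V}

/-- non-neighbours -/
def Mn (G : SimpleGraph V) (x : V) : Set V := {y | y ≠ x ∧ ¬ G.Adj x y}

theorem mn_symm {x y : V} (h : y ∈ Mn G x) : x ∈ Mn G y := ⟨h.1.symm, fun e => h.2 e.symm⟩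

/-- weight of the ordered non-adjacent pairs in `T` -/
noncomputable def pw (G : SimpleGraph V) (w : V → ℝ) (T : Set V) : ℝ :=
  ∑ y, ∑ z, if y ∈ T ∧ z ∈ T ∧ y ≠ z ∧ ¬ G.Adj y z then w y * w z else 0

theorem pw_filter {w : V → ℝ} (hw : ∀ v, 0 ≤ w v) {T : Set V} {Y : Finset V} (hY : ∀ y ∈ Y, y ∈ T)
    (p : ℝ) : ∑ y ∈ Y, ∑ z ∈ Y, (if y ≠ z ∧ ¬ G.Adj y z then (p * w y) * (p * w z) else 0) ≤
      p ^ 2 * pw G w T := by
  have nn : ∀ y z, 0 ≤ p ^ 2 * (if y ∈ T ∧ z ∈ T ∧ y ≠ z ∧ ¬ G.Adj y z then w y * w z else 0) :=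
    fun y z => mul_nonneg (sq_nonneg p) (by
      split_ifs
      · exact mul_nonneg (hw y) (hw z)
      · exact le_rfl)
  unfold pw
  rw [mul_sum]
  refine le_trans (sum_le_sum fun y hy => ?_) (sum_le_sum_of_subset_of_nonneg (subset_univ Y)
    fun y _ _ => by rw [mul_sum]; exact sum_nonneg fun z _ => nn y z)
  rw [mul_sum]
  refine le_trans (sum_le_sum fun z hz => ?_) (sum_le_sum_of_subset_of_nonneg (subset_univ Y)
    fun z _ _ => nn y z)
  by_cases e : y ≠ z ∧ ¬ G.Adj y z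
  · rw [if_pos e, if_pos ⟨hY y hy, hY z hz, e⟩]
    exact le_of_eq (by ring)
  · rw [if_neg e]
    exact nn y z

theorem hc_fibre (S : Finset V) (l : V → ℝ) {x : V} (hx : x ∈ S) {S0 : Finset V}
    (h0 : S0 ∈ cl G (S.filter (G.Adj x ·))) (f : Finset V → ℝ) :
    ∑ I ∈ (cl G S).filter (fun I => I.filter (G.Adj x ·) = S0), (∏ v ∈ I, l v) * f I =
      (∏ v ∈ S0, l v) * (l x * f (insert x S0) +
        ∑ J ∈ cl G (S.filter fun y => y ∈ Mn G x ∧ ∀ s ∈ S0, G.Adj s y),
          (∏ v ∈ J, l v) * f (S0 ∪ J)) := by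
  obtain ⟨h1, h2⟩ := mem_cl.1 h0
  have h3 : ∀ s ∈ S0, s ∈ S ∧ G.Adj x s := fun s hs => mem_filter.1 (h1 hs)
  have hx0 : x ∉ S0 := fun e => G.irrefl (h3 x e).2
  rw [← sum_filter_add_sum_filter_not _ (fun I => x ∈ I), mul_add]
  congr 1
  · have : ((cl G S).filter (fun I => I.filter (G.Adj x ·) = S0)).filter (fun I => x ∈ I) =
        {insert x S0} := by
      ext I
      simp only [mem_filter, mem_cl, mem_singleton]
      constructor
      · rintro ⟨⟨⟨-, a2⟩, a3⟩, a4⟩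
        ext y
        rw [mem_insert, ← a3, mem_filter]
        constructor
        · intro hy
          by_cases e : y = x
          · exact Or.inl e
          · exact Or.inr ⟨hy, a2 x a4 y hy (Ne.symm e)⟩
        · rintro (rfl | hy)
          · exact a4
          · exact hy.1
      · rintro rfl
        refine ⟨⟨⟨insert_subset hx fun s hs => (h3 s hs).1, ?_⟩, ?_⟩, mem_insert_self _ _⟩
        · intro a ha b hb hne
          rcases mem_insert.1 ha with ha | ha <;> rcases mem_insert.1 hb with hb | hb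
          · exact (hne (ha.trans hb.symm)).elim
          · exact ha ▸ (h3 b hb).2
          · exact hb ▸ (h3 a ha).2.symm
          · exact h2 a ha b hb hne
        · rw [filter_insert, if_neg G.irrefl]
          exact filter_true_of_mem fun s hs => (h3 s hs).2
    rw [this, sum_singleton, prod_insert hx0]
    ring
  · rw [mul_sum]
    symm
    refine sum_nbij' (fun J => S0 ∪ J) (fun I => I.filter (¬ G.Adj x ·)) ?_ ?_ ?_ ?_ ?_
    · intro J hJ
      obtain ⟨a1, a2⟩ := mem_cl.1 hJ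
      have a3 : ∀ y ∈ J, y ∈ S ∧ y ∈ Mn G x ∧ ∀ s ∈ S0, G.Adj s y := fun y hy => mem_filter.1 (a1 hy)
      simp only [mem_filter, mem_cl]
      refine ⟨⟨⟨union_subset (fun s hs => (h3 s hs).1) fun y hy => (a3 y hy).1, ?_⟩, ?_⟩, ?_⟩
      · intro a ha b hb hne
        rcases mem_union.1 ha with ha | ha <;> rcases mem_union.1 hb with hb | hb
        · exact h2 a ha b hb hne
        · exact (a3 b hb).2.2 a ha
        · exact ((a3 a ha).2.2 b hb).symm
        · exact a2 a ha b hb hne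
      · rw [filter_union, filter_true_of_mem fun s hs => (h3 s hs).2,
          filter_false_of_mem fun y hy => (a3 y hy).2.1.2, union_empty]
      · intro e
        rcases mem_union.1 e with e | e
        · exact hx0 e
        · exact (a3 x e).2.1.1 rfl
    · intro I hI
      simp only [mem_filter, mem_cl] at hI
      obtain ⟨⟨⟨a1, a2⟩, a3⟩, a4⟩ := hI
      refine mem_cl.2 ⟨fun y hy => ?_, fun a ha b hb => a2 a (mem_filter.1 ha).1 b (mem_filter.1 hb).1⟩
      obtain ⟨b1, b2⟩ := mem_filter.1 hy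
      refine mem_filter.2 ⟨a1 b1, ⟨fun e => a4 (e ▸ b1), b2⟩, fun s hs => ?_⟩
      have hs' := hs
      rw [← a3] at hs'
      exact a2 s (mem_filter.1 hs').1 y b1 fun e => b2 (e ▸ (h3 s hs).2)
    · intro J hJ
      have a3 : ∀ y ∈ J, y ∈ Mn G x := fun y hy => (mem_filter.1 ((mem_cl.1 hJ).1 hy)).2.1
      rw [filter_union, filter_false_of_mem fun s hs => not_not.2 (h3 s hs).2,
        filter_true_of_mem fun y hy => (a3 y hy).2, empty_union]
    · intro I hI
      simp only [mem_filter, mem_cl] at hI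
      rw [← hI.1.2]
      exact filter_union_filter_not_eq _ _
    · intro J hJ
      have a3 : ∀ y ∈ J, y ∈ Mn G x := fun y hy => (mem_filter.1 ((mem_cl.1 hJ).1 hy)).2.1
      rw [prod_union (disjoint_left.2 fun s hs e => (a3 s e).2 (h3 s hs).2), mul_assoc]

theorem hc {S : Set V} {w : V → ℝ} (hw : ∀ v, 0 ≤ w v) (hw1 : ∀ v ∈ S, w v ≤ 1) {k : ℕ}
    (hk : Bd G S k) {d p : ℝ} {b : ℕ} (hd0 : 0 ≤ d) (hd : ∀ u ∈ S, wt w (S ∩ Mn G u) ≤ d)
    (hp0 : 0 ≤ p) (hp1 : p ≤ 1)
    (hcol : ∀ x ∈ S, ∃ col : V → Bool, ∀ c,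
      p ^ 2 * pw G w {y | y ∈ S ∩ Mn G x ∧ col y = c} ≤ 1 / 2)
    (hb : 8 * b * 4096 ^ b ≤ d * p) : b * wt w S ≤ 4 * d * k := by
  let Sf : Finset V := univ.filter (· ∈ S)
  have mS : ∀ v, v ∈ Sf ↔ v ∈ S := fun v => by simp [Sf]
  let l : V → ℝ := fun v => p * w v
  have hl : ∀ v, 0 ≤ l v := fun v => mul_nonneg hp0 (hw v)
  have hl1 : ∀ v ∈ S, l v ≤ 1 := fun v hv => mul_le_one₀ hp1 (hw v) (hw1 v hv)
  have pn : ∀ J : Finset V, 0 ≤ ∏ v ∈ J, l v := fun J => prod_nonneg fun v _ => hl v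
  have key : ∀ x ∈ Sf, 0 ≤ ∑ I ∈ cl G Sf, (∏ v ∈ I, l v) * ((if x ∈ I then d else 0) +
      w x * (I.filter (· ∈ Mn G x)).card - b / 2 * w x) := by
    intro x hx
    rw [← sum_fiberwise_of_maps_to (t := cl G (Sf.filter (G.Adj x ·)))
      (g := fun I => I.filter (G.Adj x ·)) (fun I hI => mem_cl.2
        ⟨filter_subset_filter _ (mem_cl.1 hI).1, fun a ha b hb =>
          (mem_cl.1 hI).2 a (mem_filter.1 ha).1 b (mem_filter.1 hb).1⟩)]
    refine sum_nonneg fun S0 h0 => ?_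
    rw [hc_fibre Sf l hx h0]
    refine mul_nonneg (pn _) ?_
    have h3 : ∀ s ∈ S0, G.Adj x s := fun s hs => (mem_filter.1 ((mem_cl.1 h0).1 hs)).2
    set X := Sf.filter fun y => y ∈ Mn G x ∧ ∀ s ∈ S0, G.Adj s y with hX
    have mX : ∀ y ∈ X, y ∈ S ∩ Mn G x := fun y hy =>
      ⟨(mS y).1 (mem_filter.1 hy).1, (mem_filter.1 hy).2.1⟩
    have e1 : (insert x S0).filter (· ∈ Mn G x) = ∅ := by
      refine filter_false_of_mem fun y hy e => ?_
      rcases mem_insert.1 hy with rfl | hy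
      · exact e.1 rfl
      · exact e.2 (h3 y hy)
    have e2 : ∀ J ∈ cl G X, (∏ v ∈ J, l v) * ((if x ∈ S0 ∪ J then d else 0) +
        w x * ((S0 ∪ J).filter (· ∈ Mn G x)).card - b / 2 * w x) =
        w x * ((∏ v ∈ J, l v) * J.card) - b / 2 * w x * ∏ v ∈ J, l v := by
      intro J hJ
      have a3 : ∀ y ∈ J, y ∈ Mn G x := fun y hy => (mX y ((mem_cl.1 hJ).1 hy)).2
      rw [if_neg (fun e => (mem_union.1 e).elim (fun e => G.irrefl (h3 x e)) fun e => (a3 x e).1 rfl),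
        filter_union, filter_false_of_mem fun s hs e => e.2 (h3 s hs), filter_true_of_mem a3,
        empty_union]
      ring
    rw [sum_congr rfl e2, sum_sub_distrib, ← mul_sum, ← mul_sum, if_pos (mem_insert_self _ _), e1]
    obtain ⟨col, hcl⟩ := hcol x ((mS x).1 hx)
    have m := loc_main (G := G) X l hl (fun v hv => hl1 v (mX v hv).1) col (fun c =>
      (pw_filter hw (T := {y | y ∈ S ∩ Mn G x ∧ col y = c})
        (fun y hy => ⟨mX y (mem_filter.1 hy).1, (mem_filter.1 hy).2⟩) p).trans (hcl c)) b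
    have z1 := loc_one (G := G) X l hl
    have y0 : 0 ≤ ∑ J ∈ cl G X, (∏ v ∈ J, l v) * J.card :=
      sum_nonneg fun J _ => mul_nonneg (pn J) (Nat.cast_nonneg _)
    set Z := ∑ J ∈ cl G X, ∏ v ∈ J, l v
    set Y := ∑ J ∈ cl G X, (∏ v ∈ J, l v) * J.card
    have b0 : (0 : ℝ) ≤ b := Nat.cast_nonneg b
    have m' : b * Z ≤ d * p + Y := by
      rcases m with m | m
      · linarith [mul_nonneg hd0 hp0]
      · linarith [mul_le_mul_of_nonneg_left m b0]
    have lx := hl1 x ((mS x).1 hx)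
    have m2 : b / 2 * l x ≤ b / 2 * Z := mul_le_mul_of_nonneg_left (lx.trans z1) (by linarith)
    have m3 : 0 ≤ w x * (d * p + Y - b / 2 * l x - b / 2 * Z) := mul_nonneg (hw x) (by linarith)
    simp only [card_empty, Nat.cast_zero, l] at m3 ⊢
    linarith
  have tot := sum_nonneg key
  rw [sum_comm] at tot
  have bound : ∀ I ∈ cl G Sf, ∑ x ∈ Sf, (∏ v ∈ I, l v) * ((if x ∈ I then d else 0) +
      w x * (I.filter (· ∈ Mn G x)).card - b / 2 * w x) ≤
      (∏ v ∈ I, l v) * (2 * d * k - b / 2 * wt w S) := by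
    intro I hI
    obtain ⟨a1, a2⟩ := mem_cl.1 hI
    rw [← mul_sum]
    refine mul_le_mul_of_nonneg_left ?_ (pn I)
    have c0 : (I.card : ℝ) ≤ k := Nat.cast_le.2 (hk I (fun x hx => (mS x).1 (a1 hx)) a2)
    have c1 : ∑ x ∈ Sf, (if x ∈ I then d else 0) = d * I.card := by
      rw [← sum_filter, filter_mem_eq_inter, inter_eq_right.2 a1, sum_const, nsmul_eq_mul, mul_comm]
    have c2 : ∑ x ∈ Sf, w x * ((I.filter (· ∈ Mn G x)).card : ℝ) ≤ d * I.card := by
      have : ∀ x ∈ Sf, w x * ((I.filter (· ∈ Mn G x)).card : ℝ) =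
          ∑ u ∈ I, if u ∈ Mn G x then w x else 0 := fun x _ => by
        rw [← sum_filter, sum_const, nsmul_eq_mul, mul_comm]
      rw [sum_congr rfl this, sum_comm, mul_comm, ← nsmul_eq_mul]
      refine sum_le_card_nsmul _ _ _ fun u hu => le_trans (le_of_eq ?_) (hd u ((mS u).1 (a1 hu)))
      unfold wt
      rw [sum_filter]
      refine sum_congr rfl fun x _ => ?_
      by_cases f1 : x ∈ S
      · by_cases f2 : u ∈ Mn G x
        · rw [if_pos f1, if_pos f2, if_pos ⟨f1, mn_symm f2⟩]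
        · rw [if_pos f1, if_neg f2, if_neg fun e => f2 (mn_symm e.2)]
      · rw [if_neg f1, if_neg fun e => f1 e.1]
    have c3 : ∑ x ∈ Sf, w x = wt w S := sum_filter _ _
    rw [sum_sub_distrib, sum_add_distrib, c1, ← mul_sum, c3]
    nlinarith
  have fin := tot.trans (sum_le_sum bound)
  rw [← sum_mul] at fin
  have z1 := loc_one (G := G) Sf l hl
  have := nonneg_of_mul_nonneg_right fin (by linarith)
  linarith

/-- no stable triple -/
def NoT (G : SimpleGraph V) (T : Set V) : Prop :=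
  ∀ a ∈ T, ∀ b ∈ T, ∀ c ∈ T, a ≠ b → a ≠ c → b ≠ c → G.Adj a b ∨ G.Adj a c ∨ G.Adj b c

/-- the off-diagonal Ramsey bound -/
theorem ramsey {T : Set V} (hT : NoT G T) {j k b : ℕ} (hj : Bd G T j) (hjk : j ≤ k)
    (hb : 8 * b * 4096 ^ b ≤ (k : ℝ)) : b * (T.ncard : ℝ) ≤ 4 * k * j := by
  have cq : ∀ u ∈ T, Clq G (T ∩ Mn G u) := fun u hu a ha c hc hne => by
    rcases hT u hu a ha.1 c hc.1 ha.2.1.symm hc.2.1.symm hne with e | e | e
    · exact (ha.2.2 e).elim
    · exact (hc.2.2 e).elim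
    · exact e
  rw [← wt_one]
  refine hc (p := 1) (fun _ => zero_le_one) (fun _ _ => le_rfl) hj (Nat.cast_nonneg k)
    (fun u hu => ?_) zero_le_one le_rfl (fun x hx => ⟨fun _ => true, fun c => ?_⟩) (by linarith)
  · rw [wt_one]
    exact Nat.cast_le.2 (((cq u hu).ncard_le (hj.mono Set.inter_subset_left)).trans hjk)
  · have : pw G (fun _ => (1 : ℝ)) {y | y ∈ T ∩ Mn G x ∧ true = c} = 0 :=
      sum_eq_zero fun y _ => sum_eq_zero fun z _ =>
        if_neg fun e => e.2.2.2 (cq x hx y e.1.1 z e.2.1.1 e.2.2.1)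
    rw [this]
    norm_num

end Pool.Agent.P.MP_08bb88_co
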