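import Pool.Agent.P.MP_08bb88_co.FcGood

/-! The local estimate for the hard-core model on the cliques of a graph. -/

set_option autoImplicit false
set_option linter.unusedSectionVars false

namespace Pool.Agent.P.MP_08bb88_co

open Classical Finset

variable {V : Type} [Fintype V] {G : SimpleGraph V}

/-- the cliques inside `X` -/
noncomputable def cl (G : SimpleGraph V) (X : Finset V) : Finset (Finset V) :=
  X.powerset.filter (FClq G)

theorem mem_cl {X J : Finset V} : J ∈ cl G X ↔ J ⊆ X ∧ FClq G J := by simp [cl]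

theorem loc_up (X : Finset V) (l : V → ℝ) (hl : ∀ v, 0 ≤ l v) :
    ∑ J ∈ cl G X, ∏ v ∈ J, l v ≤ Real.exp (∑ v ∈ X, l v) := by
  calc ∑ J ∈ cl G X, ∏ v ∈ J, l v ≤ ∑ J ∈ X.powerset, ∏ v ∈ J, l v :=
        sum_le_sum_of_subset_of_nonneg (filter_subset _ _) fun J _ _ =>
          prod_nonneg fun v _ => hl v
    _ = ∏ v ∈ X, (1 + l v) := (prod_one_add X).symm
    _ ≤ ∏ v ∈ X, Real.exp (l v) := prod_le_prod (fun v _ => by linarith [hl v]) fun v _ => by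
        linarith [Real.add_one_le_exp (l v)]
    _ = _ := (Real.exp_sum _ _).symm

theorem loc_one (X : Finset V) (l : V → ℝ) (hl : ∀ v, 0 ≤ l v) :
    1 ≤ ∑ J ∈ cl G X, ∏ v ∈ J, l v := by
  have h : (∅ : Finset V) ∈ cl G X := mem_cl.2 ⟨empty_subset _, by simp [FClq]⟩
  have := single_le_sum (f := fun J : Finset V => ∏ v ∈ J, l v)
    (fun J _ => prod_nonneg fun v _ => hl v) h
  simpa using this

theorem loc_pair (Y : Finset V) (l : V → ℝ) (hl : ∀ v, 0 ≤ l v) {y z : V} (hyz : y ≠ z) :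
    ∑ J ∈ Y.powerset, (if y ∈ J ∧ z ∈ J then ∏ v ∈ J, l v else 0) ≤
      l y * l z * ∑ J ∈ Y.powerset, ∏ v ∈ J, l v := by
  rw [← sum_filter]
  have e : ∀ J ∈ Y.powerset.filter (fun J => y ∈ J ∧ z ∈ J),
      ∏ v ∈ J, l v = l y * l z * ∏ v ∈ (J.erase y).erase z, l v := by
    intro J hJ
    obtain ⟨-, h1, h2⟩ := mem_filter.1 hJ
    rw [mul_assoc, mul_prod_erase _ l (mem_erase.2 ⟨hyz.symm, h2⟩), mul_prod_erase _ l h1]
  rw [sum_congr rfl e, ← mul_sum]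
  refine mul_le_mul_of_nonneg_left ?_ (mul_nonneg (hl y) (hl z))
  rw [← sum_image (f := fun J : Finset V => ∏ v ∈ J, l v)
    (g := fun J : Finset V => (J.erase y).erase z)]
  · refine sum_le_sum_of_subset_of_nonneg ?_ fun J _ _ => prod_nonneg fun v _ => hl v
    intro J hJ
    obtain ⟨I, hI, rfl⟩ := mem_image.1 hJ
    exact mem_powerset.2 (((erase_subset _ _).trans (erase_subset _ _)).trans
      (mem_powerset.1 (mem_filter.1 hI).1))
  · intro I hI J hJ e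
    obtain ⟨-, h1, h2⟩ := mem_filter.1 hI
    obtain ⟨-, h3, h4⟩ := mem_filter.1 hJ
    have e' : (I.erase y).erase z = (J.erase y).erase z := e
    rw [← insert_erase h1, ← insert_erase h3, ← insert_erase (mem_erase.2 ⟨hyz.symm, h2⟩),
      ← insert_erase (mem_erase.2 ⟨hyz.symm, h4⟩), e']

theorem exp_half_le {t : ℝ} (h0 : 0 ≤ t) (h1 : t ≤ 1) : Real.exp (t / 2) ≤ 1 + t := by
  have h2 := Real.add_one_le_exp (-(t / 2))
  have h3 : Real.exp (t / 2) * Real.exp (-(t / 2)) = 1 := by rw [← Real.exp_add]; simp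
  have h4 := Real.exp_pos (t / 2)
  have h5 : Real.exp (t / 2) * (1 - t / 2) ≤ 1 := by nlinarith
  by_contra h6
  push Not at h6
  nlinarith

theorem loc_low {X Y : Finset V} (hY : Y ⊆ X) (l : V → ℝ) (hl : ∀ v, 0 ≤ l v)
    (hl1 : ∀ v ∈ X, l v ≤ 1)
    (hp : ∑ y ∈ Y, ∑ z ∈ Y, (if y ≠ z ∧ ¬ G.Adj y z then l y * l z else 0) ≤ 1 / 2) :
    Real.exp ((∑ v ∈ Y, l v) / 2) ≤ 2 * ∑ J ∈ cl G X, ∏ v ∈ J, l v := by
  have pn : ∀ J : Finset V, 0 ≤ ∏ v ∈ J, l v := fun J => prod_nonneg fun v _ => hl v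
  have h1 : Real.exp ((∑ v ∈ Y, l v) / 2) ≤ ∑ J ∈ Y.powerset, ∏ v ∈ J, l v := by
    rw [sum_div, Real.exp_sum, ← prod_one_add]
    exact prod_le_prod (fun v _ => (Real.exp_pos _).le) fun v hv =>
      exp_half_le (hl v) (hl1 v (hY hv))
  have h2 : ∑ J ∈ cl G Y, ∏ v ∈ J, l v ≤ ∑ J ∈ cl G X, ∏ v ∈ J, l v :=
    sum_le_sum_of_subset_of_nonneg (fun J hJ =>
      mem_cl.2 ⟨(mem_cl.1 hJ).1.trans hY, (mem_cl.1 hJ).2⟩) fun J _ _ => pn J
  have h3 : ∀ J ∈ Y.powerset, ∏ v ∈ J, l v ≤ (if FClq G J then ∏ v ∈ J, l v else 0) +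
      ∑ y ∈ Y, ∑ z ∈ Y, (if y ≠ z ∧ ¬ G.Adj y z then
        (if y ∈ J ∧ z ∈ J then ∏ v ∈ J, l v else 0) else 0) := by
    intro J hJ
    have nn : ∀ y z, 0 ≤ (if y ≠ z ∧ ¬ G.Adj y z then
        (if y ∈ J ∧ z ∈ J then ∏ v ∈ J, l v else 0) else 0) := fun y z => by
      split_ifs
      · exact pn J
      · exact le_rfl
      · exact le_rfl
    by_cases hc : FClq G J
    · rw [if_pos hc]
      exact le_add_of_nonneg_right (sum_nonneg fun y _ => sum_nonneg fun z _ => nn y z)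
    · rw [if_neg hc, zero_add]
      unfold FClq at hc
      push Not at hc
      obtain ⟨y, hy, z, hz, hne, hn⟩ := hc
      refine le_trans ?_ (single_le_sum (fun y _ => sum_nonneg fun z _ => nn y z)
        (mem_powerset.1 hJ hy))
      refine le_trans ?_ (single_le_sum (fun z _ => nn y z) (mem_powerset.1 hJ hz))
      rw [if_pos ⟨hne, hn⟩, if_pos ⟨hy, hz⟩]
  have h4 := sum_le_sum h3
  rw [sum_add_distrib, ← sum_filter, sum_comm] at h4
  have h5 : ∑ y ∈ Y, ∑ J ∈ Y.powerset, ∑ z ∈ Y, (if y ≠ z ∧ ¬ G.Adj y z then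
        (if y ∈ J ∧ z ∈ J then ∏ v ∈ J, l v else 0) else 0) ≤
      (∑ y ∈ Y, ∑ z ∈ Y, (if y ≠ z ∧ ¬ G.Adj y z then l y * l z else 0)) *
        ∑ J ∈ Y.powerset, ∏ v ∈ J, l v := by
    rw [sum_mul]
    refine sum_le_sum fun y _ => ?_
    rw [sum_comm, sum_mul]
    refine sum_le_sum fun z _ => ?_
    by_cases e : y ≠ z ∧ ¬ G.Adj y z
    · simp only [if_pos e]
      exact loc_pair Y l hl e.1
    · simp only [if_neg e]
      simp
  have h6 := mul_le_mul_of_nonneg_right hp (sum_nonneg fun J (_ : J ∈ Y.powerset) => pn J)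
  have h7 : ∑ J ∈ cl G Y, ∏ v ∈ J, l v = ∑ J ∈ Y.powerset.filter (FClq G), ∏ v ∈ J, l v := rfl
  linarith

theorem pow_eighth (b j : ℕ) :
    (1 / 64 : ℝ) ^ b * (2 * b - j) ≤ 2 * b * (1 / 8 : ℝ) ^ j := by
  by_cases h : j ≤ 2 * b
  · have h1 : (1 / 64 : ℝ) ^ b ≤ (1 / 8 : ℝ) ^ j := by
      rw [show (1 / 64 : ℝ) = (1 / 8) ^ 2 by norm_num, ← pow_mul]
      exact pow_le_pow_of_le_one (by norm_num) (by norm_num) h
    have h2 : (0 : ℝ) ≤ (1 / 64 : ℝ) ^ b := by positivity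
    have h3 : (0 : ℝ) ≤ j := Nat.cast_nonneg j
    have h4 : (0 : ℝ) ≤ b := Nat.cast_nonneg b
    nlinarith
  · have h1 : (2 * b : ℝ) ≤ j := by exact_mod_cast (by omega : 2 * b ≤ j)
    have h2 : (0 : ℝ) ≤ (1 / 64 : ℝ) ^ b := by positivity
    have h3 : (0 : ℝ) ≤ 2 * b * (1 / 8 : ℝ) ^ j := by positivity
    nlinarith

theorem loc_main (X : Finset V) (l : V → ℝ) (hl : ∀ v, 0 ≤ l v) (hl1 : ∀ v ∈ X, l v ≤ 1)
    (col : V → Bool) (hp : ∀ c, ∑ y ∈ X.filter (col · = c), ∑ z ∈ X.filter (col · = c),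
      (if y ≠ z ∧ ¬ G.Adj y z then l y * l z else 0) ≤ 1 / 2) (b : ℕ) :
    b * ∑ J ∈ cl G X, ∏ v ∈ J, l v ≤ ∑ J ∈ cl G X, (∏ v ∈ J, l v) * J.card ∨
      ∑ J ∈ cl G X, ∏ v ∈ J, l v ≤ 8 * 4096 ^ b := by
  by_contra hcon
  push Not at hcon
  obtain ⟨h1, h2⟩ := hcon
  have pn : ∀ J : Finset V, 0 ≤ ∏ v ∈ J, l v := fun J => prod_nonneg fun v _ => hl v
  set Z := ∑ J ∈ cl G X, ∏ v ∈ J, l v with hZ
  have Z1 : 1 ≤ Z := loc_one X l hl
  have hb : (0 : ℝ) < b := by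
    have : 0 ≤ ∑ J ∈ cl G X, (∏ v ∈ J, l v) * J.card :=
      sum_nonneg fun J _ => mul_nonneg (pn J) (Nat.cast_nonneg _)
    by_contra e
    have : (b : ℝ) = 0 := le_antisymm (not_lt.1 e) (Nat.cast_nonneg b)
    rw [this] at h1
    linarith
  have h3 := loc_up (G := G) X (fun v => l v / 8) fun v => by linarith [hl v]
  have h4 : (1 / 64 : ℝ) ^ b * (2 * b * Z - ∑ J ∈ cl G X, (∏ v ∈ J, l v) * J.card) ≤
      2 * b * ∑ J ∈ cl G X, ∏ v ∈ J, l v / 8 := by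
    rw [hZ, mul_sum, ← sum_sub_distrib, mul_sum, mul_sum]
    refine sum_le_sum fun J _ => ?_
    have := mul_le_mul_of_nonneg_left (pow_eighth b J.card) (pn J)
    rw [prod_div_distrib, prod_const, div_eq_mul_one_div (∏ v ∈ J, l v), ← one_div_pow]
    linarith
  have a0 := loc_low (G := G) (filter_subset (col · = false) X) l hl hl1 (hp false)
  have a1 := loc_low (G := G) (filter_subset (col · = true) X) l hl hl1 (hp true)
  have e : Real.exp (∑ v ∈ X, l v / 8) ^ 4 =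
      Real.exp ((∑ v ∈ X.filter (col · = false), l v) / 2) *
        Real.exp ((∑ v ∈ X.filter (col · = true), l v) / 2) := by
    rw [← Real.exp_add, ← Real.exp_nat_mul, ← sum_div, ← add_div,
      ← sum_filter_add_sum_filter_not X (col · = false) l]
    simp only [Bool.not_eq_false]
    congr 1
    push_cast
    ring
  set E := Real.exp (∑ v ∈ X, l v / 8) with hE
  have E4 : E ^ 4 ≤ (2 * Z) * (2 * Z) := by
    rw [e]
    exact mul_le_mul a0 a1 (Real.exp_pos _).le (by linarith)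
  have q0 : (0 : ℝ) < (1 / 64 : ℝ) ^ b := by positivity
  have h5 : (1 / 64 : ℝ) ^ b * Z ≤ 2 * E := by
    have k1 : (1 / 64 : ℝ) ^ b * (b * Z) ≤
        (1 / 64 : ℝ) ^ b * (2 * b * Z - ∑ J ∈ cl G X, (∏ v ∈ J, l v) * J.card) :=
      mul_le_mul_of_nonneg_left (by linarith) q0.le
    have k2 := mul_le_mul_of_nonneg_left h3 (by positivity : (0 : ℝ) ≤ 2 * b)
    have k3 : b * ((1 / 64 : ℝ) ^ b * Z) ≤ b * (2 * E) := by linarith
    exact le_of_mul_le_mul_left k3 hb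
  have h6 : Z ≤ 64 ^ b * (2 * E) := by
    have := mul_le_mul_of_nonneg_left h5 (by positivity : (0 : ℝ) ≤ 64 ^ b)
    rwa [← mul_assoc, ← mul_pow, show (64 : ℝ) * (1 / 64) = 1 by norm_num, one_pow, one_mul] at this
  have h7 : Z ^ 4 ≤ (64 ^ b * (2 * E)) ^ 4 := pow_le_pow_left₀ (by linarith) h6 4
  have h8 : ((64 : ℝ) ^ b * (2 * E)) ^ 4 = (4096 ^ b) ^ 2 * 16 * E ^ 4 := by
    rw [show (4096 : ℝ) = 64 * 64 by norm_num, mul_pow 64 64 b]
    ring
  have q1 : (0 : ℝ) < 4096 ^ b := by positivity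
  have h9 : Z ^ 4 ≤ (8 * 4096 ^ b) ^ 2 * Z ^ 2 := by
    have := mul_le_mul_of_nonneg_left E4 (by positivity : (0 : ℝ) ≤ (4096 ^ b) ^ 2 * 16)
    nlinarith
  have h10 : (8 * 4096 ^ b) ^ 2 < Z ^ 2 := pow_lt_pow_left₀ h2 (by positivity) (by norm_num)
  have h11 : 0 < Z ^ 2 := by positivity
  nlinarith

end Pool.Agent.P.MP_08bb88_co
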