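import Pool.Agent.P.MP_08bb88_co.FcMod

/-! The fractional chromatic number of a fork-free graph is `O(ω² / log ω)`. -/

set_option autoImplicit false

namespace Pool.Agent.P.MP_08bb88_co

open Classical

theorem frac_log (V : Type) [Fintype V] (G : SimpleGraph V) (hf : FF G) (w : V → ℝ)
    (hw : ∀ v, 0 ≤ w v) : ∃ I : Finset V, G.IsIndepSet (I : Set V) ∧
      (∑ v, w v) * Real.log G.cliqueNum ≤ 2 ^ 150 * (G.cliqueNum : ℝ) ^ 2 * ∑ v ∈ I, w v := by
  have hk : Bd G Set.univ G.cliqueNum := fun K _ hc =>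
    SimpleGraph.IsClique.card_le_cliqueNum (tc := fun a ha b hb hab => hc a ha b hb hab)
  generalize G.cliqueNum = k at hk ⊢
  obtain ⟨I, -, h1, h2⟩ := (good_all (n := Nat.clog 2 k) _ V G k le_rfl hf hk
    (Nat.le_pow_clog (by norm_num) k)).exists hw
  have e1 : wt w Set.univ = ∑ v, w v := by simp [wt]
  have e2 : wt w I = ∑ v ∈ Finset.univ.filter (· ∈ I), w v := by rw [wt, Finset.sum_filter]
  refine ⟨Finset.univ.filter (· ∈ I), fun a ha b hb _ => h1 a (by simpa using ha) b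
    (by simpa using hb), ?_⟩
  rw [← e1, ← e2]
  have i0 : 0 ≤ wt w I := wt_nonneg hw
  rcases Nat.eq_zero_or_pos k with rfl | h0
  · simp
  have a1 : (2 : ℝ) ^ Nat.clog 2 k ≤ 2 * k := by exact_mod_cast two_pow_clog h0
  have a2 : (k : ℝ) ≤ 2 ^ Nat.clog 2 k := by exact_mod_cast Nat.le_pow_clog (by norm_num) k
  have kp : (0 : ℝ) < k := by exact_mod_cast h0
  have a3 : Real.log k ≤ (Nat.clog 2 k : ℝ) + 1 := by
    have b1 := Real.log_le_log kp a2
    rw [Real.log_pow] at b1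
    have b2 : Real.log 2 ≤ 1 := by
      have := Real.log_le_sub_one_of_pos (x := 2) (by norm_num)
      linarith
    nlinarith [Nat.cast_nonneg (α := ℝ) (Nat.clog 2 k)]
  have a4 : pot (Nat.clog 2 k) * ((Nat.clog 2 k : ℝ) + 1) = 2 ^ Nat.clog 2 k := by
    unfold pot
    field_simp
  calc wt w Set.univ * Real.log k ≤ wt w Set.univ * ((Nat.clog 2 k : ℝ) + 1) :=
        mul_le_mul_of_nonneg_left a3 (wt_nonneg hw)
    _ ≤ k * (2 ^ 149 * pot (Nat.clog 2 k)) * wt w I * ((Nat.clog 2 k : ℝ) + 1) :=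
        mul_le_mul_of_nonneg_right h2 (by positivity)
    _ = 2 ^ 149 * k * (pot (Nat.clog 2 k) * ((Nat.clog 2 k : ℝ) + 1)) * wt w I := by ring
    _ ≤ 2 ^ 149 * k * (2 * k) * wt w I := by rw [a4]; gcongr
    _ = _ := by ring

end Pool.Agent.P.MP_08bb88_co
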