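import Pool.Agent.P.MP_08bb88_co.FcPrime

/-! Reduction along modules. -/

set_option autoImplicit false
set_option linter.unusedSectionVars false

namespace Pool.Agent.P.MP_08bb88_co

open Classical

section
variable {V : Type} [Fintype V] {G : SimpleGraph V}

theorem mod_pieces (hf : FF G) {Y S : Set V} (hY : Modu G Y) (hw : ∃ w, w ∉ Y) {y1 y2 : V}
    (h1 : y1 ∈ Y) (h2 : y2 ∈ Y) (hne : y1 ≠ y2) (hn : ¬ G.Adj y1 y2)
    (hS : ∀ v ∈ S, v ∈ Y ∨ ∀ y ∈ Y, ¬ G.Adj v y) {c : ℝ} (hc : 0 ≤ c)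
    (h : ∀ D, Modu G D → (∃ w, w ∉ D) → (D ∩ S).Nonempty → Good G (D ∩ S) c) : Good G S c := by
  refine good_pieces hc _ S le_rfl fun v hv => ?_
  by_cases e : v ∈ Y
  · exact ⟨Y, e, h Y hY hw ⟨v, e, hv⟩, fun a ha b hb f g =>
      (hS b hb).resolve_left f a ha.1 g.symm⟩
  have vM : v ∈ {u | u ∉ Y ∧ ∀ y ∈ Y, ¬ G.Adj u y} := ⟨e, (hS v hv).resolve_left e⟩
  refine ⟨Cp G {u | u ∉ Y ∧ ∀ y ∈ Y, ¬ G.Adj u y} v, cp_self,
    h _ (fun w hw => ?_) ⟨y1, fun f => (cp_sub vM f).1 h1⟩ ⟨v, cp_self, hv⟩,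
    fun a ha b hb f g => ?_⟩
  · by_contra hc
    push Not at hc
    obtain ⟨⟨a, ha, e1⟩, b, hb, e2⟩ := hc
    obtain ⟨b, hb, a, ha, e2, e1, e3⟩ := cp_conn (fun t => G.Adj w t) b hb a ha e2 e1
    have am := (cp_sub vM ha).2
    have bm := (cp_sub vM hb).2
    have wY : w ∉ Y := fun f => bm w f e2.symm
    rcases hY w wY with f | f
    · exact fork hf hne e3.symm e2.symm (f y1 h1) (f y2 h2) (fun g => e1 g.symm) (am y1 h1)
        (am y2 h2) (bm y1 h1) (bm y2 h2) hn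
    · exact hw (cp_step hb e2.symm ⟨wY, f⟩)
  · have bY : b ∉ Y := fun i => (cp_sub vM ha.1).2 b i g
    exact f (cp_step ha.1 g ⟨bY, (hS b hb).resolve_left bY⟩)

/-- vertices with a non-neighbour inside a proper module -/
def Sig (G : SimpleGraph V) : Set V :=
  {v | ∃ Y, Modu G Y ∧ (∃ w, w ∉ Y) ∧ v ∈ Y ∧ ∃ u ∈ Y, u ≠ v ∧ ¬ G.Adj v u}

theorem good_sig (hf : FF G) {n : ℕ}
    (h : ∀ Y, Modu G Y → (∃ w, w ∉ Y) → ¬ Clq G Y → Bd G Y n) :
    ∀ (t : ℕ) (W : Set V), Bd G W t → Good G (W ∩ Sig G) (t * (n : ℝ) ^ 2) := by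
  intro t
  induction t with
  | zero =>
    intro W hW
    rw [hW.zero]
    simpa using good_empty
  | succ t ih =>
    intro W hW
    rcases (W ∩ Sig G).eq_empty_or_nonempty with e | ⟨v, hv, Y, hY, hw, vY, v', v'Y, hne, hn⟩
    · rw [e]
      exact good_empty.le (by positivity)
    have a1 := ih {u | u ∈ W ∧ G.Adj u v} (by
      have := hW.split (K := {v}) (W' := {u | u ∈ W ∧ G.Adj u v}) (by simpa using hv)
        (by intro a ha b hb hab; simp_all) (fun u hu => hu.1) (by simp)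
      simpa using this)
    have a2 := mod_pieces hf (S := {u | u ∈ Sig G ∧ (u ∈ Y ∨ ∀ y ∈ Y, ¬ G.Adj u y)}) hY hw vY v'Y
      hne.symm hn (fun u hu => hu.2) (sq_nonneg (n : ℝ)) fun D hD hDw ⟨u, uD, uS⟩ => by
        refine good_sq hf _ _ (Bd.mono ?_ Set.inter_subset_left)
        by_cases e : Clq G D
        · obtain ⟨Z, hZ, hZw, uZ, u', u'Z, d1, d2⟩ := uS.1
          refine (h Z hZ hZw fun f => d2 (f u uZ u' u'Z d1.symm)).mono fun d hd => ?_
          by_contra dZ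
          have du : G.Adj d u := e d hd u uD (by rintro rfl; exact dZ uZ)
          have du' : G.Adj d u' := (hZ d dZ).resolve_right (fun f => f u uZ du) u' u'Z
          rcases hD u' (fun f => d2 (e u uD u' f d1.symm)) with f | f
          · exact d2 (f u uD).symm
          · exact f d hd du'.symm
        · exact h D hD hDw e
    refine (a1.cover a2 fun u hu => ?_).le (le_of_eq (by push_cast; ring))
    by_cases e : u ∈ Y
    · exact Or.inr ⟨hu.2, Or.inl e⟩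
    · rcases hY u e with f | f
      · exact Or.inl ⟨⟨hu.1, f v vY⟩, hu.2⟩
      · exact Or.inr ⟨hu.2, Or.inr f⟩

/-- shrinking a module to one vertex creates no new vertex of `Sig` -/
theorem sig_lift {Y : Set V} (hY : Modu G Y) {a : V} (ha : a ∈ Y) {v : {u | u ∉ Y ∨ u = a}}
    (hv : v ∈ Sig (G.induce {u | u ∉ Y ∨ u = a})) : v.1 ∈ Sig G := by
  obtain ⟨Z, hZ, ⟨w0, hw0⟩, vZ, u, uZ, d1, d2⟩ := hv
  let r : V → {u | u ∉ Y ∨ u = a} := fun t =>
    if h : t ∈ Y then ⟨a, Or.inr rfl⟩ else ⟨t, Or.inl h⟩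
  have r1 : ∀ t, t ∈ Y → (r t).1 = a := fun t h => by simp only [r, dif_pos h]
  have r2 : ∀ t, t ∉ Y → (r t).1 = t := fun t h => by simp only [r, dif_neg h]
  have r3 : ∀ t : {u | u ∉ Y ∨ u = a}, r t.1 = t := fun t => Subtype.ext (by
    rcases t.2 with e | e
    · exact r2 _ e
    · have e' : t.1 ∈ Y := by rw [e]; exact ha
      rw [r1 _ e', e])
  have r4 : ∀ s t, s ∉ Y → t ∈ Y → (G.Adj s t ↔ G.Adj s a) := fun s t hs ht =>
    (hY s hs).elim (fun f => iff_of_true (f t ht) (f a ha))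
      fun f => iff_of_false (f t ht) (f a ha)
  have r5 : ∀ s t, r s ≠ r t → (G.Adj s t ↔ G.Adj (r s).1 (r t).1) := fun s t hne => by
    by_cases hs : s ∈ Y <;> by_cases ht : t ∈ Y
    · exact (hne (Subtype.ext ((r1 s hs).trans (r1 t ht).symm))).elim
    · rw [r1 s hs, r2 t ht, G.adj_comm, r4 t s ht hs, G.adj_comm]
    · rw [r2 s hs, r1 t ht, r4 s t hs ht]
    · rw [r2 s hs, r2 t ht]
  refine ⟨{t | r t ∈ Z}, fun w hw => ?_, ⟨w0.1, fun e => hw0 (r3 w0 ▸ e)⟩,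
    show r v.1 ∈ Z from (r3 v).symm ▸ vZ, u.1, show r u.1 ∈ Z from (r3 u).symm ▸ uZ,
    fun e => d1 (Subtype.ext e), d2⟩
  have ne : ∀ y, r y ∈ Z → r w ≠ r y := fun y hy e => hw (show r w ∈ Z from e ▸ hy)
  exact (hZ (r w) hw).imp (fun f y hy => (r5 w y (ne y hy)).2 (f _ hy))
    fun f y hy e => f _ hy ((r5 w y (ne y hy)).1 e)

end

theorem good_nsig {n k : ℕ} (hn : k ≤ 2 ^ n) : ∀ (N : ℕ) (V : Type) [Fintype V]
    (G : SimpleGraph V), Fintype.card V ≤ N → FF G → Bd G Set.univ k →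
      Good G {v | v ∉ Sig G} (k * (2 ^ 148 * pot n)) := by
  intro N
  induction N using Nat.strong_induction_on with
  | _ N ih =>
  intro V _ G hN hf hk
  have ih' : ∀ O : Set V, (∃ w, w ∉ O) → Good G (Subtype.val '' {v : O | v ∉ Sig (G.induce O)})
      (k * (2 ^ 148 * pot n)) := by
    rintro O ⟨w, hw⟩
    have hlt : Fintype.card O < Fintype.card V := Fintype.card_subtype_lt (x := w) hw
    exact good_image (ih _ (by omega) O (G.induce O) le_rfl (hf.induce O)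
      (hk.mono (Set.subset_univ _)).induce)
  by_cases hP : Prm G
  · exact (good_prime hf hP hk hn).mono (Set.subset_univ _)
  unfold Prm Clq at hP
  push Not at hP
  obtain ⟨Y, hY, hw, a, ha, b, hb, hab, e⟩ := hP
  let Y0 : Set V := {v | v ∈ Y ∧ ∃ u ∈ Y, u ≠ v ∧ ¬ G.Adj v u}
  have m0 : Modu G Y0 := fun w hw0 => by
    by_cases f : w ∈ Y
    · refine Or.inl fun y hy => ?_
      by_contra g
      exact hw0 ⟨f, y, hy.1, by rintro rfl; exact hw0 hy, g⟩
    · exact (hY w f).imp (fun g y hy => g y hy.1) fun g y hy => g y hy.1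
  have a0 : a ∈ Y0 := ⟨ha, b, hb, hab.symm, e⟩
  have b0 : b ∉ {u | u ∉ Y0 ∨ u = a} := fun f =>
    f.elim (fun g => g ⟨hb, a, ha, hab, fun i => e i.symm⟩) hab.symm
  refine (ih' _ ⟨b, b0⟩).mono fun v hv => ?_
  have v0 : v ∈ {u | u ∉ Y0 ∨ u = a} := Or.inl fun f => hv ⟨Y, hY, hw, f⟩
  exact ⟨⟨v, v0⟩, fun f => hv (sig_lift (v := ⟨v, v0⟩) m0 a0 f), rfl⟩

theorem sq_le_pot (n : ℕ) : (n : ℝ) ^ 2 ≤ 5 * pot n := by
  have key : ∀ t : ℕ, (t + 4) ^ 2 * (t + 5) ≤ 5 * 2 ^ (t + 4) := by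
    intro t
    induction t with
    | zero => norm_num
    | succ t ih =>
      have : (t + 1 + 4) ^ 2 * (t + 1 + 5) ≤ 2 * ((t + 4) ^ 2 * (t + 5)) := by
        nlinarith [Nat.zero_le t, Nat.zero_le (t ^ 2), Nat.zero_le (t ^ 3)]
      rw [show t + 1 + 4 = t + 4 + 1 by ring, pow_succ 2 (t + 4)] at *
      omega
  unfold pot
  rw [← mul_div_assoc, le_div_iff₀ (by positivity)]
  have : n ^ 2 * (n + 1) ≤ 5 * 2 ^ n := by
    rcases Nat.lt_or_ge n 4 with e | e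
    · interval_cases n <;> norm_num
    · obtain ⟨t, rfl⟩ : ∃ t, n = t + 4 := ⟨n - 4, by omega⟩
      exact key t
  exact_mod_cast this

theorem good_all {n : ℕ} : ∀ (N : ℕ) (V : Type) [Fintype V] (G : SimpleGraph V) (k : ℕ),
    Fintype.card V ≤ N → FF G → Bd G Set.univ k → k ≤ 2 ^ n →
      Good G Set.univ (k * (2 ^ 149 * pot n)) := by
  intro N
  induction N using Nat.strong_induction_on with
  | _ N ihn =>
  intro V _ G k hN hf hk hn
  have p0 : 0 ≤ pot n := by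
    unfold pot
    positivity
  have ih : ∀ O : Set V, (∃ w, w ∉ O) → ∀ j, j ≤ k → Bd G O j →
      Good G O (j * (2 ^ 149 * pot n)) := by
    rintro O ⟨w, hw⟩ j hj hO
    have hlt : Fintype.card O < Fintype.card V := Fintype.card_subtype_lt (x := w) hw
    exact good_induce (ihn _ (by omega) O (G.induce O) j le_rfl (hf.induce O) hO.induce
      (hj.trans hn))
  by_cases hB : ∀ Y, Modu G Y → (∃ w, w ∉ Y) → ¬ Clq G Y → Bd G Y n
  · refine ((good_nsig hn _ V G le_rfl hf hk).cover (good_sig hf hB k _ hk) fun v _ => ?_).le ?_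
    · by_cases e : v ∈ Sig G
      · exact Or.inr ⟨trivial, e⟩
      · exact Or.inl e
    · rw [← mul_add]
      refine mul_le_mul_of_nonneg_left ?_ (Nat.cast_nonneg k)
      have := sq_le_pot n
      nlinarith
  unfold Bd at hB
  push Not at hB
  obtain ⟨Y0, m0, w0, c0, K0, i0, q0, l0⟩ := hB
  have : Nonempty {K : Finset V // FClq G K ∧
      ∃ Y, Modu G Y ∧ (∃ w, w ∉ Y) ∧ ¬ Clq G Y ∧ ∀ x ∈ K, x ∈ Y} :=
    ⟨⟨K0, q0, Y0, m0, w0, c0, i0⟩⟩
  obtain ⟨⟨K, k1, Y, hY, hw, hc, k2⟩, hmax⟩ := Finite.exists_max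
    (fun K : {K : Finset V // FClq G K ∧
      ∃ Y, Modu G Y ∧ (∃ w, w ∉ Y) ∧ ¬ Clq G Y ∧ ∀ x ∈ K, x ∈ Y} => K.1.card)
  have l1 : K0.card ≤ K.card := hmax ⟨K0, q0, Y0, m0, w0, c0, i0⟩
  have jk := hk K (fun _ _ => trivial) k1
  unfold Clq at hc
  push Not at hc
  obtain ⟨y1, h1, y2, h2, hne, e⟩ := hc
  have a1 := ih {u | u ∉ Y ∧ ∀ y ∈ Y, G.Adj u y} ⟨y1, fun f => f.1 h1⟩ (k - K.card) (by omega)
    (hk.split (fun _ _ => trivial) k1 (Set.subset_univ _) fun x hx y hy => hx.2 y (k2 y hy))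
  have a2 := mod_pieces hf (S := {u | u ∈ Y ∨ ∀ y ∈ Y, ¬ G.Adj u y}) hY hw h1 h2 hne e
    (fun u hu => hu) (c := K.card * (2 ^ 149 * pot n)) (by positivity) fun D hD hDw _ => by
      refine Good.mono ?_ Set.inter_subset_left
      by_cases f : Clq G D
      · refine (f.perf.good (hk.mono (Set.subset_univ _))).le ?_
        have b1 : (k : ℝ) ≤ 2 ^ n := by exact_mod_cast hn
        have b2 : (n : ℝ) + 1 ≤ K.card := by exact_mod_cast (show n + 1 ≤ K.card by omega)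
        have b3 : ((n : ℝ) + 1) * pot n = 2 ^ n := by
          unfold pot
          field_simp
        have b4 := mul_le_mul_of_nonneg_right b2 p0
        have b5 : 0 ≤ (K.card : ℝ) * pot n := by positivity
        nlinarith
      · exact ih D hDw _ jk fun J j1 j2 => hmax ⟨J, j2, D, hD, hDw, f, j1⟩
  refine (a1.cover a2 fun u _ => ?_).le (le_of_eq (by rw [Nat.cast_sub jk]; ring))
  by_cases f : u ∈ Y
  · exact Or.inr (Or.inl f)
  · exact (hY u f).imp (fun g => ⟨f, g⟩) Or.inr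

end Pool.Agent.P.MP_08bb88_co
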