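import Pool.Agent.P.MP_08bb88_co.FcTw

/-! The structure around a claw centre of a fork-free graph without non-clique modules. -/

set_option autoImplicit false
set_option linter.unusedSectionVars false

namespace Pool.Agent.P.MP_08bb88_co

open Classical

variable {V : Type} [Fintype V] {G : SimpleGraph V}

theorem node_ext {v : V} {X0 : Set V} (h1 : X0 ⊆ Mn G v) (h2 : Conn G X0) (h3 : CoConn G X0)
    {a b : V} (ha : a ∈ X0) (hb : b ∈ X0) (hab : a ≠ b) : ∃ X, X0 ⊆ X ∧ Node G v X := by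
  obtain ⟨X, ⟨k0, k1, k2, k3⟩, hmax⟩ := exists_maxset
    (fun X => X0 ⊆ X ∧ X ⊆ Mn G v ∧ Conn G X ∧ CoConn G X) ⟨le_rfl, h1, h2, h3⟩
  refine ⟨X, k0, fun x hx => k1 hx, k2, k3, ?_, ?_⟩
  · obtain ⟨p, hp, q, hq, e1, e2, e3⟩ := k3 (fun x => x = a) a (k0 ha) b (k0 hb) rfl hab.symm
    exact ⟨p, hp, q, hq, by rw [e1]; exact Ne.symm e2, e3⟩
  · intro w hw hwv hvw
    by_contra hc
    push Not at hc
    obtain ⟨⟨q, hq, e1⟩, p, hp, e2⟩ := hc
    refine hmax w hw ⟨k0.trans (Set.subset_insert _ _), ?_, k2.insert hp e2, k3.insert hq e1⟩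
    rintro x (rfl | hx)
    · exact ⟨hwv, hvw⟩
    · exact k1 hx

theorem perf_of_parts {M : Set V} (h : ∀ X ⊆ M, Conn G X → CoConn G X → Perf G X) :
    Perf G M := by
  have key : ∀ n, ∀ T ⊆ M, T.ncard ≤ n → Perf G T := by
    intro n
    induction n with
    | zero =>
      intro T _ hT
      have : T = ∅ := (Set.ncard_eq_zero (Set.toFinite T)).1 (by omega)
      subst this
      exact Clq.perf (fun x hx => hx.elim)
    | succ n ih =>
      intro T hTM hT
      have part : ∀ P : V → Prop, ∀ a ∈ T, ∀ b ∈ T, P a → ¬ P b →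
          Perf G {x | x ∈ T ∧ P x} ∧ Perf G {x | x ∈ T ∧ ¬ P x} := by
        intro P a ha b hb pa pb
        have l1 : {x | x ∈ T ∧ P x}.ncard < T.ncard :=
          Set.ncard_lt_ncard ⟨fun x hx => hx.1, fun e => pb (e hb).2⟩ (Set.toFinite T)
        have l2 : {x | x ∈ T ∧ ¬ P x}.ncard < T.ncard :=
          Set.ncard_lt_ncard ⟨fun x hx => hx.1, fun e => (e ha).2 pa⟩ (Set.toFinite T)
        exact ⟨ih _ (fun x hx => hTM hx.1) (by omega), ih _ (fun x hx => hTM hx.1) (by omega)⟩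
      have cov : ∀ P : V → Prop, T ⊆ {x | x ∈ T ∧ P x} ∪ {x | x ∈ T ∧ ¬ P x} := by
        intro P x hx
        by_cases e : P x
        · exact Or.inl ⟨hx, e⟩
        · exact Or.inr ⟨hx, e⟩
      by_cases c1 : Conn G T
      · by_cases c2 : CoConn G T
        · exact h T hTM c1 c2
        · unfold CoConn at c2
          push Not at c2
          obtain ⟨P, a, ha, b, hb, pa, pb, e⟩ := c2
          obtain ⟨p1, p2⟩ := part P a ha b hb pa pb
          exact (p1.join p2 (fun x hx y hy => e x hx.1 y hy.1 hx.2 hy.2)).mono (cov P)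
      · unfold Conn at c1
        push Not at c1
        obtain ⟨P, a, ha, b, hb, pa, pb, e⟩ := c1
        obtain ⟨p1, p2⟩ := part P a ha b hb pa pb
        exact (p1.glue p2 (fun x hx => (hx.2.2 hx.1.2).elim)
          (fun x hx y hy f => (e x hx.1 y hy.1 hx.2 hy.2 f).elim)).mono (cov P)
  exact key _ M le_rfl le_rfl

theorem perf_mn {v : V} (h : ∀ X, Node G v X → Cob G X) : Perf G (Mn G v) := by
  refine perf_of_parts fun X h1 h2 h3 => ?_
  by_cases e : ∀ a ∈ X, ∀ b ∈ X, a = b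
  · exact Clq.perf fun a ha b hb hne => (hne (e a ha b hb)).elim
  · push Not at e
    obtain ⟨a, ha, b, hb, hab⟩ := e
    obtain ⟨Y, k1, k2⟩ := node_ext h1 h2 h3 ha hb hab
    exact (h Y k2).perf.mono k1

/-- an induced path on four vertices among the non-neighbours lies in a node -/
theorem p4_node {x a b c d : V} (ha : a ∈ Mn G x) (hb : b ∈ Mn G x) (hc : c ∈ Mn G x)
    (hd : d ∈ Mn G x) (ab : G.Adj a b) (bc : G.Adj b c) (cd : G.Adj c d) (ac : ¬ G.Adj a c)
    (ad : ¬ G.Adj a d) (bd : ¬ G.Adj b d) : ∃ X, Node G x X ∧ d ∈ X := by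
  have c0 : Conn G {a} := by
    rintro P _ rfl _ rfl pa pb
    exact (pb pa).elim
  have c1 : Conn G (insert d (insert c (insert b {a}))) :=
    ((c0.insert (z := a) rfl ab.symm).insert (z := b) (by simp) bc.symm).insert (z := c)
      (by simp) cd.symm
  have c2 : CoConn G (insert b (insert d {a, c})) :=
    ((coconn_pair ac).insert (z := a) (by simp) fun e => ad e.symm).insert (z := d) (by simp) bd
  have e : (insert b (insert d {a, c}) : Set V) = insert d (insert c (insert b {a})) := by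
    ext t
    simp only [Set.mem_insert_iff, Set.mem_singleton_iff]
    tauto
  rw [e] at c2
  obtain ⟨X, k1, k2⟩ := node_ext (v := x) (by
    rintro t (rfl | rfl | rfl | rfl) <;> assumption) c1 c2 (a := a) (b := b) (by simp) (by simp)
    ab.ne
  exact ⟨X, k2, k1 (by simp)⟩

section
variable (hf : FF G) (hP : Prm G) {v : V} {X : Set V} (N : Node G v X)
include hf hP N

theorem Node.cl {m p q : V} (hm : cM G v X m) (hp : p ∈ X) (hq : q ∈ X) (e1 : G.Adj m p)
    (e2 : G.Adj m q) (hne : p ≠ q) : G.Adj p q := by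
  obtain ⟨a, -, d, hd, e⟩ := hm
  exact N.L1 hf hP a hd e hp hq e1 e2 hne

theorem Node.mixed : ∃ m, cM G v X m := by
  obtain ⟨m, hvm, q0, hq0, p0, hp0, m1, m2, -⟩ := N.exists_mixed hP
  exact ⟨m, hvm, ⟨q0, hq0, m1⟩, p0, hp0, m2⟩

theorem Node.cob {m : V} (hm : cM G v X m) (hD : cD G X m) : Cob G X := by
  refine ⟨{x | x ∈ X ∧ G.Adj m x}, {x | x ∈ X ∧ ¬ G.Adj m x},
    fun x hx y hy hne => N.cl hf hP hm hx.1 hy.1 hx.2 hy.2 hne,
    fun x hx y hy hne => hD x hx.1 y hy.1 hx.2 hy.2 hne, fun x hx => ?_⟩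
  by_cases e : G.Adj m x
  · exact Or.inl ⟨hx, e⟩
  · exact Or.inr ⟨hx, e⟩

theorem Node.hasU (hv : Ctr G v) : ∃ u, cU G v X u := by
  obtain ⟨p, q, r, h1, h2, h3, d1, d2, d3, n1, n2, n3⟩ := hv
  exact N.F1 hf hP h1 h2 h3 n1 n2 n3 d1 d2 d3

theorem Node.nA0 (hv : Ctr G v) (w : V) : ¬ cA0 G v X w := by
  obtain ⟨u, hu⟩ := N.hasU hf hP hv
  obtain ⟨m, hm⟩ := N.mixed hf hP
  exact N.f9 hf hP hu hm

theorem Node.mn (hv : Ctr G v) {w : V} (hw : w ∈ Mn G v) : w ∈ X ∨ cT G v X w := by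
  rcases N.classify w with e | e | e | e | e | e | e
  · exact (hw.1 e).elim
  · exact Or.inl e
  · exact (hw.2 e.1).elim
  · exact Or.inr e
  · exact (hw.2 e.1).elim
  · exact (N.nA0 hf hP hv w e).elim
  · exact (hw.2 e.1).elim

theorem Node.closed (hv : Ctr G v) {y z : V} (hy : y ∈ X) (hz : z ∈ Mn G v) (n : ¬ G.Adj y z) :
    z ∈ X :=
  (N.mn hf hP hv hz).resolve_right fun e => n (e.2.2 y hy).symm

end

/-- the third case: no mixed vertex has a clique of non-neighbours in the node -/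
structure C3 (G : SimpleGraph V) (v : V) (X : Set V) : Prop where
  nd : Node G v X
  ctr : Ctr G v
  nD : ∀ m, cM G v X m → ¬ cD G X m

/-- the part of the graph which is complete to `cU` -/
def cR (G : SimpleGraph V) (v : V) (X : Set V) (w : V) : Prop :=
  w = v ∨ w ∈ X ∨ cA1 G v X w ∨ cM G v X w

section
variable (hf : FF G) (hP : Prm G) {v : V} {X : Set V} (h : C3 G v X)
include hf hP h

theorem C3.um {u m : V} (hu : cU G v X u) (hm : cM G v X m) : G.Adj u m := by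
  by_contra e
  refine h.nD m hm (h.nd.f2 hf hu hm.1 e ?_)
  rintro rfl
  obtain ⟨-, -, r, hr, f⟩ := hm
  exact f (hu.2 r hr)

theorem C3.ur {u w : V} (hu : cU G v X u) (hw : cR G v X w) : G.Adj u w := by
  rcases hw with rfl | e | e | e
  · exact hu.1.symm
  · exact hu.2 w e
  · exact h.nd.f2' hf hu e
  · exact h.um hf hP hu e

theorem C3.tm {t m : V} (ht : cT G v X t) (hm : cM G v X m) : ¬ G.Adj t m :=
  fun e => h.nD m hm (h.nd.f3 hf ht hm.1 e)

theorem C3.tclq : Clq G {t | cT G v X t} := by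
  intro t ht t' ht' hne
  obtain ⟨m, hm⟩ := h.nd.mixed hf hP
  have e1 := h.tm hf hP ht hm
  have e2 := h.tm hf hP ht' hm
  obtain ⟨a, ⟨q, hq, e⟩, -⟩ := hm
  by_contra n
  exact fork hf hne a e (ht.2.2 q hq).symm (ht'.2.2 q hq).symm (h.nd.nv q hq).2 ht.2.1 ht'.2.1
    (fun f => e1 f.symm) (fun f => e2 f.symm) n

theorem C3.cover (w : V) : cR G v X w ∨ cU G v X w ∨ cT G v X w := by
  rcases h.nd.classify w with e | e | e | e | e | e | e
  · exact Or.inl (Or.inl e)
  · exact Or.inl (Or.inr (Or.inl e))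
  · exact Or.inr (Or.inl e)
  · exact Or.inr (Or.inr e)
  · exact Or.inl (Or.inr (Or.inr (Or.inl e)))
  · exact (h.nd.nA0 hf hP h.ctr w e).elim
  · exact Or.inl (Or.inr (Or.inr (Or.inr e)))

theorem C3.un : ∃ u n, cU G v X u ∧ cT G v X n ∧ ¬ G.Adj u n := by
  obtain ⟨u0, hu0⟩ := h.nd.hasU hf hP h.ctr
  obtain ⟨m, hm⟩ := h.nd.mixed hf hP
  obtain ⟨u, n, hu, hn, hc⟩ := h.nd.f7 hf hP hu0 hm
  exact ⟨u, n, hu, hc.resolve_right fun e => hn (h.um hf hP hu e), hn⟩

theorem C3.g1 {q m x y : V} (hq : q ∈ X) (hm : cM G v X m) (e : G.Adj m q) (hx : x ∈ X)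
    (hy : y ∈ X) (qx : q ≠ x) (qy : q ≠ y) (nx : ¬ G.Adj q x) (ny : ¬ G.Adj q y) (hne : x ≠ y) :
    G.Adj x y := by
  obtain ⟨u, n, -, hn, -⟩ := h.un hf hP
  by_contra f
  exact fork hf hne e (hn.2.2 q hq).symm (hn.2.2 x hx) (hn.2.2 y hy)
    (fun g => h.tm hf hP hn hm g.symm) (fun g => nx (h.nd.cl hf hP hm hq hx e g qx))
    (fun g => ny (h.nd.cl hf hP hm hq hy e g qy)) nx ny f

theorem C3.notX : NoT G X := by
  intro a ha b hb c hc ab ac bc
  by_contra hn
  push Not at hn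
  obtain ⟨n1, n2, n3⟩ := hn
  obtain ⟨m, hm⟩ := h.nd.mixed hf hP
  have ma : ¬ G.Adj m a := fun e => n3 (h.g1 hf hP ha hm e hb hc ab ac n1 n2 bc)
  have mb : ¬ G.Adj m b := fun e =>
    n2 (h.g1 hf hP hb hm e ha hc ab.symm bc (fun f => n1 f.symm) n3 ac)
  have mc : ¬ G.Adj m c := fun e =>
    n1 (h.g1 hf hP hc hm e ha hb ac.symm bc.symm (fun f => n2 f.symm) (fun f => n3 f.symm) ab)
  obtain ⟨w, hw, e⟩ := hm.2.1
  have g1 : ∀ x ∈ X, ∀ y ∈ X, ¬ G.Adj m x → ¬ G.Adj m y → x ≠ y → ¬ G.Adj x y →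
      (G.Adj w x ↔ ¬ G.Adj w y) := by
    intro x hx y hy mx my hne n
    refine ⟨fun f g => fork hf hne hm.1 e f g (h.nd.nv w hw).2 (h.nd.nv x hx).2 (h.nd.nv y hy).2
      mx my n, fun g => ?_⟩
    by_contra f
    exact n (h.g1 hf hP hw hm e hx hy (by rintro rfl; exact mx e) (by rintro rfl; exact my e)
      f g hne)
  have := g1 a ha b hb ma mb ab n1
  have := g1 a ha c hc ma mc ac n2
  have := g1 b hb c hc mb mc bc n3
  tauto

theorem C3.notA : NoT G {w | cA1 G v X w ∨ cM G v X w} := by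
  obtain ⟨u, n, hu, hn, un⟩ := h.un hf hP
  obtain ⟨q, hq, p, hp, qp, nqp⟩ := h.nd.two
  have ux : ∀ x, cA1 G v X x ∨ cM G v X x → G.Adj u x := fun x hx =>
    h.ur hf hP hu (Or.inr (Or.inr hx))
  have nx : ∀ x, cA1 G v X x ∨ cM G v X x → ¬ G.Adj n x := fun x hx =>
    hx.elim (h.nd.f5a hf hn) (h.tm hf hP hn)
  have g : ∀ x y, cA1 G v X x ∨ cM G v X x → cA1 G v X y ∨ cM G v X y → x ≠ y → ¬ G.Adj x y →
      (G.Adj q x ↔ ¬ G.Adj q y) := by
    intro x y hx hy hne nxy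
    refine ⟨fun f g => ?_, fun g => ?_⟩
    · have mx : cM G v X x := hx.resolve_left fun e => e.2 q hq f.symm
      have my : cM G v X y := hy.resolve_left fun e => e.2 q hq g.symm
      exact fork hf hne (hn.2.2 p hp).symm (hn.2.2 q hq) f g (fun e => nqp e.symm)
        (fun e => nqp (h.nd.cl hf hP mx hq hp f.symm e.symm qp))
        (fun e => nqp (h.nd.cl hf hP my hq hp g.symm e.symm qp)) (nx x hx) (nx y hy) nxy
    · by_contra f
      exact fork hf hne (hn.2.2 q hq) (hu.2 q hq).symm (ux x hx) (ux y hy) (fun e => un e.symm)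
        (nx x hx) (nx y hy) f g nxy
  intro a ha b hb c hc ab ac bc
  by_contra hn
  push Not at hn
  have := g a b ha hb ab hn.1
  have := g a c ha hc ac hn.2.1
  have := g b c hb hc bc hn.2.2
  tauto

/-- nesting -/
theorem C3.nest {u : V} {Y : Set V} (hu : cU G v X u) (h' : C3 G u Y) {w : V}
    (hw : cR G u Y w) : cU G v X w := by
  have tri : ∀ t, G.Adj u t → cU G u Y t ∨ cA1 G u Y t ∨ cM G u Y t := fun t ht => by
    rcases h'.cover hf hP t with (e | e | e) | e | e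
    · exact (ht.ne e.symm).elim
    · exact ((h'.nd.nv t e).2 ht).elim
    · exact Or.inr e
    · exact Or.inl e
    · exact (e.2.1 ht).elim
  have nx : ∀ x ∈ X, cU G u Y x ↔ cU G u Y v := fun x hx => by
    refine ⟨fun e => (tri v hu.1.symm).resolve_right fun f => ?_,
      fun e => (tri x (hu.2 x hx)).resolve_right fun f => ?_⟩
    · exact (h.nd.nv x hx).2 (h'.ur hf hP e (Or.inr (Or.inr f))).symm
    · exact (h.nd.nv x hx).2 (h'.ur hf hP e (Or.inr (Or.inr f)))
  have vU : cU G u Y v := by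
    by_contra e
    obtain ⟨p, hp, q, hq, pq, n⟩ := h.nd.two
    rcases h'.notA hf hP v ((tri v hu.1.symm).resolve_left e)
      p ((tri p (hu.2 p hp)).resolve_left fun f => e ((nx p hp).1 f))
      q ((tri q (hu.2 q hq)).resolve_left fun f => e ((nx q hq).1 f))
      (h.nd.nv p hp).1.symm (h.nd.nv q hq).1.symm pq with f | f | f
    · exact (h.nd.nv p hp).2 f
    · exact (h.nd.nv q hq).2 f
    · exact n f
  exact ⟨h'.ur hf hP vU hw, fun p hp => (h'.ur hf hP ((nx p hp).2 vU) hw).symm⟩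

end

end Pool.Agent.P.MP_08bb88_co
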