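import Pool.Agent.P.MP_08bb88_co.FcFat

/-! The weighted bound for fork-free graphs all of whose proper modules are cliques. -/

set_option autoImplicit false
set_option linter.unusedSectionVars false

namespace Pool.Agent.P.MP_08bb88_co

open Classical Finset

variable {V : Type} [Fintype V] {G : SimpleGraph V}

/-- a weight restricted to a set -/
noncomputable def ind (w : V → ℝ) (S : Set V) (v : V) : ℝ := if v ∈ S then w v else 0

theorem wt_ind (w : V → ℝ) (S : Set V) : wt w S = ∑ v, ind w S v := rfl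

theorem ind_nonneg {w : V → ℝ} (hw : ∀ v, 0 ≤ w v) (S : Set V) (v : V) : 0 ≤ ind w S v := by
  unfold ind
  split_ifs
  · exact hw v
  · exact le_rfl

theorem ind_pos {w : V → ℝ} {S : Set V} {v : V} (h : v ∈ S) : ind w S v = w v := if_pos h

theorem thin_pw (hf : FF G) {C : Set V} {L : ℕ} {x : V} {w : V → ℝ} (hw : ∀ v, 0 ≤ w v)
    (h1 : ∀ I, I ⊆ C → Stab G I → wt w I ≤ 1) {col : V → Bool}
    (hcol : ∀ a b, Fat G C L x a b → col a ≠ col b) (c : Bool) :
    pw G w {y | y ∈ C ∩ Mn G x ∧ col y = c} ≤ 2 * (wt w (C ∩ Mn G x) * (L : ℝ) ^ 2) := by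
  let Th : V → Set V := fun z =>
    {y | y ∈ (C ∩ Mn G x) ∩ Mn G z ∧ ¬ Big G ((C ∩ Mn G x) ∩ Mn G z) L y}
  have hT : ∀ z, wt w (Th z) ≤ (L : ℝ) ^ 2 := fun z => by
    have := good_sq hf L (Th z) (fun K hK hc => by
      by_contra e
      obtain ⟨y, hy⟩ := card_pos.1 (show 0 < K.card by omega)
      exact (hK y hy).2 ⟨K, hy, fun a ha => (hK a ha).1, hc, by omega⟩) w hw 1
      fun I hI => h1 I fun a ha => (hI ha).1.1.1
    rwa [mul_one] at this
  let g : V → V → ℝ := fun z y => ind w (C ∩ Mn G x) z * ind w (Th z) y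
  have g0 : ∀ z y, 0 ≤ g z y := fun z y => mul_nonneg (ind_nonneg hw _ _) (ind_nonneg hw _ _)
  have gs : ∑ z, ∑ y, g z y ≤ wt w (C ∩ Mn G x) * (L : ℝ) ^ 2 := by
    rw [wt_ind, sum_mul]
    refine sum_le_sum fun z _ => ?_
    rw [← mul_sum]
    exact mul_le_mul_of_nonneg_left (hT z) (ind_nonneg hw _ _)
  have : pw G w {y | y ∈ C ∩ Mn G x ∧ col y = c} ≤ ∑ y, ∑ z, (g z y + g y z) := by
    refine sum_le_sum fun y _ => sum_le_sum fun z _ => ?_
    split_ifs with e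
    · obtain ⟨hy, hz, hne, n⟩ := e
      have yz : y ∈ Mn G z := ⟨hne, fun f => n f.symm⟩
      by_cases b1 : Big G ((C ∩ Mn G x) ∩ Mn G z) L y
      · have b2 : z ∈ Th y := ⟨⟨hz.1, mn_symm yz⟩, fun f =>
          hcol y z ⟨hy.1.2, hz.1.2, yz, b1, f⟩ (hy.2.trans hz.2.symm)⟩
        have : g y z = w y * w z := by simp only [g, ind_pos hy.1, ind_pos b2]
        linarith [g0 z y]
      · have b2 : y ∈ Th z := ⟨⟨hy.1, yz⟩, b1⟩
        have : g z y = w z * w y := by simp only [g, ind_pos hz.1, ind_pos b2]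
        linarith [g0 y z]
    · exact add_nonneg (g0 z y) (g0 y z)
  simp only [sum_add_distrib] at this
  rw [sum_comm] at this
  linarith

theorem good_core (hf : FF G) (hP : Prm G) {m b : ℕ} (hb0 : 0 < b) (hm : 0 < m)
    (hk : Bd G Set.univ (m ^ 4)) (hb : 16 * b * 4096 ^ b ≤ (m : ℝ)) :
    Good G {v | Ctr G v ∧ (tw G v).card ≤ m ∧ ¬ Bad G m v} (8 * (m : ℝ) ^ 8 / b) := by
  refine good_of_one fun w hw h1 => ?_
  have m1 : (1 : ℝ) ≤ m := by exact_mod_cast hm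
  have hd : ∀ u ∈ {v | Ctr G v ∧ (tw G v).card ≤ m ∧ ¬ Bad G m v},
      wt w ({v | Ctr G v ∧ (tw G v).card ≤ m ∧ ¬ Bad G m v} ∩ Mn G u) ≤ 2 * (m : ℝ) ^ 4 :=
    fun u hu => by
      have := (good_mn hf hP hk hu.1 hu.2.2).mono Set.inter_subset_right w hw 1
        fun I hI => h1 I (hI.trans Set.inter_subset_left)
      push_cast at this
      have e : (m : ℝ) ^ 2 ≤ (m : ℝ) ^ 4 := pow_le_pow_right₀ m1 (by norm_num)
      linarith
  have := hc (p := 1 / (4 * (m : ℝ) ^ 3)) (b := b) hw (fun v hv => by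
      rw [← wt_single (w := w) v]
      exact h1 _ (Set.singleton_subset_iff.2 hv) (stab_single v))
    (hk.mono (Set.subset_univ _)) (by positivity) hd (by positivity) (by
      rw [div_le_one (by positivity)]
      have := one_le_pow₀ (n := 3) m1
      linarith) (fun x hx => by
      obtain ⟨col, hcol⟩ := fat_col (C := {v | Ctr G v ∧ (tw G v).card ≤ m ∧ ¬ Bad G m v})
        hf hP hx.1 hx.2.2 fun v hv => hv.2.1
      refine ⟨col, fun c => ?_⟩
      have a1 := thin_pw hf hw h1 hcol c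
      have a2 := mul_le_mul_of_nonneg_right (hd x hx) (sq_nonneg (m : ℝ))
      have a3 : (1 / (4 * (m : ℝ) ^ 3)) ^ 2 * (2 * (2 * (m : ℝ) ^ 4 * (m : ℝ) ^ 2)) = 1 / 4 := by
        field_simp
        ring
      have a4 := mul_le_mul_of_nonneg_left (a1.trans (mul_le_mul_of_nonneg_left a2 zero_le_two))
        (sq_nonneg (1 / (4 * (m : ℝ) ^ 3)))
      linarith) (by
      have : 2 * (m : ℝ) ^ 4 * (1 / (4 * (m : ℝ) ^ 3)) = m / 2 := by
        field_simp
        ring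
      linarith)
  rw [le_div_iff₀ (by exact_mod_cast hb0)]
  push_cast at this
  linarith

theorem good_prime0 (hf : FF G) (hP : Prm G) {m b : ℕ} (hb0 : 0 < b) (hm : 0 < m)
    (hk : Bd G Set.univ (m ^ 4)) (hb : 16 * b * 4096 ^ b ≤ (m : ℝ)) :
    Good G Set.univ (27 * (m : ℝ) ^ 8 / b) := by
  have m1 : (1 : ℝ) ≤ m := by exact_mod_cast hm
  have b1 : (0 : ℝ) < b := by exact_mod_cast hb0
  have p1 : (1 : ℝ) ≤ 4096 ^ b := one_le_pow₀ (by norm_num)
  have bm : (b : ℝ) ≤ m := by nlinarith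
  have m4 : (m : ℝ) ≤ (m : ℝ) ^ 4 := le_self_pow₀ m1 (by norm_num)
  have m8 : (m : ℝ) ≤ (m : ℝ) ^ 8 := le_self_pow₀ m1 (by norm_num)
  have hb' : 8 * b * 4096 ^ b ≤ ((m ^ 4 : ℕ) : ℝ) := by
    push_cast
    nlinarith
  refine ((((good_nctr hb0 hk hb').union (good_heavy hf hm hk)).union
    (good_bad hf hP hm hb0 hk hb')).cover (good_core hf hP hb0 hm hk hb) fun v _ => ?_).le ?_
  · by_cases e1 : Ctr G v
    · by_cases e2 : (tw G v).card ≤ m
      · by_cases e3 : Bad G m v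
        · exact Or.inl (Or.inr e3)
        · exact Or.inr ⟨e1, e2, e3⟩
      · exact Or.inl (Or.inl (Or.inr (not_le.1 e2)))
    · exact Or.inl (Or.inl (Or.inl e1))
  · push_cast
    have a1 : (m : ℝ) ^ 8 / m ≤ (m : ℝ) ^ 8 / b :=
      div_le_div_of_nonneg_left (by positivity) b1 bm
    have a2 : (1 : ℝ) ≤ (m : ℝ) ^ 8 / b := by
      rw [le_div_iff₀ b1]
      linarith
    have a3 : 4 * (m : ℝ) ^ 4 * (m : ℝ) ^ 4 / b + 1 + 4 * ((m : ℝ) ^ 4) ^ 2 / m +
        (m : ℝ) ^ 4 * (2 * (m : ℝ) ^ 4 / m + 8 * (m : ℝ) ^ 4 / b) + 8 * (m : ℝ) ^ 8 / b =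
        20 * ((m : ℝ) ^ 8 / b) + 1 + 6 * ((m : ℝ) ^ 8 / m) := by ring
    rw [a3, mul_div_assoc]
    linarith

/-- the potential -/
noncomputable def pot (n : ℕ) : ℝ := 2 ^ n / (n + 1)

theorem pot_mono : Monotone pot := monotone_nat_of_le_succ fun n => by
  unfold pot
  rw [div_le_div_iff₀ (by positivity) (by positivity)]
  push_cast
  have : (0 : ℝ) < 2 ^ n := by positivity
  rw [pow_succ]
  nlinarith [Nat.cast_nonneg (α := ℝ) n]

theorem good_prime1 (hf : FF G) (hP : Prm G) {n : ℕ} (hk : Bd G Set.univ (2 ^ n)) :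
    Good G Set.univ (2 ^ 147 * 2 ^ n * pot n) := by
  obtain ⟨b, hb⟩ : ∃ b, b = n / 52 + 1 := ⟨_, rfl⟩
  refine (good_prime0 hf hP (m := 2 ^ (13 * b + 4)) (b := b) (by omega) (by positivity)
    (hk.le ?_) ?_).le ?_
  · rw [← pow_mul]
    exact Nat.pow_le_pow_right (by norm_num) (by omega)
  · have a1 : (b : ℝ) ≤ 2 ^ b := by exact_mod_cast (Nat.lt_two_pow_self (n := b)).le
    have a2 : ((2 ^ (13 * b + 4) : ℕ) : ℝ) = 16 * 2 ^ b * 4096 ^ b := by
      push_cast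
      rw [pow_add, pow_mul, mul_assoc, ← mul_pow]
      norm_num [mul_comm]
    rw [a2]
    gcongr
  · unfold pot
    rw [← mul_div_assoc, div_le_div_iff₀ (by rw [hb]; positivity) (by positivity)]
    have a1 : ((2 ^ (13 * b + 4) : ℕ) : ℝ) ^ 8 ≤ 2 ^ 136 * 2 ^ n * 2 ^ n := by
      push_cast
      rw [← pow_mul, ← pow_add, ← pow_add]
      exact pow_le_pow_right₀ (by norm_num) (by omega)
    have a2 : (n : ℝ) + 1 ≤ 52 * b := by exact_mod_cast (show n + 1 ≤ 52 * b by omega)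
    calc 27 * ((2 ^ (13 * b + 4) : ℕ) : ℝ) ^ 8 * ((n : ℝ) + 1)
        ≤ 27 * (2 ^ 136 * 2 ^ n * 2 ^ n) * (52 * (b : ℝ)) := by gcongr
      _ = (27 * 52 * 2 ^ 136) * (2 ^ n * 2 ^ n * (b : ℝ)) := by ring
      _ ≤ 2 ^ 147 * (2 ^ n * 2 ^ n * (b : ℝ)) := by gcongr; norm_num
      _ = _ := by ring

theorem two_pow_clog {k : ℕ} (hk : 0 < k) : 2 ^ Nat.clog 2 k ≤ 2 * k := by
  rcases Nat.lt_or_ge 1 k with e | e
  · have := Nat.pow_pred_clog_lt_self (b := 2) (by norm_num) e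
    have h0 := Nat.clog_pos (b := 2) (by norm_num) e
    obtain ⟨t, ht⟩ : ∃ t, Nat.clog 2 k = t + 1 := ⟨Nat.clog 2 k - 1, by omega⟩
    rw [ht] at this ⊢
    simp only [Nat.pred_succ] at this
    omega
  · rw [Nat.clog_of_right_le_one e]
    omega

theorem good_prime (hf : FF G) (hP : Prm G) {n k : ℕ} (hk : Bd G Set.univ k) (hn : k ≤ 2 ^ n) :
    Good G Set.univ (k * (2 ^ 148 * pot n)) := by
  rcases Nat.eq_zero_or_pos k with rfl | h0
  · rw [hk.zero]
    simpa using good_empty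
  refine (good_prime1 hf hP (hk.le (Nat.le_pow_clog (b := 2) (by norm_num) k))).le ?_
  have a1 : (2 : ℝ) ^ Nat.clog 2 k ≤ 2 * k := by exact_mod_cast two_pow_clog h0
  have a2 := pot_mono ((Nat.clog_le_iff_le_pow (b := 2) (by norm_num)).2 hn)
  have a3 : 0 ≤ pot (Nat.clog 2 k) := by
    unfold pot
    positivity
  calc 2 ^ 147 * 2 ^ Nat.clog 2 k * pot (Nat.clog 2 k) ≤ 2 ^ 147 * (2 * k) * pot n := by gcongr
    _ = _ := by ring

end Pool.Agent.P.MP_08bb88_co
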