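import Pool.Agent.P.MP_08bb88_co.FcHC

/-! No three anticomplete broken edges in the non-neighbourhood of a claw centre. -/

set_option autoImplicit false
set_option linter.unusedSectionVars false

namespace Pool.Agent.P.MP_08bb88_co

open Classical

variable {V : Type} {G : SimpleGraph V}

/-- the fork `a - b - c - {d, e}` as a clause -/
theorem fk (hf : FF G) (a b c d e : V) (hne : d ≠ e) :
    ¬ G.Adj a b ∨ ¬ G.Adj b c ∨ ¬ G.Adj c d ∨ ¬ G.Adj c e ∨ G.Adj a c ∨ G.Adj a d ∨ G.Adj a e ∨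
      G.Adj b d ∨ G.Adj b e ∨ G.Adj d e := by
  have := hf c d e b a
  grind [asym]

theorem fork (hf : FF G) {a b c d e : V} (hne : d ≠ e) (h1 : G.Adj a b) (h2 : G.Adj b c)
    (h3 : G.Adj c d) (h4 : G.Adj c e) (n1 : ¬ G.Adj a c) (n2 : ¬ G.Adj a d) (n3 : ¬ G.Adj a e)
    (n4 : ¬ G.Adj b d) (n5 : ¬ G.Adj b e) (n6 : ¬ G.Adj d e) : False := by
  have := fk hf a b c d e hne
  tauto

/-- claw centre -/
def Ctr (G : SimpleGraph V) (x : V) : Prop :=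
  ∃ p q r, G.Adj x p ∧ G.Adj x q ∧ G.Adj x r ∧ p ≠ q ∧ p ≠ r ∧ q ≠ r ∧
    ¬ G.Adj p q ∧ ¬ G.Adj p r ∧ ¬ G.Adj q r

/-- an edge `a b` of non-neighbours of `x` broken by the neighbour `c` of `x` -/
structure Brk (G : SimpleGraph V) (x a b c : V) : Prop where
  am : a ∈ Mn G x
  bm : b ∈ Mn G x
  ab : G.Adj a b
  xc : G.Adj x c
  cb : G.Adj c b
  ca : ¬ G.Adj c a

/-- two anticomplete pairs -/
def Anti (G : SimpleGraph V) (a b a' b' : V) : Prop :=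
  ¬ G.Adj a a' ∧ ¬ G.Adj a b' ∧ ¬ G.Adj b a' ∧ ¬ G.Adj b b'

theorem Anti.symm {a b a' b' : V} (h : Anti G a b a' b') : Anti G a' b' a b :=
  ⟨fun e => h.1 e.symm, fun e => h.2.2.1 e.symm, fun e => h.2.1 e.symm, fun e => h.2.2.2 e.symm⟩

theorem Anti.ne {a b a' b' : V} (h : Anti G a b a' b') (e : G.Adj a b) (e' : G.Adj a' b') :
    a ≠ a' ∧ a ≠ b' ∧ b ≠ a' ∧ b ≠ b' := by
  obtain ⟨h1, h2, h3, h4⟩ := h
  refine ⟨?_, ?_, ?_, ?_⟩ <;> rintro rfl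
  · exact h2 e'
  · exact h1 e'.symm
  · exact h1 e
  · exact h2 e

theorem Brk.far (hf : FF G) {x a b c a' b' c' : V} (k : Brk G x a b c) (k' : Brk G x a' b' c')
    (t : Anti G a b a' b') : ¬ G.Adj c a' ∧ ¬ G.Adj c b' :=
  ⟨fun e => fork hf k'.am.1.symm k.ab k.cb.symm k.xc.symm e (fun f => k.ca f.symm)
      (fun f => k.am.2 f.symm) t.1 (fun f => k.bm.2 f.symm) t.2.2.1 k'.am.2,
    fun e => fork hf k'.bm.1.symm k.ab k.cb.symm k.xc.symm e (fun f => k.ca f.symm)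
      (fun f => k.am.2 f.symm) t.2.1 (fun f => k.bm.2 f.symm) t.2.2.2 k'.bm.2⟩

/-- three pairwise anticomplete broken edges -/
structure Tri (G : SimpleGraph V) (x a0 b0 c0 a1 b1 c1 a2 b2 c2 : V) : Prop where
  k0 : Brk G x a0 b0 c0
  k1 : Brk G x a1 b1 c1
  k2 : Brk G x a2 b2 c2
  t01 : Anti G a0 b0 a1 b1
  t02 : Anti G a0 b0 a2 b2
  t12 : Anti G a1 b1 a2 b2

section
variable (hf : FF G) {x a0 b0 c0 a1 b1 c1 a2 b2 c2 : V}
  (h : Tri G x a0 b0 c0 a1 b1 c1 a2 b2 c2)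
include hf h

theorem Tri.touch (v : V) (hv : ¬ (G.Adj v x ∧ G.Adj v a0 ∧ G.Adj v b0 ∧ G.Adj v a1 ∧ G.Adj v b1 ∧
    G.Adj v a2 ∧ G.Adj v b2)) :
    (¬ G.Adj v x ∧ ¬ G.Adj v a0 ∧ ¬ G.Adj v b0) ∨ (¬ G.Adj v x ∧ ¬ G.Adj v a1 ∧ ¬ G.Adj v b1) ∨
    (¬ G.Adj v x ∧ ¬ G.Adj v a2 ∧ ¬ G.Adj v b2) ∨
    (¬ G.Adj v a0 ∧ ¬ G.Adj v b0 ∧ ¬ G.Adj v a1 ∧ ¬ G.Adj v b1) ∨
    (¬ G.Adj v a0 ∧ ¬ G.Adj v b0 ∧ ¬ G.Adj v a2 ∧ ¬ G.Adj v b2) ∨
    (¬ G.Adj v a1 ∧ ¬ G.Adj v b1 ∧ ¬ G.Adj v a2 ∧ ¬ G.Adj v b2) := by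
  have na0a1 : a0 ≠ a1 := (h.t01.ne h.k0.ab h.k1.ab).1
  have na0b1 : a0 ≠ b1 := (h.t01.ne h.k0.ab h.k1.ab).2.1
  have na0b2 : a0 ≠ b2 := (h.t02.ne h.k0.ab h.k2.ab).2.1
  have na1b0 : a1 ≠ b0 := (h.t01.ne h.k0.ab h.k1.ab).2.2.1.symm
  have na1b2 : a1 ≠ b2 := (h.t12.ne h.k1.ab h.k2.ab).2.1
  have na2b0 : a2 ≠ b0 := (h.t02.ne h.k0.ab h.k2.ab).2.2.1.symm
  have nb0b1 : b0 ≠ b1 := (h.t01.ne h.k0.ab h.k1.ab).2.2.2
  have nb0b2 : b0 ≠ b2 := (h.t02.ne h.k0.ab h.k2.ab).2.2.2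
  have nb1b2 : b1 ≠ b2 := (h.t12.ne h.k1.ab h.k2.ab).2.2.2
  have := fk hf a0 b0 v b1 b2 nb1b2
  have := fk hf a1 b1 v a0 b2 na0b2
  have := fk hf a1 b1 v x a0 h.k0.am.1.symm
  have := fk hf a1 b1 v x a2 h.k2.am.1.symm
  have := fk hf a1 b1 v x b0 h.k0.bm.1.symm
  have := fk hf a2 b2 v a1 b0 na1b0
  have := fk hf a2 b2 v b0 b1 nb0b1
  have := fk hf b0 a0 v a1 b2 na1b2
  have := fk hf b0 a0 v x a1 h.k1.am.1.symm
  have := fk hf b0 a0 v x b2 h.k2.bm.1.symm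
  have := fk hf b0 c0 v b1 b2 nb1b2
  have := fk hf b1 a1 v b0 b2 nb0b2
  have := fk hf b1 a1 v x b2 h.k2.bm.1.symm
  have := fk hf b1 c1 v a2 b0 na2b0
  have := fk hf b1 c1 v b0 b2 nb0b2
  have := fk hf b2 a2 v a0 a1 na0a1
  have := fk hf b2 a2 v a0 b1 na0b1
  have := fk hf b2 a2 v a1 b0 na1b0
  have := fk hf b2 a2 v b0 b1 nb0b1
  have := fk hf b2 a2 v x a0 h.k0.am.1.symm
  have := fk hf b2 a2 v x a1 h.k1.am.1.symm
  have := fk hf b2 c2 v a1 b0 na1b0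
  have := fk hf c0 b0 v a1 b2 na1b2
  have := fk hf c0 x v b1 b2 nb1b2
  have := fk hf c1 x v a2 b0 na2b0
  have := fk hf c1 x v b0 b2 nb0b2
  have := fk hf c2 x v a1 b0 na1b0
  have := fk hf x c0 v b1 b2 nb1b2
  have := h.k0.am.2; have := h.k0.bm.2; have := h.k0.ab; have := h.k0.xc; have := h.k0.cb
  have := h.k1.am.2; have := h.k1.bm.2; have := h.k1.ab; have := h.k1.xc; have := h.k1.cb
  have := h.k2.am.2; have := h.k2.bm.2; have := h.k2.ab; have := h.k2.xc; have := h.k2.cb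
  have := h.k0.ca; have := h.k1.ca; have := h.k2.ca
  have := h.k0.far hf h.k1 h.t01; have := h.k0.far hf h.k2 h.t02
  have := h.k1.far hf h.k0 h.t01.symm; have := h.k1.far hf h.k2 h.t12
  have := h.k2.far hf h.k0 h.t02.symm; have := h.k2.far hf h.k1 h.t12.symm
  obtain ⟨_, _, _, _⟩ := h.t01
  obtain ⟨_, _, _, _⟩ := h.t02
  obtain ⟨_, _, _, _⟩ := h.t12
  clear h hf
  grind (splits := 80) [asym]

theorem Tri.leaf (hx : Ctr G x) : ∃ v, G.Adj v x ∧ G.Adj v a0 ∧ G.Adj v b0 ∧ G.Adj v a1 ∧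
    G.Adj v b1 ∧ G.Adj v a2 ∧ G.Adj v b2 := by
  obtain ⟨p, q, r, xp, xq, xr, dpq, dpr, dqr, npq, npr, nqr⟩ := hx
  by_contra hc
  have := h.touch hf p fun e => hc ⟨p, e⟩
  have := h.touch hf q fun e => hc ⟨q, e⟩
  have := h.touch hf r fun e => hc ⟨r, e⟩
  clear hc
  have := fk hf a1 b1 c1 p q dpq
  have := fk hf a1 b1 c1 p r dpr
  have := fk hf a1 b1 c1 q r dqr
  have := fk hf a1 p x q r dqr
  have := fk hf a1 p c2 b2 q (by rintro rfl; exact h.k2.bm.2 xq)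
  have := fk hf a1 p c2 b2 r (by rintro rfl; exact h.k2.bm.2 xr)
  have := fk hf a1 q x p r dpr
  have := fk hf a1 q c2 b2 p (by rintro rfl; exact h.k2.bm.2 xp)
  have := fk hf a1 q c2 b2 r (by rintro rfl; exact h.k2.bm.2 xr)
  have := fk hf a1 r x p q dpq
  have := fk hf a1 r c2 b2 p (by rintro rfl; exact h.k2.bm.2 xp)
  have := fk hf a1 r c2 b2 q (by rintro rfl; exact h.k2.bm.2 xq)
  have := fk hf a2 b2 c2 p q dpq
  have := fk hf a2 b2 c2 p r dpr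
  have := fk hf a2 b2 c2 q r dqr
  have := fk hf b1 c1 x p q dpq
  have := fk hf b1 c1 x p r dpr
  have := fk hf b1 c1 x q r dqr
  have := fk hf b1 p x q r dqr
  have := fk hf b1 p c2 b2 q (by rintro rfl; exact h.k2.bm.2 xq)
  have := fk hf b1 p c2 b2 r (by rintro rfl; exact h.k2.bm.2 xr)
  have := fk hf b1 q x p r dpr
  have := fk hf b1 q c2 b2 p (by rintro rfl; exact h.k2.bm.2 xp)
  have := fk hf b1 q c2 b2 r (by rintro rfl; exact h.k2.bm.2 xr)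
  have := fk hf b1 r x p q dpq
  have := fk hf b1 r c2 b2 p (by rintro rfl; exact h.k2.bm.2 xp)
  have := fk hf b1 r c2 b2 q (by rintro rfl; exact h.k2.bm.2 xq)
  have := fk hf b2 c2 x p q dpq
  have := fk hf b2 c2 x p r dpr
  have := fk hf b2 c2 x q r dqr
  have := fk hf b2 p x q r dqr
  have := fk hf b2 q x p r dpr
  have := fk hf b2 r x p q dpq
  have := h.k0.am.2; have := h.k0.bm.2; have := h.k0.ab; have := h.k0.xc; have := h.k0.cb
  have := h.k1.am.2; have := h.k1.bm.2; have := h.k1.ab; have := h.k1.xc; have := h.k1.cb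
  have := h.k2.am.2; have := h.k2.bm.2; have := h.k2.ab; have := h.k2.xc; have := h.k2.cb
  have := h.k0.ca; have := h.k1.ca; have := h.k2.ca
  have := h.k0.far hf h.k1 h.t01; have := h.k0.far hf h.k2 h.t02
  have := h.k1.far hf h.k0 h.t01.symm; have := h.k1.far hf h.k2 h.t12
  have := h.k2.far hf h.k0 h.t02.symm; have := h.k2.far hf h.k1 h.t12.symm
  obtain ⟨_, _, _, _⟩ := h.t01
  obtain ⟨_, _, _, _⟩ := h.t02
  obtain ⟨_, _, _, _⟩ := h.t12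
  clear h hf
  grind (splits := 80) [asym]

theorem Tri.false (hP : Prm G) (hx : Ctr G x) : False := by
  let F : V → Prop := fun f => f = x ∨ f = a0 ∨ f = b0 ∨ f = a1 ∨ f = b1 ∨ f = a2 ∨ f = b2
  let U : V → Prop := fun v => G.Adj v x ∧ G.Adj v a0 ∧ G.Adj v b0 ∧ G.Adj v a1 ∧
    G.Adj v b1 ∧ G.Adj v a2 ∧ G.Adj v b2
  have UF : ∀ u f, U u → F f → G.Adj u f := by
    rintro u f ⟨h1, h2, h3, h4, h5, h6, h7⟩ (rfl | rfl | rfl | rfl | rfl | rfl | rfl) <;> assumption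
  have n01 := h.t01.ne h.k0.ab h.k1.ab
  have n02 := h.t02.ne h.k0.ab h.k2.ab
  have n12 := h.t12.ne h.k1.ab h.k2.ab
  have two : ∀ v, ¬ U v → ∃ s s', F s ∧ F s' ∧ s ≠ s' ∧ ¬ G.Adj s s' ∧ ¬ G.Adj v s ∧ ¬ G.Adj v s' ∧
      ∀ f, F f → G.Adj v f → ¬ G.Adj f s ∧ ¬ G.Adj f s' := by
    intro v hv
    have t := h.touch hf v hv
    have := h.k0.am; have := h.k0.bm; have := h.k1.am; have := h.k1.bm
    have := h.k2.am; have := h.k2.bm
    have := h.t01; have := h.t02; have := h.t12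
    simp only [Mn, Anti, Set.mem_ofPred_eq] at *
    clear UF h hf hP hx hv
    rcases t with t | t | t | t | t | t
    · exact ⟨x, a0, by grind, by grind, by grind, by grind, by grind, by grind, by grind [asym]⟩
    · exact ⟨x, a1, by grind, by grind, by grind, by grind, by grind, by grind, by grind [asym]⟩
    · exact ⟨x, a2, by grind, by grind, by grind, by grind, by grind, by grind, by grind [asym]⟩
    · exact ⟨a0, a1, by grind, by grind, by grind, by grind, by grind, by grind, by grind [asym]⟩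
    · exact ⟨a0, a2, by grind, by grind, by grind, by grind, by grind, by grind, by grind [asym]⟩
    · exact ⟨a1, a2, by grind, by grind, by grind, by grind, by grind, by grind, by grind [asym]⟩
  let Y : Set V := {y | Relation.ReflTransGen (fun a b => G.Adj a b ∧ ¬ U b) x y}
  have nx : ¬ U x := fun e => G.irrefl e.1
  have YU : ∀ y ∈ Y, ¬ U y := by
    intro y hy
    induction hy with
    | refl => exact nx
    | tail _ e _ => exact e.2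
  have cmp : ∀ u, U u → ∀ y ∈ Y, G.Adj u y := by
    intro u hu y hy
    induction hy with
    | refl => exact hu.1
    | @tail y z hy e ih =>
      by_contra n
      by_cases t : ∃ f, F f ∧ G.Adj z f
      · obtain ⟨f, f1, f2⟩ := t
        obtain ⟨s, s', k1, k2, k3, k4, k5, k6, k7⟩ := two z e.2
        exact fork hf k3 f2 (UF u f hu f1).symm (UF u s hu k1) (UF u s' hu k2)
          (fun g => n g.symm) k5 k6 (k7 f f1 f2).1 (k7 f f1 f2).2 k4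
      · obtain ⟨s, s', k1, k2, k3, k4, k5, k6, -⟩ := two y (YU y hy)
        exact fork hf k3 e.1.symm ih.symm (UF u s hu k1) (UF u s' hu k2)
          (fun g => n g.symm) (fun g => t ⟨s, k1, g⟩) (fun g => t ⟨s', k2, g⟩) k5 k6 k4
  obtain ⟨u, hu⟩ := h.leaf hf hx
  have hM : Modu G Y := by
    intro w hw
    by_cases e : U w
    · exact Or.inl (cmp w e)
    · exact Or.inr fun y hy f => hw (Relation.ReflTransGen.tail hy ⟨f.symm, e⟩)
  have xY : x ∈ Y := Relation.ReflTransGen.refl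
  have cY : c0 ∈ Y := Relation.ReflTransGen.tail xY ⟨h.k0.xc, fun e => h.k0.ca e.2.1⟩
  have bY : b0 ∈ Y := Relation.ReflTransGen.tail cY ⟨h.k0.cb, fun e => G.irrefl e.2.2.1⟩
  exact h.k0.bm.2 (hP Y hM ⟨u, fun e => YU u e hu⟩ x xY b0 bY h.k0.bm.1.symm)

end

end Pool.Agent.P.MP_08bb88_co
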