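import Pool.Agent.P.MP_08bb88_co.FcS2

/-! Vertices with many true twins. -/

set_option autoImplicit false
set_option linter.unusedSectionVars false

namespace Pool.Agent.P.MP_08bb88_co

open Classical Finset

variable {V : Type} [Fintype V] {G : SimpleGraph V}

/-- equal closed neighbourhoods -/
def Tw (G : SimpleGraph V) (u v : V) : Prop := ∀ x, (x = u ∨ G.Adj u x) ↔ (x = v ∨ G.Adj v x)

/-- the class of true twins -/
noncomputable def tw (G : SimpleGraph V) (v : V) : Finset V := univ.filter (fun u => Tw G u v)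

theorem mem_tw {u v : V} : u ∈ tw G v ↔ Tw G u v := by simp [tw]

theorem Tw.rfl {v : V} : Tw G v v := fun _ => Iff.rfl

theorem Tw.symm {u v : V} (h : Tw G u v) : Tw G v u := fun x => (h x).symm

theorem Tw.trans {u v t : V} (h : Tw G u v) (h' : Tw G v t) : Tw G u t :=
  fun x => (h x).trans (h' x)

theorem Tw.adj {u u' v v' : V} (h : Tw G u u') (h' : Tw G v v') (e : u' = v' ∨ G.Adj u' v')
    (hne : u ≠ v) : G.Adj u v := by
  have e1 : v' = u ∨ G.Adj u v' := (h v').2 (e.imp Eq.symm id)
  have e2 : u = v ∨ G.Adj v u := (h' u).2 (e1.imp Eq.symm fun f => f.symm)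
  exact (e2.resolve_left hne).symm

theorem light_module {L : ℕ} {v : V} (hv : (tw G v).card ≤ L) {Y : Set V} (hY : Modu G Y)
    (hc : Clq G Y) (hvY : v ∈ Y) : Bd G Y L := by
  intro K hK _
  refine le_trans (card_le_card fun y hy => mem_tw.2 fun x => ?_) hv
  have hyY := hK y hy
  by_cases hx : x ∈ Y
  · have k : ∀ a ∈ Y, x = a ∨ G.Adj a x := fun a ha => by
      by_cases e : x = a
      · exact Or.inl e
      · exact Or.inr (hc a ha x hx (Ne.symm e))
    exact iff_of_true (k y hyY) (k v hvY)
  · rcases hY x hx with e | e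
    · exact iff_of_true (Or.inr (e y hyY).symm) (Or.inr (e v hvY).symm)
    · refine iff_of_false ?_ ?_
      · rintro (rfl | f)
        · exact hx hyY
        · exact e y hyY f.symm
      · rintro (rfl | f)
        · exact hx hvY
        · exact e v hvY f.symm

/-- rank inside the twin class -/
noncomputable def rk (G : SimpleGraph V) (v : V) : ℕ :=
  ((tw G v).filter fun u => Fintype.equivFin V u < Fintype.equivFin V v).card

theorem rk_lt (v : V) : rk G v < (tw G v).card :=
  card_lt_card ⟨filter_subset _ _, fun e =>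
    lt_irrefl _ (mem_filter.1 (e (mem_tw.2 Tw.rfl))).2⟩

theorem rk_lt_rk {u v : V} (h : Tw G u v) (e : Fintype.equivFin V u < Fintype.equivFin V v) :
    rk G u < rk G v := by
  refine card_lt_card ⟨fun x hx => ?_, fun f => ?_⟩
  · obtain ⟨a, b⟩ := mem_filter.1 hx
    exact mem_filter.2 ⟨mem_tw.2 ((mem_tw.1 a).trans h), b.trans e⟩
  · exact lt_irrefl _ (mem_filter.1 (f (mem_filter.2 ⟨mem_tw.2 h, e⟩))).2

theorem rk_inj {u v : V} (h : Tw G u v) (e : rk G u = rk G v) : u = v := by
  rcases lt_trichotomy (Fintype.equivFin V u) (Fintype.equivFin V v) with f | f | f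
  · exact absurd (rk_lt_rk h f) (by omega)
  · exact (Fintype.equivFin V).injective f
  · exact absurd (rk_lt_rk h.symm f) (by omega)

theorem layer_bd {k L j : ℕ} (hk : Bd G Set.univ k) :
    Bd G {v | L < (tw G v).card ∧ rk G v = j} (2 * k / (L + j + 2)) := by
  intro K hK hc
  rw [Nat.le_div_iff_mul_le (by omega)]
  have h1 := hk (K.biUnion (tw G)) (fun _ _ => trivial) (by
    intro a ha b hb hne
    obtain ⟨u, hu, ha⟩ := mem_biUnion.1 ha
    obtain ⟨v, hv, hb⟩ := mem_biUnion.1 hb
    refine (mem_tw.1 ha).adj (mem_tw.1 hb) ?_ hne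
    by_cases e : u = v
    · exact Or.inl e
    · exact Or.inr (hc u hu v hv e))
  rw [card_biUnion (by
    intro u hu v hv hne
    exact disjoint_left.2 fun a ha hb => hne (rk_inj ((mem_tw.1 ha).symm.trans (mem_tw.1 hb))
      ((hK u hu).2.trans (hK v hv).2.symm)))] at h1
  have h2 : ∑ _u ∈ K, (L + j + 2) ≤ ∑ u ∈ K, 2 * (tw G u).card := sum_le_sum fun u hu => by
    have a1 := (hK u hu).1
    have a2 := (hK u hu).2
    have a3 := rk_lt (G := G) u
    omega
  rw [← mul_sum, sum_const, smul_eq_mul] at h2
  omega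

theorem good_heavy (hf : FF G) {k L : ℕ} (hL : 0 < L) (hk : Bd G Set.univ k) :
    Good G {v | L < (tw G v).card} (4 * k ^ 2 / L) := by
  have key : ∀ t j : ℕ, Fintype.card V ≤ j + t →
      Good G {v | L < (tw G v).card ∧ j ≤ rk G v} (4 * k ^ 2 / (L + j)) := by
    intro t
    induction t with
    | zero =>
      intro j hj
      refine (good_empty.mono fun v hv => ?_).le (by positivity)
      have a1 := rk_lt (G := G) v
      have a2 := card_le_univ (tw G v)
      have a3 := hv.2
      omega
    | succ t ih =>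
      intro j hj
      refine (((ih (j + 1) (by omega)).cover (good_sq hf _ _ (layer_bd (L := L) (j := j) hk)))
        fun v hv => ?_).le ?_
      · rcases hv.2.eq_or_lt with e | e
        · exact Or.inr ⟨hv.1, e.symm⟩
        · exact Or.inl ⟨hv.1, e⟩
      · have a1 : ((2 * k / (L + j + 2) : ℕ) : ℝ) ≤ 2 * k / (L + j + 2) := by
          have := Nat.cast_div_le (α := ℝ) (m := 2 * k) (n := L + j + 2)
          push_cast at this
          exact this
        have a2 := pow_le_pow_left₀ (Nat.cast_nonneg _) a1 2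
        have a3 : (0 : ℝ) < L + j := by positivity
        have a4 : (2 * (k : ℝ) / (L + j + 2)) ^ 2 ≤ 4 * k ^ 2 / ((L + j) * (L + j + 1)) := by
          rw [div_pow, show (2 * (k : ℝ)) ^ 2 = 4 * k ^ 2 by ring]
          exact div_le_div_of_nonneg_left (by positivity) (by positivity) (by nlinarith)
        have a5 : 4 * (k : ℝ) ^ 2 / (L + j) = 4 * k ^ 2 / (L + ((j + 1 : ℕ) : ℝ)) +
            4 * k ^ 2 / ((L + j) * (L + j + 1)) := by
          push_cast
          field_simp
          ring
        linarith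
  have := key (Fintype.card V) 0 (by omega)
  simpa using this

end Pool.Agent.P.MP_08bb88_co
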