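import Pool.Agent.P.MP_08bb88_co.Quasi

set_option autoImplicit false

namespace Pool.Agent.P.MP_08bb88_co

open Classical

variable {V : Type} {G : SimpleGraph V}

theorem greedy [Fintype V] {χ : V → V → Bool} (hq : QL G χ) (k : ℕ) :
    ∀ (n : ℕ) (U : Set V), U.ncard ≤ n → Bd G U k →
    ∃ (S : Set V) (rk : V → ℕ), S ⊆ U ∧ Stab G S ∧ (∀ x ∈ U, x ∉ S → ∃ s ∈ S, G.Adj s x) ∧
      (∀ s ∈ S, ∀ t ∈ S, rk s = rk t → s = t) ∧
      ∀ s ∈ S, ∀ K t r, SunIn G U k K s t r → ∃ s' ∈ S, rk s' < rk s ∧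
        ∃ y, (y ∈ K ∨ y = t ∨ y = r) ∧ (s' = y ∨ G.Adj s' y) := by
  intro n
  induction n with
  | zero =>
    intro U hU _
    have : U = ∅ := (Set.ncard_eq_zero (Set.toFinite U)).1 (by omega)
    subst this
    exact ⟨∅, fun _ => 0, by simp, by simp [Stab], by simp, by simp, by simp⟩
  | succ n ih =>
    intro U hU hb
    rcases U.eq_empty_or_nonempty with rfl | hne
    · exact ⟨∅, fun _ => 0, by simp, by simp [Stab], by simp, by simp, by simp⟩
    obtain ⟨u, hu, hns⟩ := exists_nonsun hq hb hne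
    have hsub : {x | x ∈ U ∧ x ≠ u ∧ ¬ G.Adj u x} ⊆ U := fun x hx => hx.1
    have hlt : {x | x ∈ U ∧ x ≠ u ∧ ¬ G.Adj u x}.ncard < U.ncard :=
      Set.ncard_lt_ncard ⟨hsub, fun h => (h hu).2.1 rfl⟩ (Set.toFinite U)
    obtain ⟨S, rk, h1, h2, h3, h4, h5⟩ := ih _ (by omega) (hb.mono hsub)
    have huS : u ∉ S := fun h => (h1 h).2.1 rfl
    refine ⟨insert u S, fun x => if x = u then 0 else rk x + 1, ?_, ?_, ?_, ?_, ?_⟩
    · rintro x (rfl | hx)
      · exact hu
      · exact (h1 hx).1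
    · rintro x (rfl | hx) y (rfl | hy) hxy
      · exact G.irrefl hxy
      · exact (h1 hy).2.2 hxy
      · exact (h1 hx).2.2 hxy.symm
      · exact h2 x hx y hy hxy
    · intro x hx hxS
      by_cases hux : G.Adj u x
      · exact ⟨u, Or.inl rfl, hux⟩
      · obtain ⟨s, hs, hsx⟩ := h3 x ⟨hx, fun e => hxS (Or.inl e), hux⟩ (fun e => hxS (Or.inr e))
        exact ⟨s, Or.inr hs, hsx⟩
    · rintro s (rfl | hs) t (rfl | ht) hst
      · rfl
      · simp [(h1 ht).2.1] at hst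
      · simp [(h1 hs).2.1] at hst
      · simp only [(h1 ht).2.1, (h1 hs).2.1, if_false] at hst
        exact h4 s hs t ht (by omega)
    · rintro s (rfl | hs) K t r hsun
      · exact (hns K t r hsun).elim
      · by_cases hall : ∀ y, (y ∈ K ∨ y = t ∨ y = r) → y ≠ u ∧ ¬ G.Adj u y
        · obtain ⟨a1, a2, a3, a4, a5, a6⟩ := hsun
          obtain ⟨s', hs', hlt', hy⟩ := h5 s hs K t r ⟨a1,
            fun x hx => ⟨a2 x hx, hall x (Or.inl hx)⟩, a3, h1 hs,
            ⟨a5, hall t (Or.inr (Or.inl rfl))⟩, ⟨a6, hall r (Or.inr (Or.inr rfl))⟩⟩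
          refine ⟨s', Or.inr hs', ?_, hy⟩
          simp only [(h1 hs').2.1, (h1 hs).2.1, if_false]
          omega
        · push Not at hall
          obtain ⟨y, hy, hy'⟩ := hall
          refine ⟨u, Or.inl rfl, ?_, y, hy, ?_⟩
          · simp [(h1 hs).2.1]
          · by_cases e : y = u
            · exact Or.inl e.symm
            · exact Or.inr (hy' e)

theorem perf_biUnion [Fintype V] (P : V → Set V) (S : Finset V) (hP : ∀ s ∈ S, Perf G (P s))
    (hd : ∀ s ∈ S, ∀ t ∈ S, s ≠ t → ∀ x ∈ P s, ∀ y ∈ P t, x ≠ y ∧ ¬ G.Adj x y) :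
    Perf G {x | ∃ s ∈ S, x ∈ P s} := by
  induction S using Finset.induction_on with
  | empty =>
    have : Clq G {x | ∃ s ∈ (∅ : Finset V), x ∈ P s} := by intro x hx; simp at hx
    exact this.perf
  | insert a S ha ih =>
    have h1 := ih (fun s hs => hP s (Finset.mem_insert_of_mem hs))
      (fun s hs t ht => hd s (Finset.mem_insert_of_mem hs) t (Finset.mem_insert_of_mem ht))
    have h2 := hP a (Finset.mem_insert_self _ _)
    have key : ∀ x ∈ P a, ∀ y ∈ {x | ∃ s ∈ S, x ∈ P s}, x ≠ y ∧ ¬ G.Adj x y := by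
      rintro x hx y ⟨s, hs, hy⟩
      exact hd a (Finset.mem_insert_self _ _) s (Finset.mem_insert_of_mem hs)
        (by rintro rfl; exact ha hs) x hx y hy
    refine (h2.glue h1 (fun x hx => ((key x hx.1 x hx.2).1 rfl).elim)
      (fun x hx y hy hxy => ((key x hx y hy).2 hxy).elim)).mono ?_
    rintro x ⟨s, hs, hx⟩
    rcases Finset.mem_insert.1 hs with rfl | hs
    · exact Or.inl hx
    · exact Or.inr ⟨s, hs, hx⟩

theorem div_quasi [Fintype V] {χ : V → V → Bool} (hq : QL G χ) : Div G Set.univ := by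
  intro k hk hb
  obtain ⟨S, rk, -, h2, h3, h4, h5⟩ := greedy hq k _ Set.univ le_rfl hb
  have hcl := hq.claw
  let Sg : V → V → Prop := fun x s => s ∈ S ∧ G.Adj s x ∧ ∀ s' ∈ S, G.Adj s' x → s' = s
  let P : V → Set V := fun s =>
    {x | x = s ∨ (Sg x s ∧ ∀ y t, Sg y t → G.Adj x y → t ≠ s → rk t < rk s)}
  have three : ∀ x s t r, s ∈ S → t ∈ S → r ∈ S → G.Adj s x → G.Adj t x → G.Adj r x →
      s ≠ t → s ≠ r → t ≠ r → False := by
    intro x s t r a1 a2 a3 b1 b2 b3 c1 c2 c3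
    rcases hcl x s t r b1.symm b2.symm b3.symm c1 c2 c3 with e | e | e
    · exact h2 _ a1 _ a2 e
    · exact h2 _ a1 _ a3 e
    · exact h2 _ a2 _ a3 e
  have dbl : ∀ x y s t, s ∈ S → t ∈ S → s ≠ t → G.Adj s x → G.Adj t x → G.Adj x y → y ∉ S →
      G.Adj s y ∨ G.Adj t y := by
    intro x y s t a1 a2 c1 b1 b2 b3 hy
    rcases hcl x s t y b1.symm b2.symm b3 c1 (by rintro rfl; exact hy a1)
      (by rintro rfl; exact hy a2) with e | e | e
    · exact (h2 _ a1 _ a2 e).elim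
    · exact Or.inl e
    · exact Or.inr e
  refine ⟨{x | ∃ s ∈ S.toFinset, x ∈ P s}, Set.subset_univ _, perf_biUnion P _ ?_ ?_, ?_⟩
  · intro s _
    apply Cob.perf
    refine ⟨{x | x = s ∨ (G.Adj s x ∧ χ s x = true)}, {x | G.Adj s x ∧ χ s x = false}, ?_, ?_, ?_⟩
    · rintro x (rfl | hx) y (rfl | hy) hxy
      · exact (hxy rfl).elim
      · exact hy.1
      · exact hx.1.symm
      · exact hq s x y hx.1 hy.1 hxy (hx.2.trans hy.2.symm)
    · intro x hx y hy hxy
      exact hq s x y hx.1 hy.1 hxy (hx.2.trans hy.2.symm)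
    · rintro x (rfl | hx)
      · exact Or.inl (Or.inl rfl)
      · cases e : χ s x
        · exact Or.inr ⟨hx.1.2.1, e⟩
        · exact Or.inl (Or.inr ⟨hx.1.2.1, e⟩)
  · intro s hs t ht hst
    have hs := Set.mem_toFinset.1 hs
    have ht := Set.mem_toFinset.1 ht
    rintro x (rfl | hx) y (rfl | hy)
    · exact ⟨hst, h2 _ hs _ ht⟩
    · exact ⟨by rintro rfl; exact h2 _ ht _ hs hy.1.2.1, fun e => hst (hy.1.2.2 _ hs e)⟩
    · exact ⟨by rintro rfl; exact h2 _ hs _ ht hx.1.2.1, fun e => hst (hx.1.2.2 _ ht e.symm).symm⟩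
    · refine ⟨?_, fun e => ?_⟩
      · rintro rfl
        exact hst (hy.1.2.2 _ hs hx.1.2.1)
      · have a1 := hx.2 y t hy.1 e hst.symm
        have a2 := hy.2 x s hx.1 e.symm hst
        omega
  intro K hK hcK hKk
  by_contra hcon
  have hKS : ∀ x ∈ K, x ∉ S := fun x hx hS =>
    hcon ⟨x, hx, x, Set.mem_toFinset.2 hS, Or.inl rfl⟩
  have hmax : ∀ u, u ∉ K → ∃ x ∈ K, ¬ G.Adj u x :=
    fun u hu => hb.maxl hK hcK hKk (Set.mem_univ u) hu
  have hSK : ∀ s ∈ S, s ∉ K := fun s hs e => hKS s e hs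
  have hdb : ∀ x ∈ K, (¬ ∃ s, Sg x s) → ∀ s ∈ S, G.Adj s x → ∃ t ∈ S, G.Adj t x ∧ t ≠ s := by
    intro x _ hn s hs hsx
    by_contra h
    push Not at h
    exact hn ⟨s, hs, hsx, h⟩
  by_cases hsg : ∃ x ∈ K, ∃ s, Sg x s
  · have hne : (Finset.univ.filter (fun p : V × V => p.1 ∈ K ∧ Sg p.1 p.2)).Nonempty := by
      obtain ⟨x, hx, s, hs⟩ := hsg
      exact ⟨(x, s), Finset.mem_filter.2 ⟨Finset.mem_univ _, hx, hs⟩⟩
    obtain ⟨⟨y, t⟩, hy, hmx⟩ := Finset.exists_max_image _ (fun p : V × V => rk p.2) hne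
    obtain ⟨hyK, hyt⟩ := (Finset.mem_filter.1 hy).2
    have hmx' : ∀ x ∈ K, ∀ s, Sg x s → rk s ≤ rk t := fun x hx s hs =>
      hmx (x, s) (Finset.mem_filter.2 ⟨Finset.mem_univ _, hx, hs⟩)
    simp only at hyK hyt
    have : ¬ ∀ z r, Sg z r → G.Adj y z → r ≠ t → rk r < rk t := fun e =>
      hcon ⟨y, hyK, t, Set.mem_toFinset.2 hyt.1, Or.inr ⟨hyt, e⟩⟩
    push Not at this
    obtain ⟨z, r, hzr, hyz, hrt, hrk⟩ := this
    have hrk' : rk t < rk r := lt_of_le_of_ne hrk (fun e => hrt (h4 _ hzr.1 _ hyt.1 e.symm))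
    have hzK : z ∉ K := fun e => by have := hmx' z e r hzr; omega
    have hzS : z ∉ S := fun e => h2 _ hzr.1 _ e hzr.2.1
    have htz : ¬ G.Adj t z := fun e => hrt (hzr.2.2 t hyt.1 e).symm
    obtain ⟨x, hxK, htx⟩ := hmax t (hSK t hyt.1)
    have hxy : G.Adj x y := hcK _ hxK _ hyK (by rintro rfl; exact htx hyt.2.1)
    have hxs : ∃ s, Sg x s := by
      by_contra hn
      obtain ⟨s1, hs1, e1⟩ := h3 x (Set.mem_univ x) (hKS x hxK)
      obtain ⟨s2, hs2, e2, e3⟩ := hdb x hxK hn s1 hs1 e1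
      rcases dbl x y s1 s2 hs1 hs2 e3.symm e1 e2 hxy (hKS y hyK) with e | e
      · exact htx (hyt.2.2 _ hs1 e ▸ e1)
      · exact htx (hyt.2.2 _ hs2 e ▸ e2)
    obtain ⟨s, hxs⟩ := hxs
    have hst : s ≠ t := by rintro rfl; exact htx hxs.2.1
    have hrs : rk s < rk t :=
      lt_of_le_of_ne (hmx' x hxK s hxs) (fun e => hst (h4 _ hxs.1 _ hyt.1 e))
    have hsz : ¬ G.Adj s z := fun e => by have := hzr.2.2 s hxs.1 e; subst this; omega
    have z1 : ∀ w ∈ K, ¬ G.Adj t w → G.Adj w z := by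
      intro w hw htw
      rcases hcl y t w z hyt.2.1.symm (hcK _ hyK _ hw (by rintro rfl; exact htw hyt.2.1)) hyz
        (by rintro rfl; exact hKS _ hw hyt.1) (by rintro rfl; exact hzS hyt.1)
        (by rintro rfl; exact hzK hw) with e | e | e
      · exact (htw e).elim
      · exact (htz e).elim
      · exact e
    have z2 : ∀ w ∈ K, ¬ G.Adj s w → G.Adj w z := by
      intro w hw hsw
      rcases hcl x s w z hxs.2.1.symm (hcK _ hxK _ hw (by rintro rfl; exact hsw hxs.2.1))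
        (z1 x hxK htx) (by rintro rfl; exact hKS _ hw hxs.1) (by rintro rfl; exact hzS hxs.1)
        (by rintro rfl; exact hzK hw) with e | e | e
      · exact (hsw e).elim
      · exact (hsz e).elim
      · exact e
    obtain ⟨d, hdK, hzd⟩ := hmax z hzK
    have hsd : G.Adj s d := by by_contra e; exact hzd (z2 d hdK e).symm
    have htd : G.Adj t d := by by_contra e; exact hzd (z1 d hdK e).symm
    have hor : ∀ w ∈ K, G.Adj s w ∨ G.Adj t w := by
      intro w hw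
      by_cases e : w = d
      · exact Or.inl (e ▸ hsd)
      · exact dbl d w s t hxs.1 hyt.1 hst hsd htd (hcK _ hdK _ hw (Ne.symm e)) (hKS w hw)
    have hsun : Sun G K s t z := by
      refine ⟨hcK, hSK s hxs.1, hSK t hyt.1, hzK, hst, by rintro rfl; exact hzS hxs.1,
        by rintro rfl; exact hzS hyt.1, h2 _ hxs.1 _ hyt.1, hsz, htz, ?_,
        ⟨y, hyK, fun e => hst (hyt.2.2 _ hxs.1 e)⟩, ⟨x, hxK, htx⟩, ⟨d, hdK, hzd⟩⟩
      intro w hw
      by_cases e1 : G.Adj s w <;> by_cases e2 : G.Adj t w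
      · refine Or.inr (Or.inr ⟨e1, e2, fun e => ?_⟩)
        rcases dbl w z s t hxs.1 hyt.1 hst e1 e2 e.symm hzS with e | e
        · exact hsz e
        · exact htz e
      · exact Or.inr (Or.inl ⟨e1, e2, (z1 w hw e2).symm⟩)
      · exact Or.inl ⟨e1, e2, (z2 w hw e1).symm⟩
      · exact ((hor w hw).elim e1 e2).elim
    obtain ⟨s', hs', hlt, w, hw, hw'⟩ := h5 s hxs.1 K t z
      ⟨hsun, hK, hKk, Set.mem_univ _, Set.mem_univ _, Set.mem_univ _⟩
    rcases hw with hw | rfl | rfl <;> rcases hw' with rfl | hw'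
    · exact hKS _ hw hs'
    · by_cases hn : ∃ q, Sg w q
      · obtain ⟨q, hq'⟩ := hn
        have a1 := hq'.2.2 _ hs' hw'
        rcases hor w hw with e | e
        · have a2 := hq'.2.2 _ hxs.1 e
          rw [a1, ← a2] at hlt; omega
        · have a2 := hq'.2.2 _ hyt.1 e
          rw [a1, ← a2] at hlt; omega
      · have hwx : w ≠ x := by rintro rfl; exact hn ⟨s, hxs⟩
        have hwy : w ≠ y := by rintro rfl; exact hn ⟨t, hyt⟩
        obtain ⟨s2, hs2, e2, e3⟩ := hdb w hw hn s' hs' hw'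
        rcases dbl w x s' s2 hs' hs2 e3.symm hw' e2 (hcK _ hw _ hxK hwx) (hKS x hxK) with e | e
        · have := hxs.2.2 _ hs' e; subst this; omega
        · rcases dbl w y s' s2 hs' hs2 e3.symm hw' e2 (hcK _ hw _ hyK hwy) (hKS y hyK) with f | f
          · have := hyt.2.2 _ hs' f; subst this; omega
          · exact hst ((hxs.2.2 _ hs2 e).symm.trans (hyt.2.2 _ hs2 f))
    · omega
    · exact h2 _ hs' _ hyt.1 hw'
    · exact hzS hs'
    · have := hzr.2.2 _ hs' hw'; subst this; omega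
  · have hn : ∀ x ∈ K, ¬ ∃ s, Sg x s := fun x hx e => hsg ⟨x, hx, e⟩
    obtain ⟨x1, hx1⟩ : K.Nonempty := Finset.card_pos.1 (by omega)
    obtain ⟨s, hs, e1⟩ := h3 x1 (Set.mem_univ _) (hKS x1 hx1)
    obtain ⟨t, ht, e2, hts⟩ := hdb x1 hx1 (hn x1 hx1) s hs e1
    have o1 : ∀ w ∈ K, G.Adj s w ∨ G.Adj t w := by
      intro w hw
      by_cases e : w = x1
      · exact Or.inl (e ▸ e1)
      · exact dbl x1 w s t hs ht hts.symm e1 e2 (hcK _ hx1 _ hw (Ne.symm e)) (hKS w hw)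
    obtain ⟨x2, hx2, n2⟩ := hmax s (hSK s hs)
    have e3 : G.Adj t x2 := (o1 x2 hx2).resolve_left n2
    obtain ⟨r, hr, e4, hrt⟩ := hdb x2 hx2 (hn x2 hx2) t ht e3
    have hrs : r ≠ s := by rintro rfl; exact n2 e4
    have o2 : ∀ w ∈ K, G.Adj t w ∨ G.Adj r w := by
      intro w hw
      by_cases e : w = x2
      · exact Or.inl (e ▸ e3)
      · exact dbl x2 w t r ht hr hrt.symm e3 e4 (hcK _ hx2 _ hw (Ne.symm e)) (hKS w hw)
    obtain ⟨x3, hx3, n3⟩ := hmax t (hSK t ht)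
    have e5 : G.Adj s x3 := (o1 x3 hx3).resolve_right n3
    have e6 : G.Adj r x3 := (o2 x3 hx3).resolve_left n3
    have o3 : ∀ w ∈ K, G.Adj s w ∨ G.Adj r w := by
      intro w hw
      by_cases e : w = x3
      · exact Or.inl (e ▸ e5)
      · exact dbl x3 w s r hs hr hrs.symm e5 e6 (hcK _ hx3 _ hw (Ne.symm e)) (hKS w hw)
    have hsun : Sun G K s t r := by
      refine ⟨hcK, hSK s hs, hSK t ht, hSK r hr, hts.symm, hrs.symm, hrt.symm, h2 _ hs _ ht,
        h2 _ hs _ hr, h2 _ ht _ hr, ?_, ⟨x2, hx2, n2⟩, ⟨x3, hx3, n3⟩, hmax r (hSK r hr)⟩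
      intro w hw
      have a1 := o1 w hw
      have a2 := o2 w hw
      have a3 := o3 w hw
      have a4 := three w s t r hs ht hr
      grind
    have fin : ∀ s t r, s ∈ S → t ∈ S → r ∈ S → Sun G K s t r → rk s ≤ rk t → rk s ≤ rk r →
        False := by
      intro s t r hs ht hr hsun l1 l2
      obtain ⟨s', hs', hlt, w, hw, hw'⟩ := h5 s hs K t r
        ⟨hsun, hK, hKk, Set.mem_univ _, Set.mem_univ _, Set.mem_univ _⟩
      have q1 : s' ≠ s := by rintro rfl; omega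
      have q2 : s' ≠ t := by rintro rfl; omega
      have q3 : s' ≠ r := by rintro rfl; omega
      rcases hw with hw | rfl | rfl <;> rcases hw' with rfl | hw'
      · exact hKS _ hw hs'
      · rcases hsun.two w hw with e | e | e
        · exact three w s' t r hs' ht hr hw' e.2.1 e.2.2 q2 q3 hsun.tr
        · exact three w s' s r hs' hs hr hw' e.1 e.2.2 q1 q3 hsun.sr
        · exact three w s' s t hs' hs ht hw' e.1 e.2.1 q1 q2 hsun.st
      · exact q2 rfl
      · exact h2 _ hs' _ ht hw'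
      · exact q3 rfl
      · exact h2 _ hs' _ hr hw'
    by_cases c1 : rk s ≤ rk t ∧ rk s ≤ rk r
    · exact fin s t r hs ht hr hsun c1.1 c1.2
    by_cases c2 : rk t ≤ rk r ∧ rk t ≤ rk s
    · exact fin t r s ht hr hs hsun.rot c2.1 c2.2
    · exact fin r s t hr hs ht hsun.rot.rot (by omega) (by omega)

end Pool.Agent.P.MP_08bb88_co
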