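import Pool.Agent.P.MP_08bb88_co.Wheel

set_option autoImplicit false

namespace Pool.Agent.P.MP_08bb88_co

open Classical

variable {V : Type} {G : SimpleGraph V}

theorem c5_aux (hcl : ClawFree G) {h x w1 w2 q0 : V} (hx : N2 G h x) (a1 : G.Adj h w1)
    (a2 : G.Adj h w2) (b1 : ¬ G.Adj x w1) (b2 : ¬ G.Adj x w2) (hne : w1 ≠ w2)
    (hn : ¬ G.Adj w1 w2) (c1 : G.Adj h q0) (c2 : G.Adj x q0) (c3 : ¬ G.Adj q0 w1)
    (hw : ∀ v1 v2 v3 v4 v5, ¬ Wheel G h v1 v2 v3 v4 v5) : Cob G {y | G.Adj h y} := by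
  have x0 := hx.1
  have x1 := hx.2.1
  refine ⟨{y | G.Adj h y ∧ ((G.Adj x y ∧ ¬ G.Adj y w1) ∨ (¬ G.Adj x y ∧
      ∀ q, G.Adj h q → G.Adj x q → ¬ G.Adj q w1 → G.Adj q y))},
    {y | G.Adj h y ∧ ((G.Adj x y ∧ G.Adj y w1) ∨ (¬ G.Adj x y ∧
      ∃ q, G.Adj h q ∧ G.Adj x q ∧ ¬ G.Adj q w1 ∧ ¬ G.Adj q y))}, ?_, ?_, ?_⟩
  · rintro y ⟨hy, ⟨y1, y2⟩ | ⟨y1, y2⟩⟩ y' ⟨hy', ⟨z1, z2⟩ | ⟨z1, z2⟩⟩ hyy
    · have := hcl.cl h y y' w1
      grind (splits := 40) [asym]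
    · exact z2 y hy y1 y2
    · exact (y2 y' hy' z1 z2).symm
    · have := y2 q0 c1 c2 c3
      have := z2 q0 c1 c2 c3
      have := hcl.cl q0 x y y'
      grind (splits := 40) [asym]
  · have mixed : ∀ y q' q, G.Adj h y → G.Adj h q' → G.Adj x q' → G.Adj q' w1 → ¬ G.Adj x y →
        G.Adj h q → G.Adj x q → ¬ G.Adj q w1 → ¬ G.Adj q y → G.Adj q' y := by
      intro y q' q hy hq' e1 e2 e3 hq e4 e5 e6
      by_contra e7
      have d1 := hcl.cl q' x w1 w2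
      have d2 := hcl.cl h q w1 w2
      have d3 := hcl.cl h q q' y
      have d4 := hcl.cl h q' y w2
      have d5 := hcl.cl h q y w1
      have f1 : ¬ G.Adj q' w2 := by grind (splits := 40) [asym]
      have f2 : G.Adj q w2 := by grind (splits := 40) [asym]
      apply hw q q' w1 y w2
      constructor <;> grind (splits := 40) [asym]
    rintro y ⟨hy, ⟨y1, y2⟩ | ⟨y1, q, y2, y3, y4, y5⟩⟩ y' ⟨hy', ⟨z1, z2⟩ | ⟨z1, q2, z2, z3, z4, z5⟩⟩ hyy
    · have := hcl.cl h y y' w2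
      have := hcl.cl y x w1 w2
      have := hcl.cl y' x w1 w2
      grind (splits := 40) [asym]
    · exact mixed y' y q2 hy' hy y1 y2 z1 z2 z3 z4 z5
    · exact (mixed y y' q hy hy' z1 z2 y1 y2 y3 y4 y5).symm
    · by_contra e7
      have d1 := hcl.cl h q y y'
      have d2 := hcl.cl h q2 y y'
      have d3 := hcl.cl h y' q2 w1
      have d4 := hcl.cl h q q2 w1
      have d5 := hcl.cl h q y w1
      have f1 : G.Adj q y' := by grind (splits := 40) [asym]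
      have f2 : G.Adj q2 y := by grind (splits := 40) [asym]
      apply hw q y' w1 y q2
      constructor <;> grind (splits := 40) [asym]
  · intro y hy
    by_cases e1 : G.Adj x y
    · by_cases e2 : G.Adj y w1
      · exact Or.inr ⟨hy, Or.inl ⟨e1, e2⟩⟩
      · exact Or.inl ⟨hy, Or.inl ⟨e1, e2⟩⟩
    · by_cases e2 : ∀ q, G.Adj h q → G.Adj x q → ¬ G.Adj q w1 → G.Adj q y
      · exact Or.inl ⟨hy, Or.inr ⟨e1, e2⟩⟩
      · push Not at e2
        exact Or.inr ⟨hy, Or.inr ⟨e1, e2⟩⟩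

theorem nonnbr_clique (hcl : ClawFree G) {h x : V} (hx : N2 G h x)
    (hw : ∀ v1 v2 v3 v4 v5, ¬ Wheel G h v1 v2 v3 v4 v5) (hc : ¬ Cob G {y | G.Adj h y}) :
    Clq G {y | G.Adj h y ∧ ¬ G.Adj x y} := by
  intro w1 h1 w2 h2 hne
  by_contra hn
  obtain ⟨x0, x1, q0, c1, c2⟩ := id hx
  have := hcl.cl q0 x w1 w2
  have : ¬ G.Adj q0 w1 ∨ ¬ G.Adj q0 w2 := by
    have := h1.1; have := h1.2; have := h2.1; have := h2.2
    grind (splits := 40) [asym]
  rcases this with e | e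
  · exact hc (c5_aux hcl hx h1.1 h2.1 h1.2 h2.2 hne hn c1 c2 e hw)
  · exact hc (c5_aux hcl hx h2.1 h1.1 h2.2 h1.2 hne.symm (fun f => hn f.symm) c1 c2 e hw)

theorem hub_red [Fintype V] (ih : ∀ O : Set V, (∃ w, w ∉ O) → Div G O) (h : V) (W O C : Set V)
    (hW1 : ∀ x ∈ W, N2 G h x ∨ Far G h x) (hO : ∀ x ∈ O, Far G h x)
    (hW2 : ∀ x, N2 G h x → x ∈ W) (hF : ∀ x, Far G h x → x ∈ W ∨ x ∈ O)
    (hW : Cob G W) (hC : Clq G C) (hWO : ∀ x ∈ W, x ∉ O)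
    (hE : ∀ x ∈ W, ∀ y ∈ O, G.Adj x y → x ∈ C ∧ y ∈ C) : Div G Set.univ := by
  refine div_red ih h W O C (fun e => (hO h e).1 rfl)
    (fun e => (hW1 h e).elim (fun f => f.1 rfl) (fun f => f.1 rfl))
    (fun x hx => (hW1 x hx).elim (fun f => f.2.1) (fun f => f.2.1)) hW
    (fun x hx y _ e => ((hO x hx).2.1 e).elim) hC hWO hE ?_
  intro K hK hmax hv hKW y hy
  obtain ⟨x, hx, hhx⟩ := hmax h hv
  have hxF : Far G h x := by
    rcases quad (G := G) h x with e | e | e | e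
    · exact (hv (e ▸ hx)).elim
    · exact (hhx e).elim
    · exact (hKW x hx (hW2 x e)).elim
    · exact e
  rcases quad (G := G) h y with e | e | e | e
  · exact (hv (e ▸ hy)).elim
  · exact (hxF.2.2 y e (hK x hx y hy (by rintro rfl; exact hhx e))).elim
  · exact (hKW y hy (hW2 y e)).elim
  · exact (hF y e).resolve_left (hKW y hy)

theorem div_noC5 [Fintype V] (ih : ∀ O : Set V, (∃ w, w ∉ O) → Div G O) (hcl : ClawFree G)
    {h : V} (hw : ∀ v1 v2 v3 v4 v5, ¬ Wheel G h v1 v2 v3 v4 v5) (hc : ¬ Cob G {y | G.Adj h y}) :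
    Div G Set.univ := by
  have hq : Clq G {x | N2 G h x} := by
    intro x hx x' hx' hne
    by_contra hn
    apply hc
    refine ⟨_, _, nonnbr_clique hcl hx hw hc, nonnbr_clique hcl hx' hw hc, ?_⟩
    intro y hy
    by_cases e : G.Adj x y
    · exact Or.inr ⟨hy, fun e' => hn (N2.share hcl hx hx' hy e e' hne)⟩
    · exact Or.inl ⟨hy, e⟩
  refine hub_red ih h {x | N2 G h x} {x | Far G h x} ∅ (fun x hx => Or.inl hx) (fun x hx => hx)
    (fun x hx => hx) (fun x hx => Or.inr hx) ⟨_, _, hq, hq, Set.subset_union_left⟩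
    (fun x hx => hx.elim) (fun x hx e => N2.not_far hx e) ?_
  intro x hx z hz hxz
  exfalso
  apply hc
  refine ⟨_, {y | G.Adj h y ∧ G.Adj x y}, nonnbr_clique hcl hx hw hc, ?_, ?_⟩
  · intro y hy y' hy' hne
    have := hcl.cl x z y y'
    have := hz.2.2 y hy.1
    have := hz.2.2 y' hy'.1
    have := hz.2.1
    have := hy.1; have := hy.2; have := hy'.1; have := hy'.2
    grind (splits := 40) [asym]
  · intro y hy
    by_cases e : G.Adj x y
    · exact Or.inr ⟨hy, e⟩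
    · exact Or.inl ⟨hy, e⟩

end Pool.Agent.P.MP_08bb88_co
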