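import Mathlib

set_option autoImplicit false

namespace Pool.Agent.P.MP_08bb88_co

open Classical

variable {V : Type} (G : SimpleGraph V)

def Clq (S : Set V) : Prop := ∀ x ∈ S, ∀ y ∈ S, x ≠ y → G.Adj x y

def Stab (S : Set V) : Prop := ∀ x ∈ S, ∀ y ∈ S, ¬ G.Adj x y

def FClq (K : Finset V) : Prop := ∀ x ∈ K, ∀ y ∈ K, x ≠ y → G.Adj x y

def Bd (T : Set V) (k : ℕ) : Prop :=
  ∀ K : Finset V, (∀ x ∈ K, x ∈ T) → FClq G K → K.card ≤ k

def Hits (A T : Set V) (k : ℕ) : Prop :=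
  ∀ K : Finset V, (∀ x ∈ K, x ∈ T) → FClq G K → K.card = k → ∃ x ∈ K, x ∈ A

def Perf (A : Set V) : Prop :=
  ∀ k : ℕ, ∀ T : Set V, T ⊆ A → Bd G T k →
    ∃ f : V → ℕ, (∀ x ∈ T, f x < k) ∧ ∀ x ∈ T, ∀ y ∈ T, G.Adj x y → f x ≠ f y

def Div (U : Set V) : Prop :=
  ∀ k : ℕ, 0 < k → Bd G U k → ∃ A : Set V, A ⊆ U ∧ Perf G A ∧ Hits G A U k

def Cob (W : Set V) : Prop := ∃ Q1 Q2 : Set V, Clq G Q1 ∧ Clq G Q2 ∧ W ⊆ Q1 ∪ Q2

variable {G}

theorem Bd.mono {T T' : Set V} {k : ℕ} (h : Bd G T k) (hT : T' ⊆ T) : Bd G T' k :=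
  fun K hK hc => h K (fun x hx => hT (hK x hx)) hc

theorem Perf.mono {A A' : Set V} (h : Perf G A) (hA : A' ⊆ A) : Perf G A' :=
  fun k T hT hb => h k T (hT.trans hA) hb

theorem Clq.mono {A A' : Set V} (h : Clq G A) (hA : A' ⊆ A) : Clq G A' :=
  fun x hx y hy hxy => h x (hA hx) y (hA hy) hxy

theorem perf_of_strong {A : Set V}
    (h : ∀ k : ℕ, ∀ T : Set V, T ⊆ A → Bd G T (k+1) →
      ∃ S : Set V, Stab G S ∧ Hits G S T (k+1)) : Perf G A := by
  intro k
  induction k with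
  | zero =>
    intro T _ hb
    have hT : ∀ x, x ∉ T := by
      intro x hx
      have := hb {x} (by simpa using hx) (by intro a ha b hb' hab; simp_all)
      simp at this
    exact ⟨fun _ => 0, fun x hx => (hT x hx).elim, fun x hx => (hT x hx).elim⟩
  | succ k ih =>
    intro T hT hb
    obtain ⟨S, hS, hH⟩ := h k T hT hb
    have hb' : Bd G (T \ S) k := by
      intro K hK hc
      have h1 := hb K (fun x hx => (hK x hx).1) hc
      by_contra hlt
      obtain ⟨x, hx, hxS⟩ := hH K (fun x hx => (hK x hx).1) hc (by omega)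
      exact (hK x hx).2 hxS
    obtain ⟨f, hf1, hf2⟩ := ih (T \ S) (Set.sdiff_subset.trans hT) hb'
    refine ⟨fun x => if x ∈ S then k else f x, ?_, ?_⟩
    · intro x hx
      by_cases hs : x ∈ S
      · simp [hs]
      · have := hf1 x ⟨hx, hs⟩
        simp [hs]; omega
    · intro x hx y hy hxy
      by_cases hs : x ∈ S <;> by_cases hs' : y ∈ S
      · exact (hS x hs y hs' hxy).elim
      · have := hf1 y ⟨hy, hs'⟩
        simp [hs, hs']; omega
      · have := hf1 x ⟨hx, hs⟩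
        simp [hs, hs']; omega
      · simpa [hs, hs'] using hf2 x ⟨hx, hs⟩ y ⟨hy, hs'⟩ hxy

theorem Perf.cls {A T : Set V} {k : ℕ} (h : Perf G A) (hT : T ⊆ A) (hb : Bd G T k)
    {x : V} (hx : x ∈ T) : ∃ S : Set V, S ⊆ T ∧ x ∈ S ∧ Stab G S ∧ Hits G S T k := by
  obtain ⟨f, hf1, hf2⟩ := h k T hT hb
  refine ⟨{y | y ∈ T ∧ f y = f x}, fun y hy => hy.1, ⟨hx, rfl⟩, ?_, ?_⟩
  · intro a ha b hb' hab
    exact hf2 a ha.1 b hb'.1 hab (ha.2.trans hb'.2.symm)
  · intro K hK hc hk
    have hinj : Set.InjOn f K := by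
      intro a ha b hb' hab
      by_contra hne
      exact hf2 a (hK a ha) b (hK b hb') (hc a ha b hb' hne) hab
    have hsub : K.image f ⊆ Finset.range k := by
      intro n hn
      obtain ⟨a, ha, rfl⟩ := Finset.mem_image.1 hn
      exact Finset.mem_range.2 (hf1 a (hK a ha))
    have hcard : (Finset.range k).card ≤ (K.image f).card := by
      rw [Finset.card_image_of_injOn hinj, hk]; simp
    have heq := Finset.eq_of_subset_of_card_le hsub hcard
    have : f x ∈ K.image f := by rw [heq]; exact Finset.mem_range.2 (hf1 x hx)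
    obtain ⟨a, ha, hfa⟩ := Finset.mem_image.1 this
    exact ⟨a, ha, hK a ha, hfa⟩

theorem Perf.strong {A T : Set V} {k : ℕ} (h : Perf G A) (hT : T ⊆ A) (hb : Bd G T k)
    (hk : 0 < k) : ∃ S : Set V, S ⊆ T ∧ Stab G S ∧ Hits G S T k := by
  by_cases hne : T.Nonempty
  · obtain ⟨x, hx⟩ := hne
    obtain ⟨S, h1, _, h3, h4⟩ := h.cls hT hb hx
    exact ⟨S, h1, h3, h4⟩
  · refine ⟨∅, by simp, by intro a ha; simp at ha, ?_⟩
    intro K hK _ hc
    have : K.Nonempty := Finset.card_pos.1 (by omega)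
    obtain ⟨x, hx⟩ := this
    exact (hne ⟨x, hK x hx⟩).elim

theorem exists_omega [Fintype V] (T : Set V) :
    ∃ K : Finset V, (∀ x ∈ K, x ∈ T) ∧ FClq G K ∧ Bd G T K.card := by
  have hne : (Finset.univ.filter (fun K : Finset V => (∀ x ∈ K, x ∈ T) ∧ FClq G K)).Nonempty :=
    ⟨∅, Finset.mem_filter.2 ⟨Finset.mem_univ _, by simp, by simp [FClq]⟩⟩
  obtain ⟨K, hK, hmax⟩ := Finset.exists_max_image _ Finset.card hne
  simp only [Finset.mem_filter, Finset.mem_univ, true_and] at hK hmax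
  exact ⟨K, hK.1, hK.2, fun L h1 h2 => hmax L ⟨h1, h2⟩⟩

theorem Perf.glue {A1 A2 : Set V} (h1 : Perf G A1) (h2 : Perf G A2) (hc : Clq G (A1 ∩ A2))
    (he : ∀ x ∈ A1, ∀ y ∈ A2, G.Adj x y → x ∈ A2 ∨ y ∈ A1) : Perf G (A1 ∪ A2) := by
  apply perf_of_strong
  intro k T hT hb
  have hb1 : Bd G (T ∩ A1) (k+1) := hb.mono Set.inter_subset_left
  have hb2 : Bd G (T ∩ A2) (k+1) := hb.mono Set.inter_subset_left
  have key : ∀ S1 S2 : Set V, Hits G S1 (T ∩ A1) (k+1) → Hits G S2 (T ∩ A2) (k+1) →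
      Hits G (S1 ∪ S2) T (k+1) := by
    intro S1 S2 hH1 hH2 K hK hcK hk
    by_cases hK1 : ∀ x ∈ K, x ∈ A1
    · obtain ⟨x, hx, hxS⟩ := hH1 K (fun x hx => ⟨hK x hx, hK1 x hx⟩) hcK hk
      exact ⟨x, hx, Or.inl hxS⟩
    · push Not at hK1
      obtain ⟨y, hy, hy1⟩ := hK1
      have hy2 : y ∈ A2 := (hT (hK y hy)).resolve_left hy1
      have : ∀ x ∈ K, x ∈ A2 := by
        intro x hx
        by_contra hx2
        have hx1 : x ∈ A1 := (hT (hK x hx)).resolve_right hx2
        have hne : x ≠ y := by rintro rfl; exact hy1 hx1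
        rcases he x hx1 y hy2 (hcK x hx y hy hne) with h | h
        · exact hx2 h
        · exact hy1 h
      obtain ⟨x, hx, hxS⟩ := hH2 K (fun x hx => ⟨hK x hx, this x hx⟩) hcK hk
      exact ⟨x, hx, Or.inr hxS⟩
  by_cases hC : ∃ c ∈ T, c ∈ A1 ∧ c ∈ A2
  · obtain ⟨c, hcT, hc1, hc2⟩ := hC
    obtain ⟨S1, hS1, hcS1, hst1, hH1⟩ := h1.cls Set.inter_subset_right hb1 (x := c) ⟨hcT, hc1⟩
    obtain ⟨S2, hS2, hcS2, hst2, hH2⟩ := h2.cls Set.inter_subset_right hb2 (x := c) ⟨hcT, hc2⟩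
    refine ⟨S1 ∪ S2, ?_, key S1 S2 hH1 hH2⟩
    have cross : ∀ x ∈ S1, ∀ y ∈ S2, ¬ G.Adj x y := by
      intro x hx y hy hxy
      rcases he x (hS1 hx).2 y (hS2 hy).2 hxy with h | h
      · by_cases hxc : x = c
        · subst hxc; exact hst2 x hcS2 y hy hxy
        · exact hst1 x hx c hcS1 (hc x ⟨(hS1 hx).2, h⟩ c ⟨hc1, hc2⟩ hxc)
      · by_cases hyc : y = c
        · subst hyc; exact hst1 x hx y hcS1 hxy
        · exact hst2 y hy c hcS2 (hc y ⟨h, (hS2 hy).2⟩ c ⟨hc1, hc2⟩ hyc)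
    rintro x (hx | hx) y (hy | hy) hxy
    · exact hst1 x hx y hy hxy
    · exact cross x hx y hy hxy
    · exact cross y hy x hx hxy.symm
    · exact hst2 x hx y hy hxy
  · obtain ⟨S1, hS1, hst1, hH1⟩ := h1.strong Set.inter_subset_right hb1 (by omega)
    obtain ⟨S2, hS2, hst2, hH2⟩ := h2.strong Set.inter_subset_right hb2 (by omega)
    refine ⟨S1 ∪ S2, ?_, key S1 S2 hH1 hH2⟩
    have cross : ∀ x ∈ S1, ∀ y ∈ S2, ¬ G.Adj x y := by
      intro x hx y hy hxy
      rcases he x (hS1 hx).2 y (hS2 hy).2 hxy with h | h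
      · exact hC ⟨x, (hS1 hx).1, (hS1 hx).2, h⟩
      · exact hC ⟨y, (hS2 hy).1, h, (hS2 hy).2⟩
    rintro x (hx | hx) y (hy | hy) hxy
    · exact hst1 x hx y hy hxy
    · exact cross x hx y hy hxy
    · exact cross y hy x hx hxy.symm
    · exact hst2 x hx y hy hxy

/-- exchange inside a module: a maximum clique meeting `Y` meets it in a maximum clique -/
theorem swap_card {T Y : Set V} {k : ℕ} (hb : Bd G T k) {K L : Finset V}
    (hK : ∀ x ∈ K, x ∈ T) (hcK : FClq G K) (hL : ∀ x ∈ L, x ∈ T) (hLY : ∀ x ∈ L, x ∈ Y)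
    (hcL : FClq G L) (hcomp : ∀ x ∈ K, x ∉ Y → ∀ y ∈ L, G.Adj x y) :
    (K.filter (fun x => x ∉ Y)).card + L.card ≤ k ∧
      FClq G (K.filter (fun x => x ∉ Y) ∪ L) ∧
      (K.filter (fun x => x ∉ Y) ∪ L).card = (K.filter (fun x => x ∉ Y)).card + L.card := by
  have hd : Disjoint (K.filter (fun x => x ∉ Y)) L := by
    rw [Finset.disjoint_left]
    intro a ha haL
    exact (Finset.mem_filter.1 ha).2 (hLY a haL)
  have hq : FClq G (K.filter (fun x => x ∉ Y) ∪ L) := by
    intro a ha b hb' hab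
    rcases Finset.mem_union.1 ha with ha | ha <;> rcases Finset.mem_union.1 hb' with hb' | hb'
    · exact hcK a (Finset.mem_filter.1 ha).1 b (Finset.mem_filter.1 hb').1 hab
    · exact hcomp a (Finset.mem_filter.1 ha).1 (Finset.mem_filter.1 ha).2 b hb'
    · exact (hcomp b (Finset.mem_filter.1 hb').1 (Finset.mem_filter.1 hb').2 a ha).symm
    · exact hcL a ha b hb' hab
  have hcard := Finset.card_union_of_disjoint hd
  refine ⟨?_, hq, hcard⟩
  rw [← hcard]
  apply hb _ _ hq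
  intro a ha
  rcases Finset.mem_union.1 ha with ha | ha
  · exact hK a (Finset.mem_filter.1 ha).1
  · exact hL a ha

theorem card_split (K : Finset V) (Y : Set V) :
    (K.filter (fun x => x ∈ Y)).card + (K.filter (fun x => x ∉ Y)).card = K.card := by
  have := Finset.card_filter_add_card_filter_not (s := K) (fun x => x ∈ Y)
  convert this

theorem Perf.join [Fintype V] {P Q : Set V} (h1 : Perf G P) (h2 : Perf G Q)
    (he : ∀ x ∈ P, ∀ y ∈ Q, G.Adj x y) : Perf G (P ∪ Q) := by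
  apply perf_of_strong
  intro k T hT hb
  by_cases hne : (T ∩ P).Nonempty
  · obtain ⟨L, hL, hcL, hbL⟩ := exists_omega (G := G) (T ∩ P)
    obtain ⟨x, hx⟩ := hne
    have hpos : 0 < L.card := by
      have := hbL {x} (by simpa using hx) (by intro a ha b hb' hab; simp_all)
      simpa using this
    obtain ⟨S, hS, hst, hH⟩ := h1.strong Set.inter_subset_right hbL hpos
    refine ⟨S, hst, ?_⟩
    intro K hK hcK hk
    obtain ⟨e1, -, -⟩ := swap_card (Y := P) hb hK hcK (fun x hx => (hL x hx).1)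
      (fun x hx => (hL x hx).2) hcL
      (fun x hx hxP y hy => (he y (hL y hy).2 x ((hT (hK x hx)).resolve_left hxP)).symm)
    have e2 := card_split K P
    have hsub : ∀ x ∈ K.filter (fun x => x ∈ P), x ∈ T ∩ P := fun x hx =>
      ⟨hK x (Finset.mem_filter.1 hx).1, (Finset.mem_filter.1 hx).2⟩
    have hq : FClq G (K.filter (fun x => x ∈ P)) := fun a ha b hb' hab =>
      hcK a (Finset.mem_filter.1 ha).1 b (Finset.mem_filter.1 hb').1 hab
    have e3 := hbL _ hsub hq
    obtain ⟨y, hy, hyS⟩ := hH _ hsub hq (by omega)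
    exact ⟨y, (Finset.mem_filter.1 hy).1, hyS⟩
  · have hTQ : T ⊆ Q := fun x hx => (hT hx).resolve_left (fun h => hne ⟨x, hx, h⟩)
    obtain ⟨S, _, hst, hH⟩ := h2.strong hTQ hb (by omega)
    exact ⟨S, hst, hH⟩

def Modu (G : SimpleGraph V) (Y : Set V) : Prop :=
  ∀ w, w ∉ Y → (∀ y ∈ Y, G.Adj w y) ∨ (∀ y ∈ Y, ¬ G.Adj w y)

theorem Perf.subst [Fintype V] {A1 A2 Y : Set V} {y : V} (h1 : Perf G A1) (h2 : Perf G A2)
    (hY : Modu G Y) (hy : y ∈ Y) (hy1 : y ∈ A1) (hA2 : A2 ⊆ Y) :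
    Perf G ((A1 \ Y) ∪ A2) := by
  apply perf_of_strong
  intro k T hT hb
  by_cases hne : (T ∩ Y).Nonempty
  · obtain ⟨L, hL, hcL, hbL⟩ := exists_omega (G := G) (T ∩ Y)
    obtain ⟨x, hx⟩ := hne
    have hpos : 0 < L.card := by
      have := hbL {x} (by simpa using hx) (by intro a ha b hb' hab; simp_all)
      simpa using this
    have hT2 : T ∩ Y ⊆ A2 := fun z hz => (hT hz.1).resolve_left (fun h => h.2 hz.2)
    obtain ⟨S2, hS2, hst2, hH2⟩ := h2.strong hT2 hbL hpos
    have hH1A : (T \ Y) ∪ {y} ⊆ A1 := by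
      rintro z (hz | hz)
      · exact ((hT hz.1).resolve_right (fun h => hz.2 (hA2 h))).1
      · rw [Set.mem_singleton_iff.1 hz]; exact hy1
    have hbH : Bd G ((T \ Y) ∪ {y}) (k+1) := by
      intro K hK hcK
      by_cases hyK : y ∈ K
      · have hKT : ∀ z ∈ K.erase y, z ∈ T := fun z hz =>
          ((hK z (Finset.mem_erase.1 hz).2).resolve_right (Finset.mem_erase.1 hz).1).1
        have hKY : ∀ z ∈ K.erase y, z ∉ Y := fun z hz =>
          ((hK z (Finset.mem_erase.1 hz).2).resolve_right (Finset.mem_erase.1 hz).1).2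
        obtain ⟨e1, -, -⟩ := swap_card (Y := Y) (K := K.erase y) (L := {x}) hb hKT
          (fun a ha b hb' hab => hcK a (Finset.mem_erase.1 ha).2 b (Finset.mem_erase.1 hb').2 hab)
          (by simpa using hx.1) (by simpa using hx.2) (by intro a ha b hb' hab; simp_all)
          (by
            intro z hz hzY w hw
            rw [Finset.mem_singleton.1 hw]
            rcases hY z hzY with h | h
            · exact h x hx.2
            · exact (h y hy (hcK z (Finset.mem_erase.1 hz).2 y hyK (Finset.mem_erase.1 hz).1)).elim)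
        rw [Finset.filter_true_of_mem hKY, Finset.card_erase_of_mem hyK] at e1
        simp at e1
        omega
      · exact hb K (fun z hz => ((hK z hz).resolve_right
          (fun h => hyK (Set.mem_singleton_iff.1 h ▸ hz))).1) hcK
    obtain ⟨S1, hS1, hyS1, hst1, hH1⟩ := h1.cls hH1A hbH (x := y) (Or.inr rfl)
    refine ⟨(S1 \ Y) ∪ S2, ?_, ?_⟩
    · have cross : ∀ a ∈ S1 \ Y, ∀ b ∈ S2, ¬ G.Adj a b := by
        intro a ha b hb' hab
        rcases hY a ha.2 with h | h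
        · exact hst1 a ha.1 y hyS1 (h y hy)
        · exact h b (hS2 hb').2 hab
      rintro a (ha | ha) b (hb' | hb') hab
      · exact hst1 a ha.1 b hb'.1 hab
      · exact cross a ha b hb' hab
      · exact cross b hb' a ha hab.symm
      · exact hst2 a ha b hb' hab
    · intro K hK hcK hk
      by_cases hKY : ∃ z ∈ K, z ∈ Y
      · obtain ⟨z, hz, hzY⟩ := hKY
        obtain ⟨e1, -, -⟩ := swap_card (Y := Y) hb hK hcK (fun x hx => (hL x hx).1)
          (fun x hx => (hL x hx).2) hcL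
          (by
            intro a ha haY w hw
            rcases hY a haY with h | h
            · exact h w (hL w hw).2
            · exact (h z hzY (hcK a ha z hz (by rintro rfl; exact haY hzY))).elim)
        have e2 := card_split K Y
        have hsub : ∀ x ∈ K.filter (fun x => x ∈ Y), x ∈ T ∩ Y := fun x hx =>
          ⟨hK x (Finset.mem_filter.1 hx).1, (Finset.mem_filter.1 hx).2⟩
        have hq : FClq G (K.filter (fun x => x ∈ Y)) := fun a ha b hb' hab =>
          hcK a (Finset.mem_filter.1 ha).1 b (Finset.mem_filter.1 hb').1 hab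
        have e3 := hbL _ hsub hq
        obtain ⟨w, hw, hwS⟩ := hH2 _ hsub hq (by omega)
        exact ⟨w, (Finset.mem_filter.1 hw).1, Or.inr hwS⟩
      · push Not at hKY
        obtain ⟨w, hw, hwS⟩ := hH1 K (fun z hz => Or.inl ⟨hK z hz, hKY z hz⟩) hcK hk
        exact ⟨w, hw, Or.inl ⟨hwS, hKY w hw⟩⟩
  · have hTQ : T ⊆ A1 := fun x hx =>
      ((hT hx).resolve_right (fun h => hne ⟨x, hx, hA2 h⟩)).1
    obtain ⟨S, _, hst, hH⟩ := h1.strong hTQ hb (by omega)
    exact ⟨S, hst, hH⟩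

theorem Cob.perf [Fintype V] {W : Set V} (h : Cob G W) : Perf G W := by
  obtain ⟨Q1, Q2, h1, h2, hW⟩ := h
  intro k T hT hb
  let P2 : Finset V := Finset.univ.filter (fun x => x ∈ T ∧ x ∈ Q2)
  have hP2 : ∀ x, x ∈ P2 ↔ x ∈ T ∧ x ∈ Q2 := by intro x; simp [P2]
  have hc2 : P2.card ≤ k := hb P2 (fun x hx => ((hP2 x).1 hx).1)
    (fun a ha b hb' hab => h2 a ((hP2 a).1 ha).2 b ((hP2 b).1 hb').2 hab)
  obtain ⟨g, hg1, hg2⟩ : ∃ g : V → ℕ, (∀ x ∈ P2, g x < k) ∧
      ∀ x ∈ P2, ∀ y ∈ P2, g x = g y → x = y := by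
    refine ⟨fun x => if hx : x ∈ P2 then (P2.equivFin ⟨x, hx⟩ : ℕ) else 0, ?_, ?_⟩
    · intro x hx
      simp only [hx, dif_pos]
      exact lt_of_lt_of_le (Fin.is_lt _) hc2
    · intro x hx y hy hxy
      simp only [hx, hy, dif_pos] at hxy
      have := P2.equivFin.injective (Fin.ext hxy)
      exact congrArg Subtype.val this
  let t : {x : V // x ∈ T ∧ x ∉ Q2} → Finset ℕ := fun x =>
    (Finset.range k).filter (fun n => ∀ y ∈ P2, g y = n → ¬ G.Adj x.1 y)
  have hall : ∀ s : Finset {x : V // x ∈ T ∧ x ∉ Q2}, s.card ≤ (s.biUnion t).card := by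
    intro s
    rcases s.eq_empty_or_nonempty with rfl | ⟨x0, hx0⟩
    · simp
    let Y : Finset V := P2.filter (fun y => ∀ x ∈ s, G.Adj x.1 y)
    let X : Finset V := s.map (Function.Embedding.subtype _)
    have hX : ∀ a ∈ X, ∃ x ∈ s, x.1 = a := by
      intro a ha
      obtain ⟨x, hx, rfl⟩ := Finset.mem_map.1 ha
      exact ⟨x, hx, rfl⟩
    have hd : Disjoint X Y := by
      rw [Finset.disjoint_left]
      intro a ha haY
      obtain ⟨x, _, rfl⟩ := hX a ha
      exact x.2.2 ((hP2 _).1 (Finset.mem_filter.1 haY).1).2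
    have hq : FClq G (X ∪ Y) := by
      intro a ha b hb' hab
      rcases Finset.mem_union.1 ha with ha | ha <;> rcases Finset.mem_union.1 hb' with hb' | hb'
      · obtain ⟨x, _, rfl⟩ := hX a ha
        obtain ⟨y, _, rfl⟩ := hX b hb'
        exact h1 _ ((hW (hT x.2.1)).resolve_right x.2.2) _ ((hW (hT y.2.1)).resolve_right y.2.2) hab
      · obtain ⟨x, hx, rfl⟩ := hX a ha
        exact (Finset.mem_filter.1 hb').2 x hx
      · obtain ⟨x, hx, rfl⟩ := hX b hb'
        exact ((Finset.mem_filter.1 ha).2 x hx).symm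
      · exact h2 a ((hP2 a).1 (Finset.mem_filter.1 ha).1).2 b
          ((hP2 b).1 (Finset.mem_filter.1 hb').1).2 hab
    have hle := hb (X ∪ Y) (by
      intro a ha
      rcases Finset.mem_union.1 ha with ha | ha
      · obtain ⟨x, _, rfl⟩ := hX a ha
        exact x.2.1
      · exact ((hP2 a).1 (Finset.mem_filter.1 ha).1).1) hq
    rw [Finset.card_union_of_disjoint hd, Finset.card_map] at hle
    have hsub : Finset.range k ⊆ s.biUnion t ∪ Y.image g := by
      intro n hn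
      by_contra hcon
      rw [Finset.mem_union, not_or] at hcon
      have h3 : ∀ x ∈ s, ∃ y ∈ P2, g y = n ∧ G.Adj x.1 y := by
        intro x hx
        by_contra h4
        apply hcon.1
        refine Finset.mem_biUnion.2 ⟨x, hx, Finset.mem_filter.2 ⟨hn, ?_⟩⟩
        intro y hy hgy hadj
        exact h4 ⟨y, hy, hgy, hadj⟩
      obtain ⟨y0, hy0, hgy0, _⟩ := h3 x0 hx0
      apply hcon.2
      refine Finset.mem_image.2 ⟨y0, Finset.mem_filter.2 ⟨hy0, ?_⟩, hgy0⟩
      intro x hx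
      obtain ⟨y, hy, hgy, hadj⟩ := h3 x hx
      rw [← hg2 y hy y0 hy0 (hgy.trans hgy0.symm)]
      exact hadj
    have e1 := Finset.card_le_card hsub
    have e2 := Finset.card_union_le (s.biUnion t) (Y.image g)
    have e3 : (Y.image g).card ≤ Y.card := Finset.card_image_le
    rw [Finset.card_range] at e1
    omega
  obtain ⟨f, hf1, hf2⟩ := (Finset.all_card_le_biUnion_card_iff_exists_injective t).1 hall
  refine ⟨fun x => if hx : x ∈ T ∧ x ∉ Q2 then f ⟨x, hx⟩ else g x, ?_, ?_⟩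
  · intro x hx
    by_cases hq : x ∈ Q2
    · simp only [hq, not_true, and_false, dif_neg, not_false_iff]
      exact hg1 x ((hP2 x).2 ⟨hx, hq⟩)
    · simp only [hx, hq, not_false_iff, and_self, dif_pos]
      exact Finset.mem_range.1 (Finset.mem_filter.1 (hf2 _)).1
  · intro x hx y hy hxy
    by_cases hq : x ∈ Q2 <;> by_cases hq' : y ∈ Q2
    · simp only [hq, hq', not_true, and_false, dif_neg, not_false_iff]
      intro he
      exact hxy.ne (hg2 x ((hP2 x).2 ⟨hx, hq⟩) y ((hP2 y).2 ⟨hy, hq'⟩) he)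
    · simp only [hq, hy, hq', not_true, and_false, dif_neg, not_false_iff, and_self, dif_pos]
      intro he
      exact (Finset.mem_filter.1 (hf2 ⟨y, hy, hq'⟩)).2 x ((hP2 x).2 ⟨hx, hq⟩) he hxy.symm
    · simp only [hq, hx, hq', not_true, and_false, dif_neg, not_false_iff, and_self, dif_pos]
      intro he
      exact (Finset.mem_filter.1 (hf2 ⟨x, hx, hq⟩)).2 y ((hP2 y).2 ⟨hy, hq'⟩) he.symm hxy
    · simp only [hq, hx, hy, hq', not_false_iff, and_self, dif_pos]
      intro he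
      exact hxy.ne (congrArg Subtype.val (hf1 he))

theorem Clq.perf [Fintype V] {W : Set V} (h : Clq G W) : Perf G W :=
  Cob.perf ⟨W, W, h, h, Set.subset_union_left⟩

/-- a clique of the top size is maximal -/
theorem Bd.maxl {T : Set V} {k : ℕ} (hb : Bd G T k) {K : Finset V} (hK : ∀ x ∈ K, x ∈ T)
    (hc : FClq G K) (hk : K.card = k) {v : V} (hv : v ∈ T) (hvK : v ∉ K) :
    ∃ x ∈ K, ¬ G.Adj v x := by
  by_contra h
  push Not at h
  have := hb (insert v K) (by
    intro x hx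
    rcases Finset.mem_insert.1 hx with rfl | hx
    · exact hv
    · exact hK x hx) (by
    intro a ha b hb' hab
    rcases Finset.mem_insert.1 ha with e | ha <;> rcases Finset.mem_insert.1 hb' with e' | hb'
    · exact (hab (e.trans e'.symm)).elim
    · rw [e]; exact h b hb'
    · rw [e']; exact (h a ha).symm
    · exact hc a ha b hb' hab)
  rw [Finset.card_insert_of_notMem hvK] at this
  omega

end Pool.Agent.P.MP_08bb88_co
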