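import Pool.Agent.P.MP_08bb88_co.Reduce

set_option autoImplicit false

namespace Pool.Agent.P.MP_08bb88_co

open Classical

variable {V : Type} {G : SimpleGraph V}

def ClawFree (G : SimpleGraph V) : Prop :=
  ∀ c x y z, G.Adj c x → G.Adj c y → G.Adj c z → x ≠ y → x ≠ z → y ≠ z →
    G.Adj x y ∨ G.Adj x z ∨ G.Adj y z

/-- quasi-line: a two-colouring of every neighbourhood whose classes are cliques -/
def QL (G : SimpleGraph V) (χ : V → V → Bool) : Prop :=
  ∀ v x y, G.Adj v x → G.Adj v y → x ≠ y → χ v x = χ v y → G.Adj x y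

theorem bool3 {x y z : Bool} (h1 : x ≠ y) (h2 : y ≠ z) : x = z := by
  cases x <;> cases y <;> cases z <;> simp_all

theorem bool_or {x y : Bool} (z : Bool) (h1 : x ≠ y) : z = x ∨ z = y := by
  cases x <;> cases y <;> cases z <;> simp_all

theorem QL.claw {χ : V → V → Bool} (h : QL G χ) : ClawFree G := by
  intro c x y z hx hy hz hxy hxz hyz
  have h1 := h c x y hx hy hxy
  have h2 := h c x z hx hz hxz
  have h3 := h c y z hy hz hyz
  cases e1 : χ c x <;> cases e2 : χ c y <;> cases e3 : χ c z <;> simp_all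

/-- path rule of length two in the complement of a neighbourhood -/
theorem QL.p2 {χ : V → V → Bool} (h : QL G χ) {v x y z : V} (hx : G.Adj v x) (hy : G.Adj v y)
    (hz : G.Adj v z) (h1 : ¬ G.Adj x y) (h1' : x ≠ y) (h2 : ¬ G.Adj y z) (h2' : y ≠ z)
    (hne : x ≠ z) : G.Adj x z := by
  have := h.claw v x y z hx hy hz h1' hne h2'
  tauto

theorem QL.p4 {χ : V → V → Bool} (h : QL G χ) {v x y z t u : V} (hx : G.Adj v x)
    (hy : G.Adj v y) (hz : G.Adj v z) (ht : G.Adj v t) (hu : G.Adj v u)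
    (h1 : ¬ G.Adj x y) (h1' : x ≠ y) (h2 : ¬ G.Adj y z) (h2' : y ≠ z)
    (h3 : ¬ G.Adj z t) (h3' : z ≠ t) (h4 : ¬ G.Adj t u) (h4' : t ≠ u)
    (hne : x ≠ u) : G.Adj x u := by
  have a1 := h v x y hx hy h1'
  have a2 := h v y z hy hz h2'
  have a3 := h v z t hz ht h3'
  have a4 := h v t u ht hu h4'
  have a5 := h v x u hx hu hne
  cases e1 : χ v x <;> cases e2 : χ v y <;> cases e3 : χ v z <;> cases e4 : χ v t <;>
    cases e5 : χ v u <;> simp_all

structure Sun (G : SimpleGraph V) (K : Finset V) (s t r : V) : Prop where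
  clq : FClq G K
  s_ni : s ∉ K
  t_ni : t ∉ K
  r_ni : r ∉ K
  st : s ≠ t
  sr : s ≠ r
  tr : t ≠ r
  nst : ¬ G.Adj s t
  nsr : ¬ G.Adj s r
  ntr : ¬ G.Adj t r
  two : ∀ x ∈ K, (¬ G.Adj s x ∧ G.Adj t x ∧ G.Adj r x) ∨ (G.Adj s x ∧ ¬ G.Adj t x ∧ G.Adj r x) ∨
    (G.Adj s x ∧ G.Adj t x ∧ ¬ G.Adj r x)
  exs : ∃ x ∈ K, ¬ G.Adj s x
  ext : ∃ x ∈ K, ¬ G.Adj t x
  exr : ∃ x ∈ K, ¬ G.Adj r x

theorem Sun.swap {K : Finset V} {s t r : V} (h : Sun G K s t r) : Sun G K s r t :=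
  ⟨h.clq, h.s_ni, h.r_ni, h.t_ni, h.sr, h.st, h.tr.symm, h.nsr, h.nst, fun e => h.ntr e.symm,
    fun x hx => by have := h.two x hx; tauto, h.exs, h.exr, h.ext⟩

theorem Sun.rot {K : Finset V} {s t r : V} (h : Sun G K s t r) : Sun G K t r s :=
  ⟨h.clq, h.t_ni, h.r_ni, h.s_ni, h.tr, h.st.symm, h.sr.symm, h.ntr, fun e => h.nst e.symm,
    fun e => h.nsr e.symm, fun x hx => by have := h.two x hx; tauto, h.ext, h.exr, h.exs⟩

theorem Sun.cs {K : Finset V} {s t r x : V} (h : Sun G K s t r) (hx : x ∈ K) (hs : ¬ G.Adj s x) :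
    G.Adj x t ∧ G.Adj x r := by
  rcases h.two x hx with e | e | e
  · exact ⟨e.2.1.symm, e.2.2.symm⟩
  · exact (hs e.1).elim
  · exact (hs e.1).elim

theorem Sun.ct {K : Finset V} {s t r x : V} (h : Sun G K s t r) (hx : x ∈ K) (hs : ¬ G.Adj t x) :
    G.Adj x s ∧ G.Adj x r := (h.rot.cs hx hs).symm

theorem Sun.cr {K : Finset V} {s t r x : V} (h : Sun G K s t r) (hx : x ∈ K) (hs : ¬ G.Adj r x) :
    G.Adj x s ∧ G.Adj x t := h.rot.rot.cs hx hs

/-- in `N(c)` for `c` in the class of `r`: a non-neighbour of a vertex of the class of `s` is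
adjacent to the class of `t` -/
theorem Sun.side {χ : V → V → Bool} (hq : QL G χ) {K : Finset V} {s t r : V} (h : Sun G K s t r)
    {a b c y : V} (ha : a ∈ K) (hb : b ∈ K) (hc : c ∈ K) (hsa : ¬ G.Adj s a) (htb : ¬ G.Adj t b)
    (hrc : ¬ G.Adj r c) (hcy : G.Adj c y) (hya : ¬ G.Adj y a) (hne : y ≠ a) (hyb : y ≠ b) :
    G.Adj y b := by
  have ta := h.cs ha hsa
  have tb := h.ct hb htb
  have tc := h.cr hc hrc
  have hca : c ≠ a := by rintro rfl; exact hsa tc.1.symm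
  have hcb : c ≠ b := by rintro rfl; exact htb tc.2.symm
  exact hq.p4 hcy (h.clq c hc a ha hca) tc.1 tc.2 (h.clq c hc b hb hcb) hya hne
    (fun e => hsa e.symm) (by rintro rfl; exact h.s_ni ha) h.nst h.st htb
    (by rintro rfl; exact h.t_ni hb) hyb

theorem step1a {χ : V → V → Bool} (hq : QL G χ) {K K' : Finset V} {s t r a t' r' a2 : V}
    (h : Sun G K s t r) (h' : Sun G K' a t' r') (ha : a ∈ K) (hsa : ¬ G.Adj s a)
    (ha2 : a2 ∈ K) (hsa2 : ¬ G.Adj s a2) (ha2' : a2 ∈ K') (hb' : ¬ G.Adj t' a2)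
    (hχ : χ a2 t ≠ χ a2 a) : False := by
  obtain ⟨b, hb, htb⟩ := h.ext
  obtain ⟨c, hc, hrc⟩ := h.exr
  obtain ⟨a', ha', haa'⟩ := h'.exs
  obtain ⟨hat, har⟩ := h.cs ha hsa
  obtain ⟨e2, e3⟩ := h.cs ha2 hsa2
  obtain ⟨hbs, hbr⟩ := h.ct hb htb
  obtain ⟨hcs, hct⟩ := h.cr hc hrc
  obtain ⟨e1, e4⟩ := h'.ct ha2' hb'
  obtain ⟨g5, g6⟩ := h'.cs ha' haa'
  have e5 : G.Adj a2 a' := h'.clq _ ha2' _ ha' (by rintro rfl; exact haa' e1.symm)
  have e6 : G.Adj a2 c := h.clq _ ha2 _ hc (by rintro rfl; exact hsa2 hcs.symm)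
  have hab : G.Adj a b := h.clq _ ha _ hb (by rintro rfl; exact hsa hbs.symm)
  have hac : G.Adj a c := h.clq _ ha _ hc (by rintro rfl; exact hsa hcs.symm)
  have c1 := hq a2 t r e2 e3 h.tr
  have c2 := hq a2 r c e3 e6 (by rintro rfl; exact h.r_ni hc)
  have c3 := hq a2 a r' e1 e4 h'.sr
  have c4 := hq a2 a a' e1 e5 (by rintro rfl; exact h'.s_ni ha')
  have n1 := h'.nsr
  have n2 := h.ntr
  have k1 : χ a2 r' = χ a2 t := bool3 (fun e => n1 (c3 e.symm)) hχ.symm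
  have k2 : χ a2 a' = χ a2 t := bool3 (fun e => haa' (c4 e.symm)) hχ.symm
  have k3 : χ a2 c = χ a2 t := bool3 (fun e => hrc (c2 e.symm)) (fun e => n2 (c1 e.symm))
  have f1 : G.Adj r' t := hq a2 r' t e4 e2 (by rintro rfl; exact h'.nsr hat) k1
  have f2 : G.Adj r' c := hq a2 r' c e4 e6 (by rintro rfl; exact h'.nsr hac) (k1.trans k3.symm)
  have f3 : G.Adj a' t := hq a2 a' t e5 e2 (by rintro rfl; exact haa' hat) k2
  have f4 : G.Adj a' c := hq a2 a' c e5 e6 (by rintro rfl; exact haa' hac) (k2.trans k3.symm)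
  have g1 : G.Adj r' b := h.side hq ha hb hc hsa htb hrc f2.symm (fun e => h'.nsr e.symm)
    h'.sr.symm (by rintro rfl; exact h'.nsr hab)
  have g2 : G.Adj a' b := h.side hq ha hb hc hsa htb hrc f4.symm (fun e => haa' e.symm)
    (by rintro rfl; exact h'.s_ni ha') (by rintro rfl; exact haa' hab)
  have n3 := h'.nst
  have n4 := h'.ntr
  have g3 : ¬ G.Adj b t' := by
    intro e
    have := hq.claw b a t' r' hab.symm e g1.symm h'.st h'.sr h'.tr
    grind
  have g4 : ¬ G.Adj t t' := by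
    intro e
    have := hq.claw t a t' r' hat.symm e f1.symm h'.st h'.sr h'.tr
    grind
  have := hq.claw a' t b t' f3 g2 g5 (by rintro rfl; exact h.t_ni hb)
    (by rintro rfl; exact h'.nst hat) (by rintro rfl; exact h'.nst hab)
  grind

theorem step1a' {χ : V → V → Bool} (hq : QL G χ) {K K' : Finset V} {s t r a t' r' a2 : V}
    (h : Sun G K s t r) (h' : Sun G K' a t' r') (ha : a ∈ K) (hsa : ¬ G.Adj s a)
    (ha2 : a2 ∈ K) (hsa2 : ¬ G.Adj s a2) (ha2' : a2 ∈ K') : False := by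
  have haa : G.Adj a a2 := h.clq _ ha _ ha2 (by rintro rfl; exact h'.s_ni ha2')
  obtain ⟨e2, e3⟩ := h.cs ha2 hsa2
  have c1 := hq a2 t r e2 e3 h.tr
  have n2 := h.ntr
  have hχ : χ a2 t ≠ χ a2 a ∨ χ a2 r ≠ χ a2 a := by grind
  have hb : ¬ G.Adj t' a2 ∨ ¬ G.Adj r' a2 := by have := h'.two a2 ha2'; grind
  rcases hχ with hχ | hχ <;> rcases hb with hb | hb
  · exact step1a hq h h' ha hsa ha2 hsa2 ha2' hb hχ
  · exact step1a hq h h'.swap ha hsa ha2 hsa2 ha2' hb hχ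
  · exact step1a hq h.swap h' ha hsa ha2 hsa2 ha2' hb hχ
  · exact step1a hq h.swap h'.swap ha hsa ha2 hsa2 ha2' hb hχ

theorem step1b {χ : V → V → Bool} (hq : QL G χ) {K K' : Finset V} {s t r a t' r' a2 l : V}
    (h : Sun G K s t r) (h' : Sun G K' a t' r') (ha : a ∈ K) (hsa : ¬ G.Adj s a)
    (ha2 : a2 ∈ K) (hsa2 : ¬ G.Adj s a2) (hl : l ∈ K') (hb' : ¬ G.Adj t' l)
    (hn : ¬ G.Adj a2 l) (hχ : χ a l = χ a t) : False := by
  obtain ⟨b, hb, htb⟩ := h.ext
  obtain ⟨c, hc, hrc⟩ := h.exr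
  obtain ⟨c', hc', hrc'⟩ := h'.exr
  obtain ⟨hat, har⟩ := h.cs ha hsa
  obtain ⟨e2, e3⟩ := h.cs ha2 hsa2
  obtain ⟨hbs, hbr⟩ := h.ct hb htb
  obtain ⟨hcs, hct⟩ := h.cr hc hrc
  obtain ⟨hla, hlr'⟩ := h'.ct hl hb'
  obtain ⟨hc'a, hc't'⟩ := h'.cr hc' hrc'
  have hne : a2 ≠ l := by rintro rfl; exact step1a' hq h h' ha hsa ha2 hsa2 hl
  have hlK : l ∉ K := fun e => hn (h.clq _ ha2 _ e hne)
  have haa2 : G.Adj a a2 := h.clq _ ha _ ha2 (by rintro rfl; exact hn hla.symm)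
  have hab : G.Adj a b := h.clq _ ha _ hb (by rintro rfl; exact hsa hbs.symm)
  have hac : G.Adj a c := h.clq _ ha _ hc (by rintro rfl; exact hsa hcs.symm)
  have ha2b : G.Adj a2 b := h.clq _ ha2 _ hb (by rintro rfl; exact hsa2 hbs.symm)
  have ha2c : G.Adj a2 c := h.clq _ ha2 _ hc (by rintro rfl; exact hsa2 hcs.symm)
  have hbc : G.Adj b c := h.clq _ hb _ hc (by rintro rfl; exact htb hct.symm)
  have n1 := h'.nsr
  have n2 := h.ntr
  have n3 := h'.nst
  have n4 := h'.ntr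
  have c1 := hq a t r hat har h.tr
  have c2 := hq a r c har hac (by rintro rfl; exact h.r_ni hc)
  have c3 := hq a t b hat hab (by rintro rfl; exact h.t_ni hb)
  have k0 : χ a t = χ a c := bool3 (fun e => n2 (c1 e)) (fun e => hrc (c2 e))
  have k1 : χ a l = χ a c := hχ.trans k0
  have f1 : G.Adj l c := hq a l c hla.symm hac (by rintro rfl; exact hlK hc) k1
  have f2 : G.Adj l t := hq a l t hla.symm hat (by rintro rfl; exact hn e2) hχ
  have f3 : G.Adj l s := hq.p2 f1.symm ha2c.symm hcs (fun e => hn e.symm) hne.symm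
    (fun e => hsa2 e.symm) (by rintro rfl; exact h.s_ni ha2) (by rintro rfl; exact hsa hla)
  have f4 : G.Adj l b := h.side hq ha2 hb hc hsa2 htb hrc f1.symm (fun e => hn e.symm) hne.symm
    (by rintro rfl; exact hlK hb)
  have f5 : G.Adj r' b := hq.p4 hlr' hla f3 f2 f4 (fun e => n1 e.symm) h'.sr.symm
    (fun e => hsa e.symm) (by rintro rfl; exact h.s_ni ha) h.nst h.st htb
    (by rintro rfl; exact h.t_ni hb) (by rintro rfl; exact n1 hab)
  have f6 : G.Adj r' c := h.swap.side hq ha hc hb hsa hrc htb f5.symm (fun e => n1 e.symm)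
    h'.sr.symm (by rintro rfl; exact n1 hac)
  have g3 : ¬ G.Adj t' b := by
    intro e
    have := hq.claw b a t' r' hab.symm e.symm f5.symm h'.st h'.sr h'.tr
    grind
  have g4 : ¬ G.Adj t' c := by
    intro e
    have := hq.claw c a t' r' hac.symm e.symm f6.symm h'.st h'.sr h'.tr
    grind
  have hc'b : c' ≠ b := by rintro rfl; exact hrc' f5
  have hc'c : c' ≠ c := by rintro rfl; exact hrc' f6
  have hc'a2 : c' ≠ a2 := by rintro rfl; exact step1a' hq h h' ha hsa ha2 hsa2 hc'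
  have c4 := hq a c' b hc'a.symm hab hc'b
  have c5 := hq a c' c hc'a.symm hac hc'c
  have hr'c' : c' ≠ r' := by rintro rfl; exact h'.r_ni hc'
  have g5 : G.Adj c' a2 := by
    have : G.Adj c' b ∨ G.Adj c' c :=
      (bool_or (χ a c') (x := χ a b) (y := χ a c)
        (fun e => htb (c3 (k0.trans e.symm)))).imp c4 c5
    rcases this with e | e
    · exact hq.p4 e.symm f5.symm hab.symm hbs ha2b.symm (fun e => hrc' e.symm) hr'c'
        (fun e => n1 e.symm) h'.sr.symm (fun e => hsa e.symm) (by rintro rfl; exact h.s_ni ha)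
        hsa2 (by rintro rfl; exact h.s_ni ha2) hc'a2
    · exact hq.p4 e.symm f6.symm hac.symm hcs ha2c.symm (fun e => hrc' e.symm) hr'c'
        (fun e => n1 e.symm) h'.sr.symm (fun e => hsa e.symm) (by rintro rfl; exact h.s_ni ha)
        hsa2 (by rintro rfl; exact h.s_ni ha2) hc'a2
  have hc'l : G.Adj c' l := h'.clq _ hc' _ hl (by rintro rfl; exact hb' hc't'.symm)
  have g6 : G.Adj a2 t' := hq.p2 g5 hc'l hc't' hn hne (fun e => hb' e.symm)
    (by rintro rfl; exact h'.t_ni hl) (by rintro rfl; exact n3 haa2)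
  exact g4 (hq.p4 g6 ha2b e2 e3 ha2c g3 (by rintro rfl; exact n3 hab) (fun e => htb e.symm)
    (by rintro rfl; exact h.t_ni hb) n2 h.tr hrc (by rintro rfl; exact h.r_ni hc)
    (by rintro rfl; exact n3 hac))

theorem step1b' {χ : V → V → Bool} (hq : QL G χ) {K K' : Finset V} {s t r a t' r' a2 l : V}
    (h : Sun G K s t r) (h' : Sun G K' a t' r') (ha : a ∈ K) (hsa : ¬ G.Adj s a)
    (ha2 : a2 ∈ K) (hsa2 : ¬ G.Adj s a2) (hl : l ∈ K') (hal : G.Adj a l) : G.Adj a2 l := by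
  by_contra hn
  obtain ⟨e2, e3⟩ := h.cs ha hsa
  have c1 := hq a t r e2 e3 h.tr
  have n2 := h.ntr
  have hχ : χ a l = χ a t ∨ χ a l = χ a r := bool_or _ (fun e => n2 (c1 e))
  have hb : ¬ G.Adj t' l ∨ ¬ G.Adj r' l := by have := h'.two l hl; grind
  rcases hχ with hχ | hχ <;> rcases hb with hb | hb
  · exact step1b hq h h' ha hsa ha2 hsa2 hl hb hn hχ
  · exact step1b hq h h'.swap ha hsa ha2 hsa2 hl hb hn hχ
  · exact step1b hq h.swap h' ha hsa ha2 hsa2 hl hb hn hχ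
  · exact step1b hq h.swap h'.swap ha hsa ha2 hsa2 hl hb hn hχ

theorem Bd.two {U : Set V} {k : ℕ} (hb : Bd G U k) {P Q : Finset V} (hP : ∀ x ∈ P, x ∈ U)
    (hQ : ∀ x ∈ Q, x ∈ U) (cP : FClq G P) (cQ : FClq G Q) (hc : ∀ x ∈ P, ∀ y ∈ Q, G.Adj x y) :
    P.card + Q.card ≤ k := by
  have hd : Disjoint P Q := by
    rw [Finset.disjoint_left]
    intro a ha haQ
    exact G.irrefl (hc a ha a haQ)
  rw [← Finset.card_union_of_disjoint hd]
  apply hb
  · intro x hx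
    rcases Finset.mem_union.1 hx with hx | hx
    · exact hP x hx
    · exact hQ x hx
  · intro a ha b hb' hab
    rcases Finset.mem_union.1 ha with ha | ha <;> rcases Finset.mem_union.1 hb' with hb' | hb'
    · exact cP a ha b hb' hab
    · exact hc a ha b hb'
    · exact (hc b hb' a ha).symm
    · exact cQ a ha b hb' hab

theorem FClq.insert {K : Finset V} (h : FClq G K) {v : V} (hv : ∀ x ∈ K, G.Adj v x) :
    FClq G (insert v K) := by
  intro a ha b hb' hab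
  rcases Finset.mem_insert.1 ha with e | ha <;> rcases Finset.mem_insert.1 hb' with e' | hb'
  · exact (hab (e.trans e'.symm)).elim
  · rw [e]; exact hv b hb'
  · rw [e']; exact (hv a ha).symm
  · exact h a ha b hb' hab

noncomputable def cls (G : SimpleGraph V) (K : Finset V) (s : V) : Finset V :=
  K.filter (fun x => ¬ G.Adj s x)

noncomputable def ncls (G : SimpleGraph V) (K : Finset V) (s : V) : Finset V :=
  K.filter (fun x => G.Adj s x)

theorem mem_cls {K : Finset V} {s x : V} : x ∈ cls G K s ↔ x ∈ K ∧ ¬ G.Adj s x := by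
  simp [cls]

theorem mem_ncls {K : Finset V} {s x : V} : x ∈ ncls G K s ↔ x ∈ K ∧ G.Adj s x := by
  simp [ncls]

theorem card_cls (K : Finset V) (s : V) : (ncls G K s).card + (cls G K s).card = K.card := by
  unfold ncls cls
  convert Finset.card_filter_add_card_filter_not (s := K) (fun x => G.Adj s x)

theorem FClq.cls {K : Finset V} (h : FClq G K) (s : V) : FClq G (cls G K s) :=
  fun a ha b hb hab => h a (mem_cls.1 ha).1 b (mem_cls.1 hb).1 hab

theorem FClq.ncls {K : Finset V} (h : FClq G K) (s : V) : FClq G (ncls G K s) :=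
  fun a ha b hb hab => h a (mem_ncls.1 ha).1 b (mem_ncls.1 hb).1 hab

theorem spread {χ : V → V → Bool} (hq : QL G χ) {K : Finset V} {s t r a c y : V}
    (h : Sun G K s t r) (ha : a ∈ K) (hsa : ¬ G.Adj s a) (hc : c ∈ K) (hrc : ¬ G.Adj r c)
    (hcy : G.Adj c y) (hya : ¬ G.Adj y a) (hne : y ≠ a) :
    ∀ x ∈ K, G.Adj s x → G.Adj y x := by
  have hyK : ∀ x ∈ K, y ≠ x := by
    rintro x hx rfl
    exact hya (h.clq _ hx _ ha hne)
  have hB : ∀ b ∈ K, ¬ G.Adj t b → G.Adj y b := fun b hb htb =>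
    h.side hq ha hb hc hsa htb hrc hcy hya hne (hyK b hb)
  obtain ⟨b, hb, htb⟩ := h.ext
  intro x hx hsx
  by_cases htx : G.Adj t x
  · have hrx : ¬ G.Adj r x := by have := h.two x hx; grind
    exact h.swap.side hq ha hx hb hsa hrx htb (hB b hb htb).symm hya hne (hyK x hx)
  · exact hB x hx htx

theorem lemmaX {χ : V → V → Bool} (hq : QL G χ) {U : Set V} {k : ℕ} (hb : Bd G U k)
    {K K' : Finset V} {s t r a t' r' c : V}
    (h : Sun G K s t r) (h' : Sun G K' a t' r') (hK : ∀ x ∈ K, x ∈ U) (hK' : ∀ x ∈ K', x ∈ U)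
    (ht' : t' ∈ U) (hk : K.card = k) (hle : (cls G K s).card ≤ (cls G K' a).card)
    (ha : a ∈ K) (hsa : ¬ G.Adj s a) (hc : c ∈ K) (hsc : G.Adj s c) (hct : G.Adj c t')
    (hcA : ∀ y ∈ K', ¬ G.Adj a y → G.Adj c y) : False := by
  have key : ∀ y, G.Adj c y → ¬ G.Adj y a → y ≠ a → ∀ x ∈ K, G.Adj s x → G.Adj y x := by
    intro y h1 h2 h3
    have : ¬ G.Adj r c ∨ ¬ G.Adj t c := by have := h.two c hc; grind
    rcases this with e | e
    · exact spread hq h ha hsa hc e h1 h2 h3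
    · exact spread hq h.swap ha hsa hc e h1 h2 h3
  have := hb.two (P := insert t' (cls G K' a)) (Q := ncls G K s)
    (by
      intro x hx
      rcases Finset.mem_insert.1 hx with rfl | hx
      · exact ht'
      · exact hK' x (mem_cls.1 hx).1)
    (fun x hx => hK x (mem_ncls.1 hx).1)
    ((h'.clq.cls _).insert (fun x hx => (h'.cs (mem_cls.1 hx).1 (mem_cls.1 hx).2).1.symm))
    (h.clq.ncls _)
    (by
      intro y hy x hx
      rcases Finset.mem_insert.1 hy with rfl | hy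
      · exact key _ hct (fun e => h'.nst e.symm) h'.st.symm x (mem_ncls.1 hx).1 (mem_ncls.1 hx).2
      · exact key _ (hcA y (mem_cls.1 hy).1 (mem_cls.1 hy).2) (fun e => (mem_cls.1 hy).2 e.symm)
          (by rintro rfl; exact h'.s_ni (mem_cls.1 hy).1) x (mem_ncls.1 hx).1 (mem_ncls.1 hx).2)
  rw [Finset.card_insert_of_notMem (fun e => h'.t_ni (mem_cls.1 e).1)] at this
  have := card_cls (G := G) K s
  omega

theorem step2 {χ : V → V → Bool} (hq : QL G χ) {K' : Finset V} {a t' r' c l : V}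
    (h' : Sun G K' a t' r') (hac : G.Adj a c) (hcK : c ∉ K')
    (hX : ¬ (G.Adj c r' ∧ ∀ y ∈ K', ¬ G.Adj a y → G.Adj c y))
    (hl : l ∈ K') (htl : ¬ G.Adj t' l) (hcl : G.Adj c l) :
    ∀ x ∈ K', ¬ G.Adj r' x → G.Adj c x := by
  intro x hx hrx
  obtain ⟨hla, hlr⟩ := h'.ct hl htl
  obtain ⟨hxa, hxt⟩ := h'.cr hx hrx
  have hlx : G.Adj l x := h'.clq _ hl _ hx (by rintro rfl; exact htl hxt.symm)
  have c1 : χ l a ≠ χ l r' := fun e => h'.nsr (hq l a r' hla hlr h'.sr e)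
  have c2 : χ l r' ≠ χ l x := fun e => hrx (hq l r' x hlr hlx (by rintro rfl; exact h'.r_ni hx) e)
  rcases bool_or (χ l c) c1 with e | e
  · exact hq l c x hcl.symm hlx (by rintro rfl; exact hcK hx) (e.trans (bool3 c1 c2))
  · exfalso
    apply hX
    refine ⟨hq l c r' hcl.symm hlr (by rintro rfl; exact h'.nsr hac) e, ?_⟩
    intro y hy hay
    have hly : G.Adj l y := h'.clq _ hl _ hy (by rintro rfl; exact hay hla.symm)
    have c3 : χ l a ≠ χ l y := fun e => hay (hq l a y hla hly (by rintro rfl; exact h'.s_ni hy) e)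
    exact hq l c y hcl.symm hly (by rintro rfl; exact hcK hy) (e.trans (bool3 c1.symm c3))

theorem heavy {χ : V → V → Bool} (hq : QL G χ) {U : Set V} {k : ℕ} (hb : Bd G U k)
    {K K' : Finset V} {s t r a t' r' : V}
    (h : Sun G K s t r) (h' : Sun G K' a t' r') (hK : ∀ x ∈ K, x ∈ U) (hK' : ∀ x ∈ K', x ∈ U)
    (ht' : t' ∈ U) (hr' : r' ∈ U) (hk : K.card = k) (hk' : K'.card = k)
    (hge : (cls G K' a).card ≤ (cls G K s).card)
    (ha : a ∈ K) (hsa : ¬ G.Adj s a) : False := by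
  have hAL : ∀ x ∈ cls G K s, ∀ y ∈ ncls G K' a, G.Adj x y := fun x hx y hy =>
    step1b' hq h h' ha hsa (mem_cls.1 hx).1 (mem_cls.1 hx).2 (mem_ncls.1 hy).1 (mem_ncls.1 hy).2
  have e1 := hb.two (fun x hx => hK x (mem_cls.1 hx).1) (fun x hx => hK' x (mem_ncls.1 hx).1)
    (h.clq.cls _) (h'.clq.ncls _) hAL
  have e2 := card_cls (G := G) K' a
  have hle : (cls G K s).card ≤ (cls G K' a).card := by omega
  have X1 : ∀ c ∈ K, G.Adj s c → ¬ (G.Adj c t' ∧ ∀ y ∈ K', ¬ G.Adj a y → G.Adj c y) :=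
    fun c hc hsc e => lemmaX hq hb h h' hK hK' ht' hk hle ha hsa hc hsc e.1 e.2
  have X2 : ∀ c ∈ K, G.Adj s c → ¬ (G.Adj c r' ∧ ∀ y ∈ K', ¬ G.Adj a y → G.Adj c y) :=
    fun c hc hsc e => lemmaX hq hb h h'.swap hK hK' hr' hk hle ha hsa hc hsc e.1 e.2
  have hac : ∀ c ∈ K, G.Adj s c → G.Adj a c := fun c hc hsc =>
    h.clq _ ha _ hc (by rintro rfl; exact hsa hsc)
  have X3 : ∀ c ∈ K, G.Adj s c → c ∉ K' := by
    intro c hc hsc hcK
    have hA : ∀ y ∈ K', ¬ G.Adj a y → G.Adj c y := fun y hy hay =>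
      h'.clq _ hcK _ hy (by rintro rfl; exact hay (hac _ hc hsc))
    have : G.Adj t' c ∨ G.Adj r' c := by have := h'.two c hcK; grind
    rcases this with e | e
    · exact X1 c hc hsc ⟨e.symm, hA⟩
    · exact X2 c hc hsc ⟨e.symm, hA⟩
  obtain ⟨l, hl, htl⟩ := h'.ext
  obtain ⟨m, hm, hrm⟩ := h'.exr
  obtain ⟨b, hb0, htb⟩ := h.ext
  obtain ⟨c, hc, hrc⟩ := h.exr
  obtain ⟨hat, har⟩ := h.cs ha hsa
  obtain ⟨hbs, hbr⟩ := h.ct hb0 htb
  obtain ⟨hcs, hct⟩ := h.cr hc hrc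
  obtain ⟨hla, hlr⟩ := h'.ct hl htl
  have hex : ∃ d ∈ K, G.Adj s d ∧ G.Adj d l := by
    by_contra hcon
    push Not at hcon
    have n1 := hcon b hb0 hbs.symm
    have n2 := hcon c hc hcs.symm
    exact n2 (hq.p4 (hac c hc hcs.symm) har hat (hac b hb0 hbs.symm) hla.symm
      (fun e => hrc e.symm) (by rintro rfl; exact h.r_ni hc) (fun e => h.ntr e.symm) h.tr.symm
      htb (by rintro rfl; exact h.t_ni hb0) n1 (by rintro rfl; exact X3 _ hb0 hbs.symm hl)
      (by rintro rfl; exact X3 _ hc hcs.symm hl))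
  obtain ⟨d, hd, hsd, hdl⟩ := hex
  have d1 := step2 hq h' (hac d hd hsd) (X3 d hd hsd) (X2 d hd hsd) hl htl hdl
  have d2 := step2 hq h'.swap (hac d hd hsd) (X3 d hd hsd) (X1 d hd hsd) hm hrm (d1 m hm hrm)
  have e3 := hb.two (P := insert d (cls G K s)) (Q := ncls G K' a)
    (by
      intro x hx
      rcases Finset.mem_insert.1 hx with rfl | hx
      · exact hK _ hd
      · exact hK x (mem_cls.1 hx).1)
    (fun x hx => hK' x (mem_ncls.1 hx).1)
    ((h.clq.cls _).insert (fun x hx => h.clq _ hd _ (mem_cls.1 hx).1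
      (by rintro rfl; exact (mem_cls.1 hx).2 hsd)))
    (h'.clq.ncls _)
    (by
      intro y hy x hx
      rcases Finset.mem_insert.1 hy with rfl | hy
      · have : ¬ G.Adj r' x ∨ ¬ G.Adj t' x := by
          have := h'.two x (mem_ncls.1 hx).1
          have := (mem_ncls.1 hx).2
          grind
        rcases this with e | e
        · exact d1 x (mem_ncls.1 hx).1 e
        · exact d2 x (mem_ncls.1 hx).1 e
      · exact hAL y hy x hx)
  rw [Finset.card_insert_of_notMem (fun e => (mem_cls.1 e).2 hsd)] at e3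
  omega

def SunIn (G : SimpleGraph V) (U : Set V) (k : ℕ) (K : Finset V) (s t r : V) : Prop :=
  Sun G K s t r ∧ (∀ x ∈ K, x ∈ U) ∧ K.card = k ∧ s ∈ U ∧ t ∈ U ∧ r ∈ U

theorem exists_nonsun [Fintype V] {χ : V → V → Bool} (hq : QL G χ) {U : Set V} {k : ℕ}
    (hb : Bd G U k) (hU : U.Nonempty) : ∃ u ∈ U, ∀ K t r, ¬ SunIn G U k K u t r := by
  by_cases hex : ∃ K s t r, SunIn G U k K s t r
  · obtain ⟨K0, s0, t0, r0, h0⟩ := hex
    have hne : (Finset.univ.filter (fun p : Finset V × V => ∃ t r, SunIn G U k p.1 p.2 t r)).Nonempty :=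
      ⟨(K0, s0), Finset.mem_filter.2 ⟨Finset.mem_univ _, t0, r0, h0⟩⟩
    obtain ⟨⟨K, s⟩, hK, hmax⟩ := Finset.exists_max_image _ (fun p => (cls G p.1 p.2).card) hne
    obtain ⟨t, r, h, hKU, hk, -⟩ := (Finset.mem_filter.1 hK).2
    obtain ⟨a, ha, hsa⟩ := h.exs
    refine ⟨a, hKU a ha, ?_⟩
    intro K' t' r' h'
    have hge := hmax (K', a) (Finset.mem_filter.2 ⟨Finset.mem_univ _, t', r', h'⟩)
    obtain ⟨h', hKU', hk', -, ht', hr'⟩ := h'
    exact heavy hq hb h h' hKU hKU' ht' hr' hk hk' hge ha hsa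
  · obtain ⟨u, hu⟩ := hU
    exact ⟨u, hu, fun K t r h => hex ⟨K, u, t, r, h⟩⟩

end Pool.Agent.P.MP_08bb88_co
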