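import Pool.Agent.P.MP_08bb88_co.Perf

set_option autoImplicit false

namespace Pool.Agent.P.MP_08bb88_co

open Classical

variable {V : Type} {G : SimpleGraph V}

theorem perf_add_simplicial [Fintype V] {A : Set V} {v : V} (h : Perf G A)
    (hc : ∀ x ∈ A, ∀ y ∈ A, G.Adj v x → G.Adj v y → x ≠ y → G.Adj x y) : Perf G (A ∪ {v}) := by
  have hq : Clq G ({v} ∪ {x | x ∈ A ∧ G.Adj v x}) := by
    rintro x (hx | hx) y (hy | hy) hxy
    · exact (hxy (hx.trans hy.symm)).elim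
    · rw [Set.mem_singleton_iff.1 hx]; exact hy.2
    · rw [Set.mem_singleton_iff.1 hy]; exact hx.2.symm
    · exact hc x hx.1 y hy.1 hx.2 hy.2 hxy
  have := h.glue hq.perf (hq.mono Set.inter_subset_right) (by
    rintro x hx y (hy | hy) hxy
    · rw [Set.mem_singleton_iff.1 hy] at hxy
      exact Or.inl (Or.inr ⟨hx, hxy.symm⟩)
    · exact Or.inr hy.1)
  refine this.mono ?_
  rintro x (hx | hx)
  · exact Or.inl hx
  · exact Or.inr (Or.inl hx)

theorem div_of_M [Fintype V] {v : V} (h : Perf G {x | x ≠ v ∧ ¬ G.Adj v x}) :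
    Div G Set.univ := by
  intro k _ hb
  refine ⟨{x | x ≠ v ∧ ¬ G.Adj v x} ∪ {v}, Set.subset_univ _,
    perf_add_simplicial h (fun x hx y _ hvx => (hx.2 hvx).elim), ?_⟩
  intro K hK hc hk
  by_cases hv : v ∈ K
  · exact ⟨v, hv, Or.inr rfl⟩
  · obtain ⟨x, hx, hvx⟩ := hb.maxl hK hc hk (Set.mem_univ v) hv
    exact ⟨x, hx, Or.inl ⟨by rintro rfl; exact hv hx, hvx⟩⟩

theorem div_module [Fintype V] (ih : ∀ O : Set V, (∃ w, w ∉ O) → Div G O) {Y : Set V}
    (hY : Modu G Y) (hw : ∃ w, w ∉ Y) {a b : V} (ha : a ∈ Y) (hb' : b ∈ Y) (hab : a ≠ b)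
    (hn : ¬ G.Adj a b) : Div G Set.univ := by
  intro k hk hb
  obtain ⟨L, hL, hcL, hbL⟩ := exists_omega (G := G) Y
  have hpos : 0 < L.card := by
    have := hbL {a} (by simpa using ha) (by intro a ha b hb' hab; simp_all)
    simpa using this
  obtain ⟨A2, hA2, hp2, hH2⟩ := ih Y hw L.card hpos hbL
  have hex : ∃ w, w ∉ {x | x ∉ Y ∨ x ∈ L} := by
    by_cases haL : a ∈ L
    · refine ⟨b, ?_⟩
      rintro (h | h)
      · exact h hb'
      · exact hn (hcL a haL b h hab)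
    · refine ⟨a, ?_⟩
      rintro (h | h)
      · exact h ha
      · exact haL h
  obtain ⟨A1, hA1, hp1, hH1⟩ := ih _ hex k hk (hb.mono (Set.subset_univ _))
  have hsw : ∀ K : Finset V, FClq G K → K.card = k → ∀ z ∈ K, z ∈ Y →
      (K.filter (fun x => x ∈ Y)).card = L.card ∧ FClq G (K.filter (fun x => x ∉ Y) ∪ L) ∧
      (K.filter (fun x => x ∉ Y) ∪ L).card = k := by
    intro K hcK hKk z hz hzY
    obtain ⟨e1, e4, e5⟩ := swap_card (Y := Y) hb (fun x _ => Set.mem_univ x) hcK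
      (fun x _ => Set.mem_univ x) hL hcL
      (by
        intro a ha haY w hw
        rcases hY a haY with h | h
        · exact h w (hL w hw)
        · exact (h z hzY (hcK a ha z hz (by rintro rfl; exact haY hzY))).elim)
    have e2 := card_split K Y
    have e3 := hbL (K.filter (fun x => x ∈ Y)) (fun x hx => (Finset.mem_filter.1 hx).2)
      (fun a ha b hb' hab =>
        hcK a (Finset.mem_filter.1 ha).1 b (Finset.mem_filter.1 hb').1 hab)
    exact ⟨by omega, e4, by omega⟩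
  by_cases hA : ∃ y ∈ A1, y ∈ Y
  · obtain ⟨y, hy1, hyY⟩ := hA
    refine ⟨(A1 \ Y) ∪ A2, Set.subset_univ _, hp1.subst hp2 hY hyY hy1 hA2, ?_⟩
    intro K _ hcK hKk
    by_cases hKY : ∃ z ∈ K, z ∈ Y
    · obtain ⟨z, hz, hzY⟩ := hKY
      obtain ⟨e1, -, -⟩ := hsw K hcK hKk z hz hzY
      obtain ⟨w, hw, hwA⟩ := hH2 (K.filter (fun x => x ∈ Y))
        (fun x hx => (Finset.mem_filter.1 hx).2)
        (fun a ha b hb' hab =>
          hcK a (Finset.mem_filter.1 ha).1 b (Finset.mem_filter.1 hb').1 hab) e1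
      exact ⟨w, (Finset.mem_filter.1 hw).1, Or.inr hwA⟩
    · push Not at hKY
      obtain ⟨w, hw, hwA⟩ := hH1 K (fun x hx => Or.inl (hKY x hx)) hcK hKk
      exact ⟨w, hw, Or.inl ⟨hwA, hKY w hw⟩⟩
  · push Not at hA
    refine ⟨A1, Set.subset_univ _, hp1, ?_⟩
    intro K _ hcK hKk
    by_cases hKY : ∃ z ∈ K, z ∈ Y
    · obtain ⟨z, hz, hzY⟩ := hKY
      obtain ⟨-, e2, e3⟩ := hsw K hcK hKk z hz hzY
      obtain ⟨w, hw, hwA⟩ := hH1 _ (by
        intro x hx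
        rcases Finset.mem_union.1 hx with hx | hx
        · exact Or.inl (Finset.mem_filter.1 hx).2
        · exact Or.inr hx) e2 e3
      rcases Finset.mem_union.1 hw with hw | hw
      · exact ⟨w, (Finset.mem_filter.1 hw).1, hwA⟩
      · exact (hA w hwA (hL w hw)).elim
    · push Not at hKY
      exact hH1 K (fun x hx => Or.inl (hKY x hx)) hcK hKk

/-- main reduction: a vertex `v`, a co-bipartite set `W` of non-neighbours, an outer part `O` -/
theorem div_red [Fintype V] (ih : ∀ O : Set V, (∃ w, w ∉ O) → Div G O) (v : V) (W O C : Set V)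
    (hvO : v ∉ O) (hvW : v ∉ W) (hWv : ∀ w ∈ W, ¬ G.Adj v w) (hW : Cob G W)
    (hN : ∀ x ∈ O, ∀ y ∈ O, G.Adj v x → G.Adj v y → x ≠ y → G.Adj x y)
    (hC : Clq G C) (hWO : ∀ x ∈ W, x ∉ O)
    (hE : ∀ x ∈ W, ∀ y ∈ O, G.Adj x y → x ∈ C ∧ y ∈ C)
    (hH : ∀ K : Finset V, FClq G K → (∀ u, u ∉ K → ∃ x ∈ K, ¬ G.Adj u x) → v ∉ K →
      (∀ x ∈ K, x ∉ W) → ∀ x ∈ K, x ∈ O) : Div G Set.univ := by
  intro k hk hb
  obtain ⟨A, hA, hp, hHA⟩ := ih O ⟨v, hvO⟩ k hk (hb.mono (Set.subset_univ _))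
  have p1 : Perf G (A ∪ {v}) :=
    perf_add_simplicial hp (fun x hx y hy => hN x (hA hx) y (hA hy))
  have p2 : Perf G (W ∪ (C ∩ (W ∪ A))) :=
    hW.perf.glue (hC.mono Set.inter_subset_left).perf
      (hC.mono (fun x hx => hx.2.1)) (by
        rintro x hx y ⟨hyC, hy | hy⟩ hxy
        · exact Or.inr hy
        · exact Or.inl ⟨(hE x hx y (hA hy) hxy).1, Or.inl hx⟩)
  have p3 := p1.glue p2 (by
      refine hC.mono ?_
      rintro x ⟨hx | hx, hx' | hx'⟩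
      · exact (hWO x hx' (hA hx)).elim
      · exact hx'.1
      · rw [Set.mem_singleton_iff.1 hx] at hx'
        exact (hvW hx').elim
      · exact hx'.1) (by
      rintro x (hx | hx) y (hy | ⟨hyC, hy | hy⟩) hxy
      · exact Or.inl (Or.inr ⟨(hE y hy x (hA hx) hxy.symm).2, Or.inr hx⟩)
      · exact Or.inl (Or.inr ⟨(hE y hy x (hA hx) hxy.symm).2, Or.inr hx⟩)
      · exact Or.inr (Or.inl hy)
      · rw [Set.mem_singleton_iff.1 hx] at hxy; exact (hWv y hy hxy).elim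
      · rw [Set.mem_singleton_iff.1 hx] at hxy; exact (hWv y hy hxy).elim
      · exact Or.inr (Or.inl hy))
  refine ⟨_, Set.subset_univ _, p3, ?_⟩
  intro K hK hcK hKk
  by_cases hv : v ∈ K
  · exact ⟨v, hv, Or.inl (Or.inr rfl)⟩
  by_cases hKW : ∃ x ∈ K, x ∈ W
  · obtain ⟨x, hx, hxW⟩ := hKW
    exact ⟨x, hx, Or.inr (Or.inl hxW)⟩
  push Not at hKW
  obtain ⟨x, hx, hxA⟩ := hHA K
    (hH K hcK (fun u hu => hb.maxl hK hcK hKk (Set.mem_univ u) hu) hv hKW) hcK hKk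
  exact ⟨x, hx, Or.inl (Or.inl hxA)⟩

theorem div_two [Fintype V] (ih : ∀ O : Set V, (∃ w, w ∉ O) → Div G O) (W O : Set V)
    (hvO : ∃ v, v ∉ O) (hW : Cob G W) (hWO : ∀ x ∈ W, x ∉ O)
    (hE : ∀ x ∈ W, ∀ y ∈ O, ¬ G.Adj x y)
    (hH : ∀ K : Finset V, FClq G K → (∀ u, u ∉ K → ∃ x ∈ K, ¬ G.Adj u x) →
      (∀ x ∈ K, x ∉ W) → ∀ x ∈ K, x ∈ O) : Div G Set.univ := by
  intro k hk hb
  obtain ⟨A, hA, hp, hHA⟩ := ih O hvO k hk (hb.mono (Set.subset_univ _))
  have p3 := hW.perf.glue hp (fun x hx => (hWO x hx.1 (hA hx.2)).elim)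
    (fun x hx y hy hxy => (hE x hx y (hA hy) hxy).elim)
  refine ⟨_, Set.subset_univ _, p3, ?_⟩
  intro K hK hcK hKk
  by_cases hKW : ∃ x ∈ K, x ∈ W
  · obtain ⟨x, hx, hxW⟩ := hKW
    exact ⟨x, hx, Or.inl hxW⟩
  push Not at hKW
  obtain ⟨x, hx, hxA⟩ := hHA K
    (hH K hcK (fun u hu => hb.maxl hK hcK hKk (Set.mem_univ u) hu) hKW) hcK hKk
  exact ⟨x, hx, Or.inr hxA⟩

theorem div_transfer {U : Set V} (h : Div (G.induce U) Set.univ) : Div G U := by
  have lift : ∀ K : Finset V, (∀ x ∈ K, x ∈ U) → FClq G K →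
      ∃ K' : Finset U, (∀ x, x ∈ K' ↔ x.1 ∈ K) ∧ FClq (G.induce U) K' ∧ K'.card = K.card := by
    intro K hK hc
    refine ⟨K.subtype (· ∈ U), fun x => by simp, ?_, ?_⟩
    · intro a ha b hb' hab
      exact hc a.1 (by simpa using ha) b.1 (by simpa using hb') (fun e => hab (Subtype.ext e))
    · rw [Finset.card_subtype, Finset.filter_true_of_mem hK]
  have down : ∀ (T : Set V) (k : ℕ), Bd G T k → Bd (G.induce U) {x | x.1 ∈ T} k := by
    intro T k hb K' hK' hc'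
    have := hb (K'.map (Function.Embedding.subtype _)) (by
      intro x hx
      obtain ⟨y, hy, rfl⟩ := Finset.mem_map.1 hx
      exact hK' y hy) (by
      intro a ha b hb' hab
      obtain ⟨x, hx, rfl⟩ := Finset.mem_map.1 ha
      obtain ⟨y, hy, rfl⟩ := Finset.mem_map.1 hb'
      exact hc' x hx y hy (fun e => hab (by rw [e])))
    simpa using this
  intro k hk hb
  obtain ⟨A', -, hp, hH⟩ := h k hk ((down U k hb).mono (fun x _ => x.2))
  refine ⟨Subtype.val '' A', ?_, ?_, ?_⟩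
  · rintro x ⟨y, _, rfl⟩; exact y.2
  · intro j T hT hbT
    obtain ⟨f, hf1, hf2⟩ := hp j {x | x.1 ∈ T} (by
      intro x hx
      obtain ⟨y, hy, e⟩ := hT hx
      rwa [← Subtype.ext e]) (down T j hbT)
    have hTU : ∀ x ∈ T, x ∈ U := by
      intro x hx
      obtain ⟨y, _, rfl⟩ := hT hx
      exact y.2
    refine ⟨fun x => if hx : x ∈ U then f ⟨x, hx⟩ else 0, ?_, ?_⟩
    · intro x hx
      simp only [hTU x hx, dif_pos]
      exact hf1 _ hx
    · intro x hx y hy hxy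
      simp only [hTU x hx, hTU y hy, dif_pos]
      exact hf2 _ hx _ hy hxy
  · intro K hK hc hKk
    obtain ⟨K', h1, h2, h3⟩ := lift K hK hc
    obtain ⟨x, hx, hxA⟩ := hH K' (fun x _ => Set.mem_univ x) h2 (h3.trans hKk)
    exact ⟨x.1, (h1 x).1 hx, x, hxA, rfl⟩

end Pool.Agent.P.MP_08bb88_co
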