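import Pool.Agent.P.MP_08bb88_co.Greedy

set_option autoImplicit false

namespace Pool.Agent.P.MP_08bb88_co

open Classical

variable {V : Type} {G : SimpleGraph V}

theorem asym {u v : V} (h : G.Adj u v) : G.Adj v u := h.symm

theorem airr {u v : V} (h : G.Adj u v) : u ≠ v := h.ne

theorem ClawFree.cl (hcl : ClawFree G) (c x y z : V) : ¬ G.Adj c x ∨ ¬ G.Adj c y ∨ ¬ G.Adj c z ∨
    G.Adj x y ∨ G.Adj x z ∨ G.Adj y z ∨ x = y ∨ x = z ∨ y = z := by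
  have := hcl c x y z
  tauto

def N2 (G : SimpleGraph V) (h x : V) : Prop := x ≠ h ∧ ¬ G.Adj h x ∧ ∃ y, G.Adj h y ∧ G.Adj x y

def Far (G : SimpleGraph V) (h x : V) : Prop :=
  x ≠ h ∧ ¬ G.Adj h x ∧ ∀ y, G.Adj h y → ¬ G.Adj x y

theorem quad (h x : V) : x = h ∨ G.Adj h x ∨ N2 G h x ∨ Far G h x := by
  unfold N2 Far
  grind

theorem N2.not_far {h x : V} (h1 : N2 G h x) (h2 : Far G h x) : False := by
  obtain ⟨_, _, y, a, b⟩ := h1
  exact h2.2.2 y a b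

theorem N2.share (hcl : ClawFree G) {h x x' y : V} (h1 : N2 G h x) (h2 : N2 G h x')
    (hy : G.Adj h y) (a : G.Adj x y) (b : G.Adj x' y) (hne : x ≠ x') : G.Adj x x' := by
  have := hcl.cl y h x x'
  have := h1.1; have := h1.2.1; have := h2.1; have := h2.2.1
  grind (splits := 40) [asym]

structure Wheel (G : SimpleGraph V) (h v1 v2 v3 v4 v5 : V) : Prop where
  h1 : G.Adj h v1
  h2 : G.Adj h v2
  h3 : G.Adj h v3
  h4 : G.Adj h v4
  h5 : G.Adj h v5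
  a12 : G.Adj v1 v2
  a23 : G.Adj v2 v3
  a34 : G.Adj v3 v4
  a45 : G.Adj v4 v5
  a51 : G.Adj v5 v1
  n13 : ¬ G.Adj v1 v3
  n24 : ¬ G.Adj v2 v4
  n35 : ¬ G.Adj v3 v5
  n41 : ¬ G.Adj v4 v1
  n52 : ¬ G.Adj v5 v2

theorem Wheel.rot {h v1 v2 v3 v4 v5 : V} (w : Wheel G h v1 v2 v3 v4 v5) :
    Wheel G h v2 v3 v4 v5 v1 :=
  ⟨w.h2, w.h3, w.h4, w.h5, w.h1, w.a23, w.a34, w.a45, w.a51, w.a12, w.n24, w.n35, w.n41, w.n52,
    w.n13⟩

theorem Wheel.flip {h v1 v2 v3 v4 v5 : V} (w : Wheel G h v1 v2 v3 v4 v5) :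
    Wheel G h v2 v1 v5 v4 v3 :=
  ⟨w.h2, w.h1, w.h5, w.h4, w.h3, w.a12.symm, w.a51.symm, w.a45.symm, w.a34.symm, w.a23.symm,
    fun e => w.n52 e.symm, fun e => w.n41 e.symm, fun e => w.n35 e.symm, fun e => w.n24 e.symm,
    fun e => w.n13 e.symm⟩

def Ty (G : SimpleGraph V) (h a b c d e x : V) : Prop :=
  N2 G h x ∧ G.Adj x a ∧ G.Adj x b ∧ ¬ G.Adj x c ∧ ¬ G.Adj x d ∧ ¬ G.Adj x e

theorem Ty.flip {h a b c d e x : V} (t : Ty G h a b c d e x) : Ty G h b a e d c x :=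
  ⟨t.1, t.2.2.1, t.2.1, t.2.2.2.2.2, t.2.2.2.2.1, t.2.2.2.1⟩

section
variable (hcl : ClawFree G) {h v1 v2 v3 v4 v5 : V} (w : Wheel G h v1 v2 v3 v4 v5)
include hcl w

theorem Wheel.arc {x : V} (hx : N2 G h x) (a : G.Adj x v1) : G.Adj x v5 ∨ G.Adj x v2 := by
  have := hcl.cl v1 v5 v2 x
  have := hx.1; have := hx.2.1
  obtain ⟨h1, h2, h3, h4, h5, a12, a23, a34, a45, a51, n13, n24, n35, n41, n52⟩ := w
  grind (splits := 40) [asym]

theorem Wheel.some {x : V} (hx : N2 G h x) :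
    G.Adj x v1 ∨ G.Adj x v2 ∨ G.Adj x v3 ∨ G.Adj x v4 ∨ G.Adj x v5 := by
  obtain ⟨a, b, y, hy, hxy⟩ := hx
  obtain ⟨h1, h2, h3, h4, h5, a12, a23, a34, a45, a51, n13, n24, n35, n41, n52⟩ := w
  by_contra hn
  have c1 := hcl.cl h y v1 v3
  have c2 := hcl.cl h y v2 v4
  have c3 := hcl.cl h y v3 v5
  have c4 := hcl.cl h y v4 v1
  have c5 := hcl.cl h y v5 v2
  have d1 := hcl.cl y x v1 v3
  have d2 := hcl.cl y x v2 v4
  have d3 := hcl.cl y x v3 v5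
  have d4 := hcl.cl y x v4 v1
  have d5 := hcl.cl y x v5 v2
  grind (splits := 40) [asym]

theorem Wheel.types {x z : V} (hx : N2 G h x) (hz : Far G h z) (hxz : G.Adj x z) :
    Ty G h v1 v2 v3 v4 v5 x ∨ Ty G h v2 v3 v4 v5 v1 x ∨ Ty G h v3 v4 v5 v1 v2 x ∨
      Ty G h v4 v5 v1 v2 v3 x ∨ Ty G h v5 v1 v2 v3 v4 x := by
  have s := w.some hcl hx
  have r1 := w.arc hcl hx
  have r2 := w.rot.arc hcl hx
  have r3 := w.rot.rot.arc hcl hx
  have r4 := w.rot.rot.rot.arc hcl hx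
  have r5 := w.rot.rot.rot.rot.arc hcl hx
  have z1 := hz.2.2 _ w.h1
  have z2 := hz.2.2 _ w.h2
  have z3 := hz.2.2 _ w.h3
  have z4 := hz.2.2 _ w.h4
  have z5 := hz.2.2 _ w.h5
  have z0 := hz.2.1
  have d1 := hcl.cl x z v1 v3
  have d2 := hcl.cl x z v2 v4
  have d3 := hcl.cl x z v3 v5
  have d4 := hcl.cl x z v4 v1
  have d5 := hcl.cl x z v5 v2
  obtain ⟨h1, h2, h3, h4, h5, a12, a23, a34, a45, a51, n13, n24, n35, n41, n52⟩ := w
  unfold Ty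
  grind (splits := 40) [asym]

/-- if the type `v5 v1` is empty, every second neighbour sees `v2` or `v4` -/
theorem Wheel.cover {x : V} (hx : N2 G h x) (hn : ¬ Ty G h v5 v1 v2 v3 v4 x) :
    G.Adj x v2 ∨ G.Adj x v4 := by
  have s := w.some hcl hx
  have r1 := w.arc hcl hx
  have r3 := w.rot.rot.arc hcl hx
  have r5 := w.rot.rot.rot.rot.arc hcl hx
  unfold Ty at hn
  grind

theorem Wheel.run {t t' z : V} (ht : Ty G h v1 v2 v3 v4 v5 t) (ht' : Ty G h v2 v3 v4 v5 v1 t')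
    (hz : Far G h z) : G.Adj t z ↔ G.Adj t' z := by
  have hne : t ≠ t' := by rintro rfl; exact ht'.2.2.2.2.2 ht.2.1
  have e := N2.share hcl ht.1 ht'.1 w.h2 ht.2.2.1 ht'.2.1 hne
  have z1 := hz.2.2 _ w.h1
  have z3 := hz.2.2 _ w.h3
  have z0 := hz.2.1
  have c1 := hcl.cl t v1 t' z
  have c2 := hcl.cl t' v3 t z
  have n1 := fun e : t = z => ht.1.not_far (e ▸ hz)
  have n2 := fun e : t' = z => ht'.1.not_far (e ▸ hz)
  have := ht.1.2.1
  have := ht'.1.2.1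
  have := w.h1
  have := w.h3
  unfold Ty at ht ht'
  grind (splits := 40) [asym]

theorem Wheel.joinl {x x' z i : V} (hx : Ty G h v1 v2 v3 v4 v5 x) (hx' : Ty G h v1 v2 v3 v4 v5 x')
    (hz : Far G h z) (hxz : G.Adj x z) (hi : G.Adj x i) (hiz : ¬ G.Adj i z) (hiz' : i ≠ z)
    (hne : i ≠ x') : G.Adj i x' := by
  have z1 := hz.2.2 _ w.h1
  have z2 := hz.2.2 _ w.h2
  have z0 := hz.2.1
  have c1 := hcl.cl x v1 i z
  have c2 := hcl.cl x v2 i z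
  have b1 := hx.1.2.1
  have b2 := hx'.1.2.1
  obtain ⟨x0, x1, x2, x3, x4, x5⟩ := hx
  obtain ⟨y0, y1, y2, y3, y4, y5⟩ := hx'
  by_cases e1 : i = v1
  · rw [e1]; exact y1.symm
  by_cases e2 : i = v2
  · rw [e2]; exact y2.symm
  have f1 : G.Adj i v1 := by have := w.h1; grind (splits := 40) [asym]
  have f2 : G.Adj i v2 := by have := w.h2; grind (splits := 40) [asym]
  rcases quad (G := G) h i with e | e | e | e
  · subst e; exact (b1 hi.symm).elim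
  · have d1 := hcl.cl v1 i x' v5
    have d2 := hcl.cl v2 i x' v3
    have d3 := hcl.cl i x v5 v3
    obtain ⟨h1, h2, h3, h4, h5, a12, a23, a34, a45, a51, n13, n24, n35, n41, n52⟩ := w
    grind (splits := 40) [asym]
  · exact N2.share hcl e y0 w.h1 f1 y1 hne
  · exact (e.2.2 _ w.h1 f1).elim

end

end Pool.Agent.P.MP_08bb88_co
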